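import Pool.Agent.Helper72.PT.Defs

/-! # PF-EscPoly

A bounded set of short words on which no polynomial of bounded degree vanishes identically.

Plan. `N = ` an upper bound for the dimension of the polynomials of total degree `≤ m` in 4 variables, e.g. `(m + 1)^4`. Let `V` be the
image of `MvPolynomial.restrictTotalDegree (Fin 2 × Fin 2) F m` in the functions `SL₂(F) → F` under `p ↦ (g ↦ eval p)`; it is a
subspace of dimension `≤ N`, stable under `f ↦ f(s ·)` for `s ∈ SL₂(F)` (substitute linear forms:
`MvPolynomial.bind₁`/`aeval` with `totalDegree` 1 entries; a cleaner choice: `V` = span of all products of at most `m` entry functions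
`g ↦ g i j`, i.e. `V = (span {1, entries})^m` in the algebra of functions, which is visibly stable, and of dimension `≤ N` as the span
of the functions indexed by the exponents in `Fin 4 → Fin (m+1)`).
For `X ⊆ SL₂(F)` let `U X = {f ∈ V | f = 0 on X}`. If `U (Words S n) = U (Words S (n + 1))` then `U (Words S n) = U (Words S (n + k))` for all
`k` (for `f ∈ U (Words S n)` and a letter `s`, `f(s ·) ∈ U (Words S n) = U (Words S (n + 1))`, so `f ∈ U (Words S (n + 2))`), so it is `U ⊤`, because
every element of the finite group is a word. As the dimensions are `≤ N`, `U (Words S N) = U ⊤`. Choose `A` step by step: `A₀ = ∅`; as long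
as `U A_i ≠ U ⊤` pick `a ∈ Words S N` and `f ∈ U A_i` with `f a ≠ 0` and put `A_{i+1} = insert a A_i`; the dimension drops, so after at most `N` steps
`U A = U ⊤`. A polynomial `p` of degree `≤ m` with `p(g) ≠ 0` for some `g` is not in `U ⊤ = U A`.
-/

namespace Pool.Agent.Helper72.PF

open Matrix Module Pool.Agent.Helper72.TV Pool.Agent.Helper72.PT

/-- the functions of `V` vanishing on `X` -/
private def van {G F : Type*} [Field F] (V : Submodule F (G → F)) (X : Set G) :
    Submodule F (G → F) where
  carrier := {f | f ∈ V ∧ ∀ x ∈ X, f x = 0}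
  add_mem' := by
    rintro f g ⟨h1, h2⟩ ⟨h3, h4⟩
    exact ⟨V.add_mem h1 h3, fun x hx => by rw [Pi.add_apply, h2 x hx, h4 x hx, add_zero]⟩
  zero_mem' := ⟨V.zero_mem, fun x _ => rfl⟩
  smul_mem' := by
    rintro c f ⟨h1, h2⟩
    exact ⟨V.smul_mem c h1, fun x hx => by rw [Pi.smul_apply, h2 x hx, smul_zero]⟩

private theorem van_le {G F : Type*} [Field F] (V : Submodule F (G → F)) (X : Set G) :
    van V X ≤ V := fun _ h => h.1

private theorem van_anti {G F : Type*} [Field F] (V : Submodule F (G → F)) {X Y : Set G}
    (h : X ⊆ Y) : van V Y ≤ van V X := fun _ hf => ⟨hf.1, fun x hx => hf.2 x (h hx)⟩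

private theorem van_words {G F : Type*} [Group G] [Field F] (V : Submodule F (G → F))
    [FiniteDimensional F V] (S : Set G) (hS : Subgroup.closure S = ⊤)
    (hV : ∀ s, (s ∈ S ∨ s⁻¹ ∈ S) → ∀ f ∈ V, (fun g => f (s * g)) ∈ V) (n : ℕ) :
    finrank F (van V (Words S n)) + n ≤ finrank F V ∨ van V (Words S n) = ⊥ := by
  induction n with
  | zero =>
    left
    rw [add_zero]
    exact Submodule.finrank_mono (van_le V _)
  | succ n ih =>
    have hle : van V (Words S (n + 1)) ≤ van V (Words S n) := van_anti V (words_mono (by omega))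
    rcases ih with ih | ih
    swap
    · right
      rw [ih] at hle
      exact le_bot_iff.1 hle
    rcases eq_or_lt_of_le hle with heq | hlt
    · right
      have hstab : ∀ k, van V (Words S n) ≤ van V (Words S (n + k)) := by
        intro k
        induction k with
        | zero => exact le_rfl
        | succ k ihk =>
          intro f hf
          have hf1 : f ∈ van V (Words S (n + 1)) := by
            rw [heq]
            exact hf
          refine ⟨hf.1, ?_⟩
          rintro x ⟨l, hl, h1, rfl⟩
          cases l with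
          | nil =>
            rw [List.prod_nil]
            exact hf.2 1 (one_mem_words n)
          | cons a l =>
            rw [List.prod_cons]
            have ha := h1 a (by simp)
            have hfa : (fun g => f (a * g)) ∈ van V (Words S n) := by
              refine ⟨hV a ha f hf.1, ?_⟩
              rintro y ⟨l', hl', h1', rfl⟩
              refine hf1.2 _ ⟨a :: l', ?_, ?_, ?_⟩
              · rw [List.length_cons]
                omega
              · intro z hz
                rcases List.mem_cons.1 hz with rfl | hz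
                · exact ha
                · exact h1' z hz
              · rw [List.prod_cons]
            refine (ihk hfa).2 _ ⟨l, ?_, fun z hz => h1 z (List.mem_cons_of_mem _ hz), rfl⟩
            rw [List.length_cons] at hl
            omega
      rw [heq, eq_bot_iff]
      intro f hf
      rw [Submodule.mem_bot]
      funext g
      have hg : g ∈ Subgroup.closure S := by
        rw [hS]
        exact Subgroup.mem_top g
      obtain ⟨L, hL⟩ := exists_words_of_mem_closure hg
      exact (hstab L hf).2 g (words_mono (by omega) hL)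
    · left
      have : FiniteDimensional F (van V (Words S n)) :=
        Submodule.finiteDimensional_of_le (van_le V _)
      have h1 := Submodule.finrank_lt_finrank_of_lt hlt
      omega

private theorem exists_sep {G F : Type*} [Field F] (V : Submodule F (G → F))
    [FiniteDimensional F V] (W : Set G) (hW : van V W = ⊥) (k : ℕ) :
    ∃ A : Finset G, (A : Set G) ⊆ W ∧ A.card ≤ k ∧
      (finrank F (van V (A : Set G)) + k ≤ finrank F V ∨ van V (A : Set G) = ⊥) := by
  classical
  induction k with
  | zero =>
    refine ⟨∅, by simp, by simp, Or.inl ?_⟩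
    rw [add_zero]
    exact Submodule.finrank_mono (van_le V _)
  | succ k ih =>
    obtain ⟨A, h1, h2, h3⟩ := ih
    rcases h3 with h3 | h3
    swap
    · exact ⟨A, h1, by omega, Or.inr h3⟩
    by_cases hb : van V (A : Set G) = ⊥
    · exact ⟨A, h1, by omega, Or.inr hb⟩
    obtain ⟨f, hf, hf0⟩ := Submodule.exists_mem_ne_zero_of_ne_bot hb
    have hex : ∃ a ∈ W, f a ≠ 0 := by
      by_contra hcon
      push Not at hcon
      apply hf0
      have : f ∈ van V W := ⟨hf.1, hcon⟩
      rwa [hW, Submodule.mem_bot] at this
    obtain ⟨a, haW, hfa⟩ := hex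
    refine ⟨insert a A, ?_, (Finset.card_insert_le _ _).trans (by omega), Or.inl ?_⟩
    · intro x hx
      rw [Finset.coe_insert, Set.mem_insert_iff] at hx
      rcases hx with rfl | hx
      · exact haW
      · exact h1 hx
    · have hlt : van V ((insert a A : Finset G) : Set G) < van V (A : Set G) := by
        refine lt_of_le_of_ne (van_anti V ?_) ?_
        · rw [Finset.coe_insert]
          exact Set.subset_insert _ _
        · intro he
          rw [← he] at hf
          apply hfa
          exact hf.2 a (by rw [Finset.coe_insert]; exact Set.mem_insert _ _)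
      have : FiniteDimensional F (van V (A : Set G)) :=
        Submodule.finiteDimensional_of_le (van_le V _)
      have h4 := Submodule.finrank_lt_finrank_of_lt hlt
      omega

private theorem exists_words_sep {G F : Type*} [Group G] [Field F] (V : Submodule F (G → F))
    [FiniteDimensional F V] (S : Set G) (hS : Subgroup.closure S = ⊤)
    (hV : ∀ s, (s ∈ S ∨ s⁻¹ ∈ S) → ∀ f ∈ V, (fun g => f (s * g)) ∈ V) {N : ℕ}
    (hN : finrank F V ≤ N) : ∃ A : Finset G, (A : Set G) ⊆ Words S N ∧ A.card ≤ N ∧
      ∀ f ∈ V, f ≠ 0 → ∃ a ∈ A, f a ≠ 0 := by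
  have h1 : van V (Words S N) = ⊥ := by
    rcases van_words V S hS hV N with h | h
    · have h2 : finrank F (van V (Words S N)) = 0 := by omega
      have : FiniteDimensional F (van V (Words S N)) :=
        Submodule.finiteDimensional_of_le (van_le V _)
      exact Submodule.finrank_eq_zero.1 h2
    · exact h
  obtain ⟨A, hA, hc, h2⟩ := exists_sep V (Words S N) h1 N
  have h3 : van V (A : Set G) = ⊥ := by
    rcases h2 with h | h
    · have h2 : finrank F (van V (A : Set G)) = 0 := by omega
      have : FiniteDimensional F (van V (A : Set G)) :=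
        Submodule.finiteDimensional_of_le (van_le V _)
      exact Submodule.finrank_eq_zero.1 h2
    · exact h
  refine ⟨A, hA, hc, fun f hf hf0 => ?_⟩
  by_contra hcon
  push Not at hcon
  apply hf0
  have : f ∈ van V (A : Set G) := ⟨hf, hcon⟩
  rwa [h3, Submodule.mem_bot] at this

/-- the function of a polynomial -/
private noncomputable def pf {F : Type} [Field F] (p : MvPolynomial (Fin 2 × Fin 2) F) :
    SL2 F → F := fun g => MvPolynomial.eval
      (fun ij => (g : Matrix (Fin 2) (Fin 2) F) ij.1 ij.2) p

/-- exponents of total degree at most `m` -/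
private abbrev Ex (m : ℕ) : Type :=
  {e : Fin 2 × Fin 2 → Fin (m + 1) // ∑ ij, ((e ij : ℕ)) ≤ m}

/-- monomial functions -/
private def mf (F : Type) [Field F] (m : ℕ) (e : Ex m) : SL2 F → F :=
  fun g => ∏ ij, (g : Matrix (Fin 2) (Fin 2) F) ij.1 ij.2 ^ ((e.1 ij : ℕ))

private theorem pf_mem {F : Type} [Field F] (m : ℕ) (p : MvPolynomial (Fin 2 × Fin 2) F)
    (hp : p.totalDegree ≤ m) : pf p ∈ Submodule.span F (Set.range (mf F m)) := by
  have h1 : pf p = ∑ d ∈ p.support, p.coeff d • fun g : SL2 F =>
      ∏ ij, (g : Matrix (Fin 2) (Fin 2) F) ij.1 ij.2 ^ (d ij) := by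
    funext g
    rw [Finset.sum_apply]
    simp only [Pi.smul_apply, smul_eq_mul]
    exact MvPolynomial.eval_eq' _ _
  rw [h1]
  refine Submodule.sum_mem _ fun d hd => Submodule.smul_mem _ _ (Submodule.subset_span ?_)
  have h2 : ∑ ij, d ij ≤ m := by
    have h3 := (MvPolynomial.le_totalDegree hd).trans hp
    rwa [Finsupp.sum_fintype _ _ (fun _ => rfl)] at h3
  have h4 : ∀ ij, d ij < m + 1 := by
    intro ij
    have := Finset.single_le_sum (f := fun ij => d ij) (fun _ _ => Nat.zero_le _)
      (Finset.mem_univ ij)
    have h5 : d ij ≤ ∑ ij, d ij := this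
    omega
  exact ⟨⟨fun ij => ⟨d ij, h4 ij⟩, h2⟩, rfl⟩

private theorem mf_shift {F : Type} [Field F] (m : ℕ) (e : Ex m) (s : SL2 F) :
    ∃ p : MvPolynomial (Fin 2 × Fin 2) F, p.totalDegree ≤ m ∧
      (fun g => mf F m e (s * g)) = pf p := by
  refine ⟨∏ ij : Fin 2 × Fin 2, (∑ k : Fin 2,
    MvPolynomial.C ((s : Matrix (Fin 2) (Fin 2) F) ij.1 k) * MvPolynomial.X (k, ij.2)) ^
      ((e.1 ij : ℕ)), ?_, ?_⟩
  · refine (MvPolynomial.totalDegree_finsetProd _ _).trans ?_
    refine le_trans (Finset.sum_le_sum fun ij _ => ?_) e.2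
    refine (MvPolynomial.totalDegree_pow _ _).trans ?_
    have h1 : (∑ k : Fin 2, MvPolynomial.C ((s : Matrix (Fin 2) (Fin 2) F) ij.1 k) *
        (MvPolynomial.X (k, ij.2) : MvPolynomial (Fin 2 × Fin 2) F)).totalDegree ≤ 1 := by
      refine (MvPolynomial.totalDegree_finsetSum _ _).trans (Finset.sup_le fun k _ => ?_)
      refine (MvPolynomial.totalDegree_mul _ _).trans ?_
      rw [MvPolynomial.totalDegree_C, MvPolynomial.totalDegree_X]
    calc _ ≤ (e.1 ij : ℕ) * 1 := Nat.mul_le_mul_left _ h1
      _ = _ := mul_one _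
  · funext g
    unfold mf pf
    rw [MvPolynomial.eval_prod]
    refine Finset.prod_congr rfl fun ij _ => ?_
    rw [map_pow, map_sum]
    congr 1
    rw [Matrix.SpecialLinearGroup.coe_mul, Matrix.mul_apply]
    refine Finset.sum_congr rfl fun k _ => ?_
    rw [map_mul, MvPolynomial.eval_C, MvPolynomial.eval_X]

theorem escPoly (m : ℕ) : ∃ N : ℕ, 1 ≤ N ∧ ∀ (F : Type) [Field F] [Finite F] (S : Set (SL2 F)),
    Subgroup.closure S = ⊤ → ∃ A : Finset (SL2 F), (A : Set (SL2 F)) ⊆ Words S N ∧ A.card ≤ N ∧
      ∀ p : MvPolynomial (Fin 2 × Fin 2) F, p.totalDegree ≤ m →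
        (∃ g : SL2 F, MvPolynomial.eval
          (fun ij => (g : Matrix (Fin 2) (Fin 2) F) ij.1 ij.2) p ≠ 0) →
        ∃ a ∈ A, MvPolynomial.eval (fun ij => (a : Matrix (Fin 2) (Fin 2) F) ij.1 ij.2) p ≠ 0 := by
  refine ⟨max 1 (Fintype.card (Ex m)), le_max_left _ _, ?_⟩
  intro F _ _ S hS
  set V : Submodule F (SL2 F → F) := Submodule.span F (Set.range (mf F m)) with hV
  have hfd : FiniteDimensional F V := FiniteDimensional.span_of_finite F (Set.finite_range _)
  have hrk : finrank F V ≤ max 1 (Fintype.card (Ex m)) :=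
    (finrank_range_le_card (mf F m)).trans (le_max_right _ _)
  have hst : ∀ s : SL2 F, (s ∈ S ∨ s⁻¹ ∈ S) → ∀ f ∈ V, (fun g => f (s * g)) ∈ V := by
    intro s _ f hf
    induction hf using Submodule.span_induction with
    | mem f hf =>
      obtain ⟨e, rfl⟩ := hf
      obtain ⟨p, hp, he⟩ := mf_shift m e s
      rw [he]
      exact pf_mem m p hp
    | zero => exact V.zero_mem
    | add f g _ _ h1 h2 => exact V.add_mem h1 h2
    | smul c f _ h => exact V.smul_mem c h
  obtain ⟨A, hA, hc, h⟩ := exists_words_sep V S hS hst hrk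
  refine ⟨A, hA, hc, fun p hp hex => ?_⟩
  obtain ⟨g, hg⟩ := hex
  exact h (pf p) (pf_mem m p hp) (fun h0 => hg (congrFun h0 g))

end Pool.Agent.Helper72.PF
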