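import Pool.Agent.Helper72.PT.Defs

/-! # PF-NonDeg

Plan. Consider `g(s, t, r) = uu s * vv t * uu r = !![1 + s t, s + r + s t r; t, 1 + t r]` with `s, t, r ∈ F`, and the four polynomials in
`s, t, r` over `F`: `p₁ = tr (M g)`, `p₂ = tr g = 2 + t (s + r)`, `p₃ = tr [g, b] - 2` (`g⁻¹` = adjugate, so a polynomial),
`p₄ = (tr g)² - 4`. Each is a nonzero polynomial:
`p₁`: the entries `1 + s t, s + r + s t r, t, 1 + t r` are linearly independent. `p₂, p₄`: coefficients of `t s` resp. `t² s²` are 1.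
`p₃`: it is nonzero at some point of `F³`: for `b = !![e, f; c, k]`, `tr [uu s, b] - 2 = s² c²`, `tr [vv t, b] - 2 = t² f²`; if `c ≠ 0` take `s = 1, t = r = 0`;
if `f ≠ 0` take `t = 1`, `s = r = 0`; if `c = f = 0`, `e ≠ k` (as `b ≠ ±1`, `e k = 1`): `g = uu 1 * vv 1` gives `tr [g, b] - 2 = -(e - k)²`
up to sign, nonzero. The product has total degree at most `3 + 2 + 12 + 4` (very crude bounds are enough), so by Schwartz-Zippel
(`MvPolynomial.schwartz_zippel_totalDegree`, or iterated one variable arguments, or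
`MvPolynomial.funext`-like lemmas with `degreeOf < card`) it does not vanish on `F³` if `|F| ≥ 100`.
-/

namespace Pool.Agent.Helper72.PF

open Matrix Module Pool.Agent.Helper72.TV Pool.Agent.Helper72.PT

/-- functions given by polynomials of degree at most two -/
private def Quad {F : Type} [Field F] (f : F → F) : Prop :=
  ∃ a b c : F, ∀ x, f x = a + b * x + c * x ^ 2

private theorem quad_poly {F : Type} [Field F] {f : F → F} (hf : Quad f) (h : ∃ x, f x ≠ 0) :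
    ∃ P : Polynomial F, P ≠ 0 ∧ P.natDegree ≤ 2 ∧ ∀ x, f x = P.eval x := by
  obtain ⟨a, b, c, habc⟩ := hf
  obtain ⟨x, hx⟩ := h
  refine ⟨Polynomial.C a + Polynomial.C b * Polynomial.X + Polynomial.C c * Polynomial.X ^ 2,
    ?_, ?_, ?_⟩
  · intro h0
    apply hx
    have h1 := congrArg (Polynomial.eval x) h0
    simp only [Polynomial.eval_add, Polynomial.eval_mul, Polynomial.eval_C, Polynomial.eval_X,
      Polynomial.eval_pow, Polynomial.eval_zero] at h1
    rw [habc, h1]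
  · compute_degree
  · intro x
    rw [habc]
    simp only [Polynomial.eval_add, Polynomial.eval_mul, Polynomial.eval_C, Polynomial.eval_X,
      Polynomial.eval_pow]

/-- four nonzero functions of degree at most two have a common non-zero -/
private theorem quad_ne {F : Type} [Field F] [Finite F] (hF : 100 ≤ Nat.card F)
    {f1 f2 f3 f4 : F → F} (q1 : Quad f1) (q2 : Quad f2) (q3 : Quad f3) (q4 : Quad f4)
    (h1 : ∃ x, f1 x ≠ 0) (h2 : ∃ x, f2 x ≠ 0) (h3 : ∃ x, f3 x ≠ 0) (h4 : ∃ x, f4 x ≠ 0) :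
    ∃ x, f1 x ≠ 0 ∧ f2 x ≠ 0 ∧ f3 x ≠ 0 ∧ f4 x ≠ 0 := by
  obtain ⟨P1, a1, b1, c1⟩ := quad_poly q1 h1
  obtain ⟨P2, a2, b2, c2⟩ := quad_poly q2 h2
  obtain ⟨P3, a3, b3, c3⟩ := quad_poly q3 h3
  obtain ⟨P4, a4, b4, c4⟩ := quad_poly q4 h4
  have hne : P1 * P2 * P3 * P4 ≠ 0 := mul_ne_zero (mul_ne_zero (mul_ne_zero a1 a2) a3) a4
  have hdeg : (P1 * P2 * P3 * P4).natDegree ≤ 8 := by
    have e1 := Polynomial.natDegree_mul_le (p := P1 * P2 * P3) (q := P4)
    have e2 := Polynomial.natDegree_mul_le (p := P1 * P2) (q := P3)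
    have e3 := Polynomial.natDegree_mul_le (p := P1) (q := P2)
    omega
  obtain ⟨x, hx⟩ := Polynomial.exists_eval_ne_zero_of_natDegree_lt_card _ hne (by
    rw [← Nat.cast_card]
    exact_mod_cast (by omega : (P1 * P2 * P3 * P4).natDegree < Nat.card F))
  rw [Polynomial.eval_mul, Polynomial.eval_mul, Polynomial.eval_mul] at hx
  refine ⟨x, ?_, ?_, ?_, ?_⟩
  · rw [c1]; intro h; apply hx; rw [h]; ring
  · rw [c2]; intro h; apply hx; rw [h]; ring
  · rw [c3]; intro h; apply hx; rw [h]; ring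
  · rw [c4]; intro h; apply hx; rw [h]; ring

/-- trace of the commutator of `!![p, q; r, s]` and `!![e, f; c, k]` -/
private def tc {F : Type} [Field F] (e f c k p q r s : F) : F :=
  (p * e + q * c) * (s * k + q * c) + (p * f + q * k) * (-(r * k) - p * c) +
    (r * e + s * c) * (-(s * f) - q * e) + (r * f + s * k) * (r * f + p * e)

private theorem tc_quad {F : Type} [Field F] (e f c k p0 p1 q0 q1 r0 r1 s0 s1 : F) :
    Quad (fun x => tc e f c k (p0 + p1 * x) (q0 + q1 * x) (r0 + r1 * x) (s0 + s1 * x) - 2) := by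
  refine ⟨tc e f c k p0 q0 r0 s0 - 2,
    (p1 * e + q1 * c) * (s0 * k + q0 * c) + (p0 * e + q0 * c) * (s1 * k + q1 * c) +
    (p1 * f + q1 * k) * (-(r0 * k) - p0 * c) + (p0 * f + q0 * k) * (-(r1 * k) - p1 * c) +
    (r1 * e + s1 * c) * (-(s0 * f) - q0 * e) + (r0 * e + s0 * c) * (-(s1 * f) - q1 * e) +
    (r1 * f + s1 * k) * (r0 * f + p0 * e) + (r0 * f + s0 * k) * (r1 * f + p1 * e),
    tc e f c k p1 q1 r1 s1, fun x => ?_⟩
  unfold tc
  ring

private theorem coe_g {F : Type} [Field F] (s t r : F) :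
    ((uu s * vv t * uu r : SL2 F) : Matrix (Fin 2) (Fin 2) F) =
      !![1 + s * t, s + r + s * t * r; t, 1 + t * r] := by
  rw [Matrix.SpecialLinearGroup.coe_mul, Matrix.SpecialLinearGroup.coe_mul, uu_coe, uu_coe, vv_coe,
    Matrix.mul_fin_two, Matrix.mul_fin_two]
  ext i j
  fin_cases i <;> fin_cases j <;> simp <;> ring

private theorem tr_comm {F : Type} [Field F] (b : SL2 F) (s t r : F) :
    tr ((uu s * vv t * uu r) * b * (uu s * vv t * uu r)⁻¹ * b⁻¹) =
      tc ((b : Matrix (Fin 2) (Fin 2) F) 0 0) ((b : Matrix (Fin 2) (Fin 2) F) 0 1)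
        ((b : Matrix (Fin 2) (Fin 2) F) 1 0) ((b : Matrix (Fin 2) (Fin 2) F) 1 1)
        (1 + s * t) (s + r + s * t * r) t (1 + t * r) := by
  have hb : (b : Matrix (Fin 2) (Fin 2) F) = !![(b : Matrix (Fin 2) (Fin 2) F) 0 0,
      (b : Matrix (Fin 2) (Fin 2) F) 0 1; (b : Matrix (Fin 2) (Fin 2) F) 1 0,
      (b : Matrix (Fin 2) (Fin 2) F) 1 1] := Matrix.eta_fin_two _
  generalize (b : Matrix (Fin 2) (Fin 2) F) 0 0 = e at hb
  generalize (b : Matrix (Fin 2) (Fin 2) F) 0 1 = f at hb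
  generalize (b : Matrix (Fin 2) (Fin 2) F) 1 0 = c at hb
  generalize (b : Matrix (Fin 2) (Fin 2) F) 1 1 = k at hb
  unfold tr
  rw [Matrix.SpecialLinearGroup.coe_mul, Matrix.SpecialLinearGroup.coe_mul,
    Matrix.SpecialLinearGroup.coe_mul, Matrix.SpecialLinearGroup.coe_inv,
    Matrix.SpecialLinearGroup.coe_inv, coe_g, hb, Matrix.adjugate_fin_two_of,
    Matrix.adjugate_fin_two_of, Matrix.mul_fin_two, Matrix.mul_fin_two, Matrix.mul_fin_two,
    Matrix.trace_fin_two_of]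
  unfold tc
  ring

theorem nonDeg {F : Type} [Field F] [Finite F] (hF : 100 ≤ Nat.card F) (b : SL2 F)
    (hb1 : (b : Matrix (Fin 2) (Fin 2) F) ≠ 1) (hb2 : (b : Matrix (Fin 2) (Fin 2) F) ≠ -1)
    (M : Matrix (Fin 2) (Fin 2) F) (hM : M ≠ 0) :
    ∃ g : SL2 F, (M * (g : Matrix (Fin 2) (Fin 2) F)).trace ≠ 0 ∧ tr g ≠ 0 ∧
      tr (g * b * g⁻¹ * b⁻¹) ≠ 2 ∧ tr g ^ 2 ≠ 4 := by
  have hdet := det_eq b
  obtain ⟨e, he⟩ : ∃ e, (b : Matrix (Fin 2) (Fin 2) F) 0 0 = e := ⟨_, rfl⟩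
  obtain ⟨f, hf⟩ : ∃ f, (b : Matrix (Fin 2) (Fin 2) F) 0 1 = f := ⟨_, rfl⟩
  obtain ⟨c, hc⟩ : ∃ c, (b : Matrix (Fin 2) (Fin 2) F) 1 0 = c := ⟨_, rfl⟩
  obtain ⟨k, hk⟩ : ∃ k, (b : Matrix (Fin 2) (Fin 2) F) 1 1 = k := ⟨_, rfl⟩
  rw [he, hf, hc, hk] at hdet
  have hbm : (b : Matrix (Fin 2) (Fin 2) F) = !![e, f; c, k] := by
    rw [← he, ← hf, ← hc, ← hk]
    exact Matrix.eta_fin_two _
  -- the four functions
  obtain ⟨g1, hg1⟩ : ∃ g1 : F → F → F → F, ∀ s t r, g1 s t r = M 0 0 * (1 + s * t) +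
      M 0 1 * t + (M 1 0 * (s + r + s * t * r) + M 1 1 * (1 + t * r)) := ⟨_, fun _ _ _ => rfl⟩
  obtain ⟨g2, hg2⟩ : ∃ g2 : F → F → F → F, ∀ s t r, g2 s t r = 2 + t * (s + r) :=
    ⟨_, fun _ _ _ => rfl⟩
  obtain ⟨g3, hg3⟩ : ∃ g3 : F → F → F → F, ∀ s t r, g3 s t r =
      tc e f c k (1 + s * t) (s + r + s * t * r) t (1 + t * r) - 2 := ⟨_, fun _ _ _ => rfl⟩
  obtain ⟨g4, hg4⟩ : ∃ g4 : F → F → F → F, ∀ s t r, g4 s t r = (2 + t * (s + r)) ^ 2 - 4 :=
    ⟨_, fun _ _ _ => rfl⟩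
  -- they are nonzero
  have n1 : ∃ s t r, g1 s t r ≠ 0 := by
    by_contra hcon
    push Not at hcon
    apply hM
    have e1 := hcon 0 0 0
    have e2 := hcon 1 0 0
    have e3 := hcon 0 1 0
    have e4 := hcon 1 1 0
    rw [hg1] at e1 e2 e3 e4
    have h10 : M 1 0 = 0 := by linear_combination e2 - e1
    have h01 : M 0 1 = 0 := by linear_combination e3 - e1
    have h00 : M 0 0 = 0 := by linear_combination e4 - e1 - h10 - h01
    have h11 : M 1 1 = 0 := by linear_combination e1 - h00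
    ext i j
    fin_cases i <;> fin_cases j
    · exact h00
    · exact h01
    · exact h10
    · exact h11
  have n2 : ∃ s t r, g2 s t r ≠ 0 := by
    by_contra hcon
    push Not at hcon
    have e1 := hcon 0 0 0
    have e2 := hcon 1 1 0
    rw [hg2] at e1 e2
    exact one_ne_zero (by linear_combination e2 - e1 : (1 : F) = 0)
  have n4 : ∃ s t r, g4 s t r ≠ 0 := by
    by_contra hcon
    push Not at hcon
    have e1 := hcon 1 1 0
    have e2 := hcon (-1) 1 0
    rw [hg4] at e1 e2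
    exact one_ne_zero (by linear_combination (-1 : F) * e1 - 2 * e2 : (1 : F) = 0)
  have n3 : ∃ s t r, g3 s t r ≠ 0 := by
    by_cases hc0 : c = 0
    · by_cases hf0 : f = 0
      · refine ⟨1, 1, 0, ?_⟩
        rw [hg3]
        unfold tc
        subst hc0
        subst hf0
        have h1 : e - k ≠ 0 := by
          intro h
          have h2 : k = e := by linear_combination -h
          subst h2
          have h3 : (k - 1) * (k + 1) = 0 := by linear_combination hdet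
          rcases mul_eq_zero.1 h3 with h4 | h4
          · apply hb1
            rw [hbm]
            have h5 : k = 1 := by linear_combination h4
            rw [h5, Matrix.one_fin_two]
          · apply hb2
            rw [hbm]
            have h5 : k = -1 := by linear_combination h4
            rw [h5, Matrix.one_fin_two]
            ext i j
            fin_cases i <;> fin_cases j <;> simp
        intro h0
        apply h1
        have h6 : (e - k) ^ 2 = 0 := by linear_combination -h0 + 2 * hdet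
        exact pow_eq_zero_iff (two_ne_zero) |>.1 h6
      · refine ⟨0, 1, 0, ?_⟩
        rw [hg3]
        unfold tc
        intro h0
        apply hf0
        have h6 : f ^ 2 = 0 := by linear_combination h0 - 2 * hdet
        exact pow_eq_zero_iff (two_ne_zero) |>.1 h6
    · refine ⟨1, 0, 0, ?_⟩
      rw [hg3]
      unfold tc
      intro h0
      apply hc0
      have h6 : c ^ 2 = 0 := by linear_combination h0 - 2 * hdet
      exact pow_eq_zero_iff (two_ne_zero) |>.1 h6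
  obtain ⟨s1, t1, r1, k1⟩ := n1
  obtain ⟨s2, t2, r2, k2⟩ := n2
  obtain ⟨s3, t3, r3, k3⟩ := n3
  obtain ⟨s4, t4, r4, k4⟩ := n4
  -- choice of `s`
  obtain ⟨s, a1, a2, a3, a4⟩ := quad_ne hF (f1 := fun s => g1 s t1 r1) (f2 := fun s => g2 s t2 r2)
    (f3 := fun s => g3 s t3 r3) (f4 := fun s => g4 s t4 r4)
    ⟨M 0 0 + M 0 1 * t1 + M 1 0 * r1 + M 1 1 * (1 + t1 * r1),
      M 0 0 * t1 + M 1 0 * (1 + t1 * r1), 0, fun s => by beta_reduce; rw [hg1]; ring⟩
    ⟨2 + t2 * r2, t2, 0, fun s => by beta_reduce; rw [hg2]; ring⟩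
    (by
      have := tc_quad e f c k 1 t3 r3 (1 + t3 * r3) t3 0 (1 + t3 * r3) 0
      obtain ⟨a, b', c', h⟩ := this
      refine ⟨a, b', c', fun s => ?_⟩
      rw [← h]
      beta_reduce
      rw [hg3]
      unfold tc
      ring)
    ⟨(2 + t4 * r4) ^ 2 - 4, 2 * (2 + t4 * r4) * t4, t4 ^ 2, fun s => by beta_reduce; rw [hg4]; ring⟩
    ⟨s1, k1⟩ ⟨s2, k2⟩ ⟨s3, k3⟩ ⟨s4, k4⟩
  -- choice of `t`
  obtain ⟨t, b1, b2, b3, b4⟩ := quad_ne hF (f1 := fun t => g1 s t r1) (f2 := fun t => g2 s t r2)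
    (f3 := fun t => g3 s t r3) (f4 := fun t => g4 s t r4)
    ⟨M 0 0 + M 1 0 * (s + r1) + M 1 1, M 0 0 * s + M 0 1 + M 1 0 * (s * r1) + M 1 1 * r1, 0,
      fun t => by beta_reduce; rw [hg1]; ring⟩
    ⟨2, s + r2, 0, fun t => by beta_reduce; rw [hg2]; ring⟩
    (by
      have := tc_quad e f c k 1 s (s + r3) (s * r3) 0 1 1 r3
      obtain ⟨a, b', c', h⟩ := this
      refine ⟨a, b', c', fun t => ?_⟩
      rw [← h]
      beta_reduce
      rw [hg3]
      unfold tc
      ring)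
    ⟨0, 4 * (s + r4), (s + r4) ^ 2, fun t => by beta_reduce; rw [hg4]; ring⟩
    ⟨t1, a1⟩ ⟨t2, a2⟩ ⟨t3, a3⟩ ⟨t4, a4⟩
  -- choice of `r`
  obtain ⟨r, c1, c2, c3, c4⟩ := quad_ne hF (f1 := fun r => g1 s t r) (f2 := fun r => g2 s t r)
    (f3 := fun r => g3 s t r) (f4 := fun r => g4 s t r)
    ⟨M 0 0 * (1 + s * t) + M 0 1 * t + M 1 0 * s + M 1 1, M 1 0 * (1 + s * t) + M 1 1 * t, 0,
      fun r => by beta_reduce; rw [hg1]; ring⟩
    ⟨2 + t * s, t, 0, fun r => by beta_reduce; rw [hg2]; ring⟩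
    (by
      have := tc_quad e f c k (1 + s * t) 0 s (1 + s * t) t 0 1 t
      obtain ⟨a, b', c', h⟩ := this
      refine ⟨a, b', c', fun r => ?_⟩
      rw [← h]
      beta_reduce
      rw [hg3]
      unfold tc
      ring)
    ⟨(2 + t * s) ^ 2 - 4, 2 * (2 + t * s) * t, t ^ 2, fun r => by beta_reduce; rw [hg4]; ring⟩
    ⟨r1, b1⟩ ⟨r2, b2⟩ ⟨r3, b3⟩ ⟨r4, b4⟩
  rw [hg1] at c1
  rw [hg2] at c2
  rw [hg3] at c3
  rw [hg4] at c4
  have htr : tr (uu s * vv t * uu r : SL2 F) = 2 + t * (s + r) := by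
    unfold tr
    rw [coe_g, Matrix.trace_fin_two_of]
    ring
  refine ⟨uu s * vv t * uu r, ?_, ?_, ?_, ?_⟩
  · rw [coe_g, Matrix.eta_fin_two M, Matrix.mul_fin_two, Matrix.trace_fin_two_of]
    exact c1
  · rw [htr]; exact c2
  · rw [tr_comm, he, hf, hc, hk]
    intro h
    apply c3
    rw [h, sub_self]
  · rw [htr]
    intro h
    apply c4
    rw [h, sub_self]

end Pool.Agent.Helper72.PF
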