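import Pool.Agent.Helper72.PF.EscPoly
import Pool.Agent.Helper72.PF.NonDeg

/-! # PF-Triple

A bounded set of short words containing, for every noncentral `b`, a nondegenerate triple.

Plan (imported theorems may be still sorried). `N` from `escPoly 8`. For `b ≠ ±1` and `M ≠ 0` the function
`g ↦ tr (M g) * tr g * (tr (g b g⁻¹ b⁻¹) - 2)` is given by a polynomial in the entries of `g` of total degree `≤ 1 + 1 + 2` (`inv_coe`), and it
is nonzero at some `g` by `nonDeg`; so it is nonzero at some `a ∈ A` (`escPoly`): (*). Similarly `tr g ^ 2 - 4` (degree 2, `nonDeg` with any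
`b ≠ ±1`, e.g. `uu 1`, and `M = 1`) gives the first conclusion. Now let `U₀ = {X | tr X = 0}` (dimension 3). Given `U_k ≠ 0` choose `M ∈ U_k`,
`M ≠ 0`, and `a_{k+1} ∈ A` by (*) with `tr (M a_{k+1}) ≠ 0`, `U_{k+1} = {X ∈ U_k | tr (a_{k+1} X) = 0}` is strictly smaller, so of dimension `≤ 2 - k`;
if `U_k = 0` choose `a_{k+1} ∈ A` by (*) with `M = 1`. After three steps `U₃ = 0`.
-/

namespace Pool.Agent.Helper72.PF

open Matrix Module Pool.Agent.Helper72.TV Pool.Agent.Helper72.PT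

/-- polynomial functions of bounded degree -/
private def PFn {F : Type} [Field F] (m : ℕ) (f : SL2 F → F) : Prop :=
  ∃ p : MvPolynomial (Fin 2 × Fin 2) F, p.totalDegree ≤ m ∧ ∀ g : SL2 F,
    MvPolynomial.eval (fun ij => (g : Matrix (Fin 2) (Fin 2) F) ij.1 ij.2) p = f g

private theorem PFn.mono {F : Type} [Field F] {m n : ℕ} {f : SL2 F → F} (h : PFn m f)
    (hmn : m ≤ n) : PFn n f := by
  obtain ⟨p, h1, h2⟩ := h
  exact ⟨p, h1.trans hmn, h2⟩

private theorem PFn.const {F : Type} [Field F] (c : F) : PFn 0 (fun _ : SL2 F => c) :=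
  ⟨MvPolynomial.C c, by rw [MvPolynomial.totalDegree_C], fun g => by rw [MvPolynomial.eval_C]⟩

private theorem PFn.ent {F : Type} [Field F] (i j : Fin 2) :
    PFn 1 (fun g : SL2 F => (g : Matrix (Fin 2) (Fin 2) F) i j) :=
  ⟨MvPolynomial.X (i, j), by rw [MvPolynomial.totalDegree_X],
    fun g => by rw [MvPolynomial.eval_X]⟩

private theorem PFn.add {F : Type} [Field F] {m : ℕ} {f f' : SL2 F → F} (h : PFn m f)
    (h' : PFn m f') : PFn m (fun g => f g + f' g) := by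
  obtain ⟨p, h1, h2⟩ := h
  obtain ⟨q, h3, h4⟩ := h'
  exact ⟨p + q, (MvPolynomial.totalDegree_add _ _).trans (max_le h1 h3),
    fun g => by rw [map_add, h2, h4]⟩

private theorem PFn.mul {F : Type} [Field F] {m n : ℕ} {f f' : SL2 F → F} (h : PFn m f)
    (h' : PFn n f') : PFn (m + n) (fun g => f g * f' g) := by
  obtain ⟨p, h1, h2⟩ := h
  obtain ⟨q, h3, h4⟩ := h'
  exact ⟨p * q, (MvPolynomial.totalDegree_mul _ _).trans (add_le_add h1 h3),
    fun g => by rw [map_mul, h2, h4]⟩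

private theorem PFn.neg {F : Type} [Field F] {m : ℕ} {f : SL2 F → F} (h : PFn m f) :
    PFn m (fun g => -f g) := by
  have h1 := ((PFn.const (-1 : F)).mul h).mono (by omega : 0 + m ≤ m)
  obtain ⟨p, h2, h3⟩ := h1
  exact ⟨p, h2, fun g => by rw [h3]; ring⟩

/-- matrices of polynomial functions -/
private def PMx {F : Type} [Field F] (m : ℕ) (A : SL2 F → Matrix (Fin 2) (Fin 2) F) : Prop :=
  ∀ i j, PFn m (fun g => A g i j)

private theorem PMx.const {F : Type} [Field F] (M : Matrix (Fin 2) (Fin 2) F) :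
    PMx 0 (fun _ : SL2 F => M) := fun i j => PFn.const (M i j)

private theorem PMx.self {F : Type} [Field F] :
    PMx 1 (fun g : SL2 F => (g : Matrix (Fin 2) (Fin 2) F)) := fun i j => PFn.ent i j

private theorem PMx.inv {F : Type} [Field F] :
    PMx 1 (fun g : SL2 F => ((g⁻¹ : SL2 F) : Matrix (Fin 2) (Fin 2) F)) := by
  intro i j
  simp only [inv_coe]
  fin_cases i <;> fin_cases j
  · exact PFn.ent 1 1
  · exact (PFn.ent 0 1).neg
  · exact (PFn.ent 1 0).neg
  · exact PFn.ent 0 0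

private theorem PMx.mul {F : Type} [Field F] {m n : ℕ}
    {A B : SL2 F → Matrix (Fin 2) (Fin 2) F} (hA : PMx m A) (hB : PMx n B) :
    PMx (m + n) (fun g => A g * B g) := by
  intro i j
  have h := ((hA i 0).mul (hB 0 j)).add ((hA i 1).mul (hB 1 j))
  obtain ⟨p, h1, h2⟩ := h
  refine ⟨p, h1, fun g => (h2 g).trans ?_⟩
  show A g i 0 * B g 0 j + A g i 1 * B g 1 j = (A g * B g) i j
  rw [Matrix.mul_apply, Fin.sum_univ_two]

private theorem PMx.trace {F : Type} [Field F] {m : ℕ}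
    {A : SL2 F → Matrix (Fin 2) (Fin 2) F} (hA : PMx m A) : PFn m (fun g => (A g).trace) := by
  have h := (hA 0 0).add (hA 1 1)
  obtain ⟨p, h1, h2⟩ := h
  refine ⟨p, h1, fun g => (h2 g).trans ?_⟩
  show A g 0 0 + A g 1 1 = (A g).trace
  rw [Matrix.trace_fin_two]

private theorem pfn_tr {F : Type} [Field F] : PFn 1 (fun g : SL2 F => tr g) :=
  (PMx.self (F := F)).trace

private theorem pfn_comm {F : Type} [Field F] (b : SL2 F) :
    PFn 2 (fun g : SL2 F => tr (g * b * g⁻¹ * b⁻¹)) := by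
  have h := (((PMx.self.mul (PMx.const (b : Matrix (Fin 2) (Fin 2) F))).mul PMx.inv).mul
    (PMx.const ((b⁻¹ : SL2 F) : Matrix (Fin 2) (Fin 2) F))).trace
  obtain ⟨p, h1, h2⟩ := h
  refine ⟨p, h1, fun g => (h2 g).trans ?_⟩
  show ((g : Matrix (Fin 2) (Fin 2) F) * (b : Matrix (Fin 2) (Fin 2) F) *
    ((g⁻¹ : SL2 F) : Matrix (Fin 2) (Fin 2) F) *
    ((b⁻¹ : SL2 F) : Matrix (Fin 2) (Fin 2) F)).trace = tr (g * b * g⁻¹ * b⁻¹)
  unfold tr
  rw [Matrix.SpecialLinearGroup.coe_mul, Matrix.SpecialLinearGroup.coe_mul,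
    Matrix.SpecialLinearGroup.coe_mul]

private theorem sep_steps {F V ι : Type*} [Field F] [AddCommGroup V] [Module F V]
    [FiniteDimensional F V] (φ : ι → V →ₗ[F] F) (Q : ι → Prop)
    (hφ : ∀ x : V, x ≠ 0 → ∃ a, Q a ∧ φ a x ≠ 0) (x₀ : V) (hx₀ : x₀ ≠ 0) (k : ℕ) :
    ∀ U : Submodule F V, finrank F U ≤ k →
      ∃ a : Fin k → ι, (∀ i, Q (a i)) ∧ ∀ x ∈ U, (∀ i, φ (a i) x = 0) → x = 0 := by
  induction k with
  | zero =>
    intro U hU
    have h1 : U = ⊥ := Submodule.finrank_eq_zero.1 (Nat.le_zero.1 hU)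
    refine ⟨fun i => i.elim0, fun i => i.elim0, fun x hx _ => ?_⟩
    rw [h1] at hx
    exact (Submodule.mem_bot F).1 hx
  | succ k ih =>
    intro U hU
    by_cases hb : U = ⊥
    · obtain ⟨a, ha, _⟩ := hφ x₀ hx₀
      refine ⟨fun _ => a, fun _ => ha, fun x hx _ => ?_⟩
      rw [hb] at hx
      exact (Submodule.mem_bot F).1 hx
    · obtain ⟨y, hy, hy0⟩ := Submodule.exists_mem_ne_zero_of_ne_bot hb
      obtain ⟨a, ha, hay⟩ := hφ y hy0
      have hlt : U ⊓ LinearMap.ker (φ a) < U := by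
        refine lt_of_le_of_ne inf_le_left ?_
        intro he
        apply hay
        have h2 : y ∈ U ⊓ LinearMap.ker (φ a) := by
          rw [he]
          exact hy
        exact h2.2
      have h3 := Submodule.finrank_lt_finrank_of_lt hlt
      obtain ⟨a', ha', h4⟩ := ih (U ⊓ LinearMap.ker (φ a)) (by omega)
      refine ⟨Fin.cons a a', ?_, fun x hx hx2 => ?_⟩
      · intro i
        refine Fin.cases ?_ (fun i => ?_) i
        · exact ha
        · exact ha' i
      · refine h4 x ⟨hx, ?_⟩ fun i => ?_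
        · exact hx2 0
        · exact hx2 i.succ

theorem triple : ∃ N : ℕ, 1 ≤ N ∧ ∀ (F : Type) [Field F] [Finite F], 100 ≤ Nat.card F →
    ∀ S : Set (SL2 F), Subgroup.closure S = ⊤ →
    (∃ g ∈ Words S N, tr g ^ 2 ≠ 4) ∧
    ∃ A : Finset (SL2 F), (A : Set (SL2 F)) ⊆ Words S N ∧ A.card ≤ N ∧
      ∀ b : SL2 F, (b : Matrix (Fin 2) (Fin 2) F) ≠ 1 → (b : Matrix (Fin 2) (Fin 2) F) ≠ -1 →
      ∃ a : Fin 3 → SL2 F, (∀ i, a i ∈ A ∧ tr (a i) ≠ 0 ∧ tr (a i * b * (a i)⁻¹ * b⁻¹) ≠ 2) ∧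
        ∀ X : Matrix (Fin 2) (Fin 2) F, X.trace = 0 →
          (∀ i, ((a i : Matrix (Fin 2) (Fin 2) F) * X).trace = 0) → X = 0 := by

  obtain ⟨N, hN1, hN⟩ := escPoly 8
  refine ⟨N, hN1, ?_⟩
  intro F _ _ hF S hS
  obtain ⟨A, hA, hc, hesc⟩ := hN F S hS
  have hfn : ∀ f : SL2 F → F, PFn 8 f → (∃ g, f g ≠ 0) → ∃ a ∈ A, f a ≠ 0 := by
    intro f hf hg
    obtain ⟨p, h1, h2⟩ := hf
    obtain ⟨g, hg⟩ := hg
    obtain ⟨a, ha, ha2⟩ := hesc p h1 ⟨g, by rw [h2]; exact hg⟩
    exact ⟨a, ha, by rwa [h2] at ha2⟩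
  have h01 : ∀ c : F, ((uu (1 : F) : SL2 F) : Matrix (Fin 2) (Fin 2) F) ≠
      c • (1 : Matrix (Fin 2) (Fin 2) F) := by
    intro c hc
    have := congrFun (congrFun hc 0) 1
    rw [uu_coe] at this
    simp at this
  have hu1 : ((uu (1 : F) : SL2 F) : Matrix (Fin 2) (Fin 2) F) ≠ 1 := by
    have := h01 1
    rwa [one_smul] at this
  have hu2 : ((uu (1 : F) : SL2 F) : Matrix (Fin 2) (Fin 2) F) ≠ -1 := by
    have := h01 (-1)
    rwa [neg_smul, one_smul] at this
  constructor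
  · have hex : ∃ g : SL2 F, tr g * tr g + -4 ≠ 0 := by
      obtain ⟨g, _, _, _, hg⟩ := nonDeg hF (uu (1 : F)) hu1 hu2 1 one_ne_zero
      refine ⟨g, fun h => hg ?_⟩
      linear_combination h
    have hp : PFn 8 (fun g : SL2 F => tr g * tr g + -4) :=
      ((pfn_tr.mul pfn_tr).mono (by omega : 1 + 1 ≤ 8)).add
        ((PFn.const (-4 : F)).mono (by omega))
    obtain ⟨a, ha, ha2⟩ := hfn _ hp hex
    refine ⟨a, hA ha, fun h => ha2 ?_⟩
    linear_combination h
  · refine ⟨A, hA, hc, fun b hb1 hb2 => ?_⟩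
    have key : ∀ M : Matrix (Fin 2) (Fin 2) F, M ≠ 0 → ∃ a : SL2 F,
        (a ∈ A ∧ tr a ≠ 0 ∧ tr (a * b * a⁻¹ * b⁻¹) ≠ 2) ∧
          ((a : Matrix (Fin 2) (Fin 2) F) * M).trace ≠ 0 := by
      intro M hM
      have hex : ∃ g : SL2 F, (M * (g : Matrix (Fin 2) (Fin 2) F)).trace * tr g *
          (tr (g * b * g⁻¹ * b⁻¹) + -2) ≠ 0 := by
        obtain ⟨g, h1, h2, h3, _⟩ := nonDeg hF b hb1 hb2 M hM
        refine ⟨g, mul_ne_zero (mul_ne_zero h1 h2) fun h => h3 ?_⟩
        linear_combination h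
      have hp : PFn 8 (fun g : SL2 F => (M * (g : Matrix (Fin 2) (Fin 2) F)).trace * tr g *
          (tr (g * b * g⁻¹ * b⁻¹) + -2)) := by
        have h1 : PFn 1 (fun g : SL2 F => (M * (g : Matrix (Fin 2) (Fin 2) F)).trace) :=
          (((PMx.const M).mul PMx.self).trace).mono (by omega)
        exact ((h1.mul pfn_tr).mul ((pfn_comm b).add
          ((PFn.const (-2 : F)).mono (by omega)))).mono (by omega)
      obtain ⟨a, ha, ha2⟩ := hfn _ hp hex
      refine ⟨a, ⟨ha, ?_, ?_⟩, ?_⟩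
      · intro h
        apply ha2
        simp only [h, mul_zero, zero_mul]
      · intro h
        apply ha2
        simp only [h]
        ring
      · intro h
        apply ha2
        rw [Matrix.trace_mul_comm] at h
        simp only [h, zero_mul]
    let φ : SL2 F → Matrix (Fin 2) (Fin 2) F →ₗ[F] F := fun a =>
      (Matrix.traceLinearMap (Fin 2) F F).comp
        (LinearMap.mulLeft F (a : Matrix (Fin 2) (Fin 2) F))
    have hker : finrank F (LinearMap.ker (Matrix.traceLinearMap (Fin 2) F F)) ≤ 3 := by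
      have h1 : LinearMap.ker (Matrix.traceLinearMap (Fin 2) F F) ≠ ⊤ := by
        intro h
        have h2 : (!![1, 0; 0, 0] : Matrix (Fin 2) (Fin 2) F) ∈
            LinearMap.ker (Matrix.traceLinearMap (Fin 2) F F) := by
          rw [h]
          exact Submodule.mem_top
        rw [LinearMap.mem_ker, Matrix.traceLinearMap_apply, Matrix.trace_fin_two] at h2
        simp at h2
      have h3 := Submodule.finrank_lt h1
      have h4 : finrank F (Matrix (Fin 2) (Fin 2) F) = 4 := by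
        rw [Module.finrank_matrix]
        simp
      omega
    obtain ⟨a, ha, h5⟩ := sep_steps φ
      (fun a => a ∈ A ∧ tr a ≠ 0 ∧ tr (a * b * a⁻¹ * b⁻¹) ≠ 2) key 1 one_ne_zero 3 _ hker
    refine ⟨a, ha, fun X hX hX2 => h5 X ?_ fun i => ?_⟩
    · rw [LinearMap.mem_ker, Matrix.traceLinearMap_apply]
      exact hX
    · exact hX2 i


end Pool.Agent.Helper72.PF
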