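import Pool.Agent.Helper72.PF.Defs

/-! # PF-Coef

Coefficient calculus for words.

Plan. `co_eval`: induction on the word; the step uses, for `x = tr A` etc., `A² = x A - 1`, `A⁻¹ = x - A`, `B² = y B - 1`, `B⁻¹ = y - B`,
`B A = -A B + x B + y A + (z - x y)` and hence `A (A B) = x A B - B`, `B (A B) = A - x + z B` (check the matrix entries with
`det_eq A`, `det_eq B`, `inv_coe`, `tr_eq`; or derive them from the first relations).
`co_map`: induction, `fin_cases` on the letter and on the index.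
`pol_deg`: induction; in each step the new coefficients are `F`-linear combinations (`C (C x0)` has degree 0) of the old
coefficients, of `C X * old`, `X * old` and `C (C x0) * C X * old`; `Bivariate.swap` is a ring isomorphism exchanging `C X` and `X` and
fixing `C (C x0)`.
`tr_comm`: entries, `inv_coe`, `det_eq`, `linear_combination`.
`kap_eval`, `kap_map` are direct.
-/

namespace Pool.Agent.Helper72.PF

open Matrix Module Polynomial Pool.Agent.Helper72.TV Pool.Agent.Helper72.PT

section rel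

variable {L : Type*} [Field L]

private theorem rel_sq (A : SL2 L) :
    (A : Matrix (Fin 2) (Fin 2) L) * (A : Matrix (Fin 2) (Fin 2) L) =
      tr A • (A : Matrix (Fin 2) (Fin 2) L) - 1 := by
  have h := det_eq A
  rw [tr_eq]
  ext i j
  fin_cases i <;> fin_cases j
  · simp [Matrix.mul_apply, Fin.sum_univ_two]
    linear_combination (-1 : L) * h
  · simp [Matrix.mul_apply, Fin.sum_univ_two]
    ring
  · simp [Matrix.mul_apply, Fin.sum_univ_two]
    ring
  · simp [Matrix.mul_apply, Fin.sum_univ_two]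
    linear_combination (-1 : L) * h

private theorem rel_inv (A : SL2 L) :
    ((A⁻¹ : SL2 L) : Matrix (Fin 2) (Fin 2) L) =
      tr A • (1 : Matrix (Fin 2) (Fin 2) L) - (A : Matrix (Fin 2) (Fin 2) L) := by
  rw [inv_coe, tr_eq]
  ext i j
  fin_cases i <;> fin_cases j <;> simp

private theorem rel_BA (A B : SL2 L) :
    (B : Matrix (Fin 2) (Fin 2) L) * (A : Matrix (Fin 2) (Fin 2) L) =
      -((A : Matrix (Fin 2) (Fin 2) L) * (B : Matrix (Fin 2) (Fin 2) L)) +
        tr A • (B : Matrix (Fin 2) (Fin 2) L) + tr B • (A : Matrix (Fin 2) (Fin 2) L) +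
        (tr (A * B) - tr A * tr B) • (1 : Matrix (Fin 2) (Fin 2) L) := by
  rw [tr_eq, tr_eq, tr_eq, Matrix.SpecialLinearGroup.coe_mul]
  ext i j
  fin_cases i <;> fin_cases j <;> simp [Matrix.mul_apply, Fin.sum_univ_two] <;> ring

private theorem rel_BAB (A B : SL2 L) :
    (B : Matrix (Fin 2) (Fin 2) L) * ((A : Matrix (Fin 2) (Fin 2) L) *
      (B : Matrix (Fin 2) (Fin 2) L)) =
      (A : Matrix (Fin 2) (Fin 2) L) - tr A • (1 : Matrix (Fin 2) (Fin 2) L) +
        tr (A * B) • (B : Matrix (Fin 2) (Fin 2) L) := by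
  rw [← Matrix.mul_assoc, rel_BA]
  simp only [add_mul, neg_mul, smul_mul_assoc, one_mul, Matrix.mul_assoc, rel_sq, mul_sub,
    mul_smul_comm, mul_one]
  module

end rel

theorem co_eval {L : Type*} [Field L] (A B : SL2 L) (l : List (Fin 4)) :
    ((evw A B l : SL2 L) : Matrix (Fin 2) (Fin 2) L) =
      co (tr A) (tr B) (tr (A * B)) l 0 • (1 : Matrix (Fin 2) (Fin 2) L) +
      co (tr A) (tr B) (tr (A * B)) l 1 • (A : Matrix (Fin 2) (Fin 2) L) +
      co (tr A) (tr B) (tr (A * B)) l 2 • (B : Matrix (Fin 2) (Fin 2) L) +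
      co (tr A) (tr B) (tr (A * B)) l 3 • ((A * B : SL2 L) : Matrix (Fin 2) (Fin 2) L) := by
  induction l with
  | nil =>
    rw [evw_nil, co_nil, Matrix.SpecialLinearGroup.coe_one]
    simp
  | cons s l ih =>
    rw [evw_cons, co_cons, Matrix.SpecialLinearGroup.coe_mul, ih]
    generalize co (tr A) (tr B) (tr (A * B)) l = c
    rw [Matrix.SpecialLinearGroup.coe_mul A B]
    have hAA : (A : Matrix (Fin 2) (Fin 2) L) * ((A : Matrix (Fin 2) (Fin 2) L) *
        (B : Matrix (Fin 2) (Fin 2) L)) = tr A • ((A : Matrix (Fin 2) (Fin 2) L) *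
        (B : Matrix (Fin 2) (Fin 2) L)) - (B : Matrix (Fin 2) (Fin 2) L) := by
      rw [← Matrix.mul_assoc, rel_sq, sub_mul, smul_mul_assoc, one_mul]
    fin_cases s
    · change (A : Matrix (Fin 2) (Fin 2) L) * _ = _
      simp only [mul_add, mul_smul_comm, mul_one, hAA, rel_sq]
      simp only [step, Matrix.cons_val]
      module
    · change ((A⁻¹ : SL2 L) : Matrix (Fin 2) (Fin 2) L) * _ = _
      rw [rel_inv]
      simp only [sub_mul, smul_mul_assoc, one_mul, mul_add, mul_smul_comm, mul_one, hAA, rel_sq]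
      simp only [step, Matrix.cons_val]
      module
    · change (B : Matrix (Fin 2) (Fin 2) L) * _ = _
      simp only [mul_add, mul_smul_comm, mul_one, rel_BAB, rel_BA A B, rel_sq]
      simp only [step, Matrix.cons_val]
      module
    · change ((B⁻¹ : SL2 L) : Matrix (Fin 2) (Fin 2) L) * _ = _
      rw [rel_inv]
      simp only [sub_mul, smul_mul_assoc, one_mul, mul_add, mul_smul_comm, mul_one, rel_BAB,
        rel_BA A B, rel_sq]
      simp only [step, Matrix.cons_val]
      module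

theorem co_map {R R' : Type*} [CommRing R] [CommRing R'] (f : R →+* R') (x y z : R)
    (l : List (Fin 4)) (j : Fin 4) : f (co x y z l j) = co (f x) (f y) (f z) l j := by
  induction l generalizing j with
  | nil =>
    rw [co_nil, co_nil]
    fin_cases j <;> simp
  | cons s l ih =>
    rw [co_cons, co_cons]
    fin_cases s <;> fin_cases j <;> simp [step, ih]

private theorem co_deg {S : Type*} [CommRing S] (x y z : S[X]) (hx : x.natDegree ≤ 0)
    (hy : y.natDegree ≤ 1) (hz : z.natDegree ≤ 1) (l : List (Fin 4)) :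
    ∀ j, (co x y z l j).natDegree ≤ l.length := by
  induction l with
  | nil =>
    intro j
    rw [co_nil]
    fin_cases j <;> simp
  | cons s l ih =>
    intro j
    rw [co_cons, List.length_cons]
    generalize co x y z l = c at ih
    generalize l.length = k at ih
    -- calculus
    have hadd : ∀ {p q : S[X]} {n : ℕ}, p.natDegree ≤ n → q.natDegree ≤ n →
        (p + q).natDegree ≤ n := fun hp hq => natDegree_add_le_of_degree_le hp hq
    have hsub : ∀ {p q : S[X]} {n : ℕ}, p.natDegree ≤ n → q.natDegree ≤ n →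
        (p - q).natDegree ≤ n := fun hp hq =>
      (natDegree_sub_le_of_le hp hq).trans (le_of_eq (max_self _))
    have hneg : ∀ {p : S[X]} {n : ℕ}, p.natDegree ≤ n → (-p).natDegree ≤ n := fun hp => by
      rw [natDegree_neg]
      exact hp
    have hc : ∀ j, (c j).natDegree ≤ k + 1 := fun j => (ih j).trans (Nat.le_succ k)
    have hxc : ∀ j, (x * c j).natDegree ≤ k + 1 := fun j =>
      (natDegree_mul_le_of_le hx (ih j)).trans (by omega)
    have hyc : ∀ j, (y * c j).natDegree ≤ k + 1 := fun j =>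
      (natDegree_mul_le_of_le hy (ih j)).trans (by omega)
    have hzc : ∀ j, (z * c j).natDegree ≤ k + 1 := fun j =>
      (natDegree_mul_le_of_le hz (ih j)).trans (by omega)
    have hzx : (z - x * y).natDegree ≤ 1 :=
      hsub hz ((natDegree_mul_le_of_le hx hy).trans (by omega))
    have hw : (c 1 * (z - x * y)).natDegree ≤ k + 1 :=
      natDegree_mul_le_of_le (ih 1) hzx
    fin_cases s
    · fin_cases j
      · exact hneg (hc 1)
      · exact hadd (hc 0) (hxc 1)
      · exact hneg (hc 3)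
      · exact hadd (hc 2) (hxc 3)
    · fin_cases j
      · exact hadd (hxc 0) (hc 1)
      · exact hneg (hc 0)
      · exact hadd (hxc 2) (hc 3)
      · exact hneg (hc 2)
    · fin_cases j
      · exact hsub (hsub hw (hc 2)) (hxc 3)
      · exact hadd (hyc 1) (hc 3)
      · exact hadd (hadd (hadd (hc 0) (hxc 1)) (hyc 2)) (hzc 3)
      · exact hneg (hc 1)
    · fin_cases j
      · exact hsub (hyc 0) (hsub (hsub hw (hc 2)) (hxc 3))
      · exact hneg (hc 3)
      · exact hneg (hadd (hadd (hc 0) (hxc 1)) (hzc 3))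
      · exact hadd (hyc 3) (hc 1)

theorem pol_deg {F : Type*} [Field F] (x0 : F) (l : List (Fin 4)) (j : Fin 4) :
    (pol x0 l j).natDegree ≤ l.length ∧ (Bivariate.swap (pol x0 l j)).natDegree ≤ l.length := by
  constructor
  · unfold pol
    refine co_deg _ _ _ ?_ ?_ ?_ l j
    · rw [natDegree_C]
    · rw [natDegree_C]
      exact Nat.zero_le 1
    · exact natDegree_X_le
  · have h := co_map ((Bivariate.swap (R := F) : F[X][X] ≃ₐ[F] F[X][X]) : F[X][X] →+* F[X][X])
      (C (C x0)) (C X) X l j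
    have h1 : Bivariate.swap (pol x0 l j) = co (C (C x0)) X (C X) l j := by
      refine (show _ = _ from h).trans ?_
      congr 1
      · exact Bivariate.swap_C_C x0
      · exact Bivariate.swap_X
      · exact Bivariate.swap_Y
    rw [h1]
    refine co_deg _ _ _ ?_ ?_ ?_ l j
    · rw [natDegree_C]
    · exact natDegree_X_le
    · rw [natDegree_C]
      exact Nat.zero_le 1

theorem tr_comm {L : Type*} [Field L] (A B : SL2 L) :
    tr (A * B * A⁻¹ * B⁻¹) =
      tr A ^ 2 + tr B ^ 2 + tr (A * B) ^ 2 - tr A * tr B * tr (A * B) - 2 := by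
  have hA := det_eq A
  have hB := det_eq B
  rw [tr_eq, tr_eq A, tr_eq B, tr_eq (A * B)]
  simp only [Matrix.SpecialLinearGroup.coe_mul, inv_coe]
  simp only [Matrix.mul_apply, Fin.sum_univ_two, Matrix.of_apply, Matrix.cons_val',
    Matrix.cons_val_zero, Matrix.cons_val_one, Matrix.cons_val_fin_one]
  linear_combination (((A : Matrix (Fin 2) (Fin 2) L) 0 0 + (A : Matrix (Fin 2) (Fin 2) L) 1 1) ^ 2
    - 2) * hB + (((B : Matrix (Fin 2) (Fin 2) L) 0 0 + (B : Matrix (Fin 2) (Fin 2) L) 1 1) ^ 2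
    - 2 * ((B : Matrix (Fin 2) (Fin 2) L) 0 0 * (B : Matrix (Fin 2) (Fin 2) L) 1 1 -
      (B : Matrix (Fin 2) (Fin 2) L) 0 1 * (B : Matrix (Fin 2) (Fin 2) L) 1 0)) * hA

/-- coefficients are determined by the value if the commutator has trace `≠ 2` -/
theorem co_of_eq {L : Type*} [Field L] (A B : SL2 L) (h : tr (A * B * A⁻¹ * B⁻¹) ≠ 2)
    (l l' : List (Fin 4)) (he : evw A B l = evw A B l') (j : Fin 4) :
    co (tr A) (tr B) (tr (A * B)) l j = co (tr A) (tr B) (tr (A * B)) l' j := by
  have hA := det_eq A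
  have hB := det_eq B
  obtain ⟨a, ha⟩ : ∃ a, a = (A : Matrix (Fin 2) (Fin 2) L) 0 0 := ⟨_, rfl⟩
  obtain ⟨b, hb⟩ : ∃ b, b = (A : Matrix (Fin 2) (Fin 2) L) 0 1 := ⟨_, rfl⟩
  obtain ⟨c, hc⟩ : ∃ c, c = (A : Matrix (Fin 2) (Fin 2) L) 1 0 := ⟨_, rfl⟩
  obtain ⟨d, hd⟩ : ∃ d, d = (A : Matrix (Fin 2) (Fin 2) L) 1 1 := ⟨_, rfl⟩
  obtain ⟨e, he'⟩ : ∃ e, e = (B : Matrix (Fin 2) (Fin 2) L) 0 0 := ⟨_, rfl⟩
  obtain ⟨f, hf⟩ : ∃ f, f = (B : Matrix (Fin 2) (Fin 2) L) 0 1 := ⟨_, rfl⟩
  obtain ⟨g, hg⟩ : ∃ g, g = (B : Matrix (Fin 2) (Fin 2) L) 1 0 := ⟨_, rfl⟩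
  obtain ⟨k, hk⟩ : ∃ k, k = (B : Matrix (Fin 2) (Fin 2) L) 1 1 := ⟨_, rfl⟩
  have hev := congrArg (fun C : SL2 L => (C : Matrix (Fin 2) (Fin 2) L)) he
  beta_reduce at hev
  rw [co_eval, co_eval, Matrix.SpecialLinearGroup.coe_mul] at hev
  rw [tr_comm] at h
  have htz : tr (A * B) = (a * e + b * g) + (c * f + d * k) := by
    rw [tr_eq, Matrix.SpecialLinearGroup.coe_mul, ha, hb, hc, hd, he', hf, hg, hk]
    simp [Matrix.mul_apply, Fin.sum_univ_two]
  generalize co (tr A) (tr B) (tr (A * B)) l = u at hev ⊢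
  generalize co (tr A) (tr B) (tr (A * B)) l' = v at hev ⊢
  rw [htz, tr_eq A, tr_eq B, ← ha, ← hd, ← he', ← hk] at h
  rw [← ha, ← hb, ← hc, ← hd] at hA
  rw [← he', ← hf, ← hg, ← hk] at hB
  have e00 := congrFun (congrFun hev 0) 0
  have e01 := congrFun (congrFun hev 0) 1
  have e10 := congrFun (congrFun hev 1) 0
  have e11 := congrFun (congrFun hev 1) 1
  simp [Matrix.mul_apply, Fin.sum_univ_two, ← ha, ← hb, ← hc, ← hd, ← he', ← hf, ← hg, ← hk]
    at e00 e01 e10 e11
  let M : Matrix (Fin 4) (Fin 4) L := !![1, a, e, a * e + b * g; 0, b, f, a * f + b * k;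
    0, c, g, c * e + d * g; 1, d, k, c * f + d * k]
  have hdet : M.det = -((a + d) ^ 2 + (e + k) ^ 2 + ((a * e + b * g) + (c * f + d * k)) ^ 2 -
      (a + d) * (e + k) * ((a * e + b * g) + (c * f + d * k)) - 2 - 2) := by
    have h1 : M.det = -((a + d) ^ 2 * (e * k - f * g) + (e + k) ^ 2 * (a * d - b * c) +
        ((a * e + b * g) + (c * f + d * k)) ^ 2 -
        (a + d) * (e + k) * ((a * e + b * g) + (c * f + d * k)) -
        4 * ((a * d - b * c) * (e * k - f * g))) := by
      simp only [M]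
      rw [Matrix.det_succ_row_zero]
      simp [Fin.sum_univ_succ, Matrix.det_fin_three, Fin.succAbove, Matrix.submatrix]
      ring
    rw [h1, hA, hB]
    ring
  have hdet0 : M.det ≠ 0 := by
    rw [hdet]
    intro h0
    apply h
    linear_combination (-1 : L) * h0
  have hM : M.mulVec (fun j => u j - v j) = 0 := by
    funext i
    fin_cases i
    · simp [M, Matrix.mulVec, dotProduct, Fin.sum_univ_four]
      linear_combination e00
    · simp [M, Matrix.mulVec, dotProduct, Fin.sum_univ_four]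
      linear_combination e01
    · simp [M, Matrix.mulVec, dotProduct, Fin.sum_univ_four]
      linear_combination e10
    · simp [M, Matrix.mulVec, dotProduct, Fin.sum_univ_four]
      linear_combination e11
  have h0 := Matrix.eq_zero_of_mulVec_eq_zero hdet0 hM
  exact sub_eq_zero.1 (congrFun h0 j)

theorem pol_eval {F : Type*} [Field F] (x0 y0 z0 : F) (l : List (Fin 4)) (j : Fin 4) :
    (pol x0 l j).evalEval y0 z0 = co x0 y0 z0 l j := by
  have h := co_map (evalEvalRingHom y0 z0) (C (C x0)) (C X) X l j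
  refine (show _ = _ from h).trans ?_
  congr 1
  · simp
  · simp
  · simp

theorem kap_eval {F : Type*} [Field F] (x0 y0 z0 : F) :
    (kap x0).evalEval y0 z0 = x0 ^ 2 + y0 ^ 2 + z0 ^ 2 - x0 * y0 * z0 - 4 := by
  unfold kap
  simp [evalEval]

end Pool.Agent.Helper72.PF
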