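import Pool.Agent.Helper72.PT.Neumann
import Pool.Agent.Helper72.PT.EscS
import Pool.Agent.Helper72.PT.Descent
import Pool.Agent.Helper72.PT.FinalX2

/-! # PF-EscG

Escape for generating sets of `SL₂(F)`, inside `SL₂(K)`.

Plan. `f = SpecialLinearGroup.map (algebraMap F K)`; `closure (f '' S) = (closure S).map f` (`MonoidHom.map_closure`) is the image `H` of the
whole group, finite, `|H| = |SL₂(F)| ≥ |F| ≥ 100 > 48` (`ball_map`, `card_field_le_sl` in FinalX2). `neumann` and `escS` reduce to:
(h1) for `w ≠ 0` some `g ∈ H` has `om (act g w) w ≠ 0`: if `w 1 ≠ 0` take `uu 1` (`om (act (uu 1) w) w = (w 1)²`), otherwise `vv 1`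
  (`om = ± (w 0)²`).
(h2) for `om w w' ≠ 0` some `g ∈ H` does not preserve the pair of lines. Suppose all do. Consider `uu x`, `x ∈ F`, three different values
  of `x` (e.g. `0` and others): two of `uu x, uu y` act in the same way on the pair of lines, so `uu (x - y)`, `x ≠ y`, fixes both
  lines: `om (act (uu c) w) w = c (w 1)² = 0` and `c (w' 1)² = 0`, so `w 1 = w' 1 = 0`, against `om w w' ≠ 0`.
  (`om (act g w) w' = 0` and `om (act h w) w' = 0` imply `om (act (g⁻¹ * h) w) w = 0`: use `exists_smul_of_om`.)
-/

namespace Pool.Agent.Helper72.PF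

open Matrix Module Pool.Agent.Helper72.TV Pool.Agent.Helper72.PT

private theorem fm_apply {F K : Type} [Field F] [Field K] [Algebra F K] (g : SL2 F)
    (i j : Fin 2) :
    ((Matrix.SpecialLinearGroup.map (algebraMap F K) g : SL2 K) : Matrix (Fin 2) (Fin 2) K) i j =
      algebraMap F K ((g : Matrix (Fin 2) (Fin 2) F) i j) := by
  rw [Matrix.SpecialLinearGroup.map_apply_coe]
  rfl

private theorem fm_inj {F K : Type} [Field F] [Field K] [Algebra F K] :
    Function.Injective (Matrix.SpecialLinearGroup.map (n := Fin 2) (algebraMap F K)) := by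
  intro g h hgh
  apply Matrix.SpecialLinearGroup.ext
  intro i j
  apply (algebraMap F K).injective
  have h1 : ((Matrix.SpecialLinearGroup.map (algebraMap F K) g : SL2 K) :
      Matrix (Fin 2) (Fin 2) K) i j =
      ((Matrix.SpecialLinearGroup.map (algebraMap F K) h : SL2 K) :
      Matrix (Fin 2) (Fin 2) K) i j := by rw [hgh]
  rw [fm_apply, fm_apply] at h1
  exact h1

private theorem act_uu0 {F K : Type} [Field F] [Field K] [Algebra F K] (c : F) (w : Fin 2 → K) :
    act (Matrix.SpecialLinearGroup.map (algebraMap F K) (uu c) : SL2 K) w 0 =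
      w 0 + algebraMap F K c * w 1 := by
  rw [act_apply_zero, fm_apply, fm_apply, uu_coe]
  simp

private theorem act_uu1 {F K : Type} [Field F] [Field K] [Algebra F K] (c : F) (w : Fin 2 → K) :
    act (Matrix.SpecialLinearGroup.map (algebraMap F K) (uu c) : SL2 K) w 1 = w 1 := by
  rw [act_apply_one, fm_apply, fm_apply, uu_coe]
  simp

private theorem act_vv0 {F K : Type} [Field F] [Field K] [Algebra F K] (c : F) (w : Fin 2 → K) :
    act (Matrix.SpecialLinearGroup.map (algebraMap F K) (vv c) : SL2 K) w 0 = w 0 := by
  rw [act_apply_zero, fm_apply, fm_apply, vv_coe]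
  simp

private theorem act_vv1 {F K : Type} [Field F] [Field K] [Algebra F K] (c : F) (w : Fin 2 → K) :
    act (Matrix.SpecialLinearGroup.map (algebraMap F K) (vv c) : SL2 K) w 1 =
      algebraMap F K c * w 0 + w 1 := by
  rw [act_apply_one, fm_apply, fm_apply, vv_coe]
  simp

theorem escG {F K : Type} [Field F] [Finite F] [Field K] [Algebra F K] (hF : 100 ≤ Nat.card F)
    (S : Set (SL2 F)) (hS : Subgroup.closure S = ⊤) :
    Esc ((Matrix.SpecialLinearGroup.map (algebraMap F K)) '' S : Set (SL2 K)) 16 := by
  classical
  have hFt : Fintype F := Fintype.ofFinite F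
  have hfinG : Finite (SL2 F) := Finite.of_injective
    (fun g : SL2 F => (g : Matrix (Fin 2) (Fin 2) F)) Subtype.val_injective
  apply escS
  set f : SL2 F →* SL2 K := Matrix.SpecialLinearGroup.map (algebraMap F K) with hf
  have hcl : Subgroup.closure (f '' S) = f.range := by
    rw [← MonoidHom.map_closure, hS, ← MonoidHom.range_eq_map]
  rw [hcl]
  have hmem : ∀ g : SL2 F, f g ∈ f.range := fun g => ⟨g, rfl⟩
  have hfin : ((f.range : Subgroup (SL2 K)) : Set (SL2 K)).Finite := by
    rw [MonoidHom.coe_range]
    exact Set.finite_range f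
  have hcard : Nat.card f.range = Nat.card (SL2 F) :=
    (Nat.card_congr (MonoidHom.ofInjective (f := f) fm_inj).toEquiv).symm
  have hN : 48 < Nat.card f.range := by
    have h3 : Fintype.card F ≤ Nat.card (SL2 F) := card_field_le_sl
    rw [Nat.card_eq_fintype_card] at hF
    omega
  obtain ⟨c, hc0, hc1⟩ : ∃ c : F, c ≠ 0 ∧ c ≠ 1 := by
    by_contra hcon
    push Not at hcon
    have h3 : (Finset.univ : Finset F) ⊆ {0, 1} := by
      intro c _
      rw [Finset.mem_insert, Finset.mem_singleton]
      by_cases h4 : c = 0
      · exact Or.inl h4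
      · exact Or.inr (hcon c h4)
    have h5 := Finset.card_le_card h3
    have h6 : ({0, 1} : Finset F).card ≤ 2 := Finset.card_le_two
    rw [Finset.card_univ, ← Nat.card_eq_fintype_card] at h5
    omega
  refine neumann f.range hfin hN ?_ ?_
  · intro w hw
    by_cases hw1 : w 1 = 0
    · have hw0 : w 0 ≠ 0 := by
        intro h0
        apply hw
        ext i
        fin_cases i
        · exact h0
        · exact hw1
      refine ⟨f (vv 1), hmem _, ?_⟩
      unfold om
      rw [hf, act_vv0, act_vv1, map_one, hw1]
      intro h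
      apply hw0
      have h7 : w 0 * w 0 = 0 := by linear_combination -h
      exact mul_self_eq_zero.1 h7
    · refine ⟨f (uu 1), hmem _, ?_⟩
      unfold om
      rw [hf, act_uu0, act_uu1, map_one]
      intro h
      apply hw1
      have h7 : w 1 * w 1 = 0 := by linear_combination h
      exact mul_self_eq_zero.1 h7
  · intro w w' hww
    by_contra hcon
    push Not at hcon
    have key : ∀ c : F, c ≠ 0 → om w w' + algebraMap F K c * (w 1 * w' 1) = 0 := by
      intro c hc
      have hc' : algebraMap F K c ≠ 0 := by
        rw [Ne, FaithfulSMul.algebraMap_eq_zero_iff]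
        exact hc
      rcases hcon (f (uu c)) (hmem _) with ⟨h3, h4⟩ | ⟨h3, h4⟩
      · exfalso
        unfold om at h3 h4
        rw [hf, act_uu0, act_uu1] at h3 h4
        have h5 : algebraMap F K c * (w 1 * w 1) = 0 := by linear_combination h3
        have h6 : algebraMap F K c * (w' 1 * w' 1) = 0 := by linear_combination h4
        have h7 : w 1 = 0 := mul_self_eq_zero.1 ((mul_eq_zero.1 h5).resolve_left hc')
        have h8 : w' 1 = 0 := mul_self_eq_zero.1 ((mul_eq_zero.1 h6).resolve_left hc')
        apply hww
        unfold om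
        rw [h7, h8, mul_zero, zero_mul, sub_zero]
      · unfold om at h3 ⊢
        rw [hf, act_uu0, act_uu1] at h3
        linear_combination h3
    have k1 := key 1 one_ne_zero
    have kc := key c hc0
    rw [map_one] at k1
    have h9 : (algebraMap F K c - 1) * (w 1 * w' 1) = 0 := by linear_combination kc - k1
    have h10 : algebraMap F K c - 1 ≠ 0 := by
      rw [sub_ne_zero]
      intro h
      apply hc1
      apply (algebraMap F K).injective
      rw [h, map_one]
    have h11 := (mul_eq_zero.1 h9).resolve_left h10
    rw [h11, mul_zero, add_zero] at k1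
    exact hww k1

end Pool.Agent.Helper72.PF
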