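import Pool.Agent.Helper72.PF.Hyp

/-! # PF-Trip

One of the six types of test words is free as soon as one of the traces is large.

Plan. `Free A B i` with `evw_wd`: `evw A B (wd i l) = ev (evw A B (pw i true)) (evw A B (pw i false)) l`, and
`evw A B (pw i true)`, `evw A B (pw i false)` are (by `simp [evw, pw, lt]`): `i = 0: A, B A B⁻¹`; `1: A, B A⁻¹ B⁻¹`; `2: B, A B A⁻¹`;
`3: B, A B⁻¹ A⁻¹`; `4: A B, A A B A⁻¹`; `5: A B, A B⁻¹ A⁻¹ A⁻¹ = A (A B)⁻¹ A⁻¹`.
If `v (tr A) > 1`: `hyp` for `(A, B)` with `h1`, `h4`: types `0, 1`.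
If `v (tr B) > 1`: `hyp` for `(B, A)`: `B A B⁻¹ A⁻¹` is the inverse of `A B A⁻¹ B⁻¹`, same trace (`tr_inv`); `tr (B A) = tr (A B)`, use `h3`:
types `2, 3`.
If `v (tr (A B)) > 1`: `hyp` for `(A B, A)`: `(A B) A (A B)⁻¹ A⁻¹ = A (B A B⁻¹ A⁻¹) A⁻¹` has the trace of `B A B⁻¹ A⁻¹`;
`tr (A B A) = tr A * tr (A B) - tr B` (Cayley-Hamilton; entries and `det_eq`), so `tr A = 0` and `tr (A B A) = 0` would give
`tr B = 0`, against `h2`: types `4, 5`.
-/

namespace Pool.Agent.Helper72.PF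

open Matrix Module Pool.Agent.Helper72.TV Pool.Agent.Helper72.PT

private theorem free_of {L : Type*} [Field L] (A B : SL2 L) (i : Fin 6) (u w : SL2 L)
    (hu : evw A B (pw i true) = u) (hw : evw A B (pw i false) = w)
    (h : ∀ l l' : List Bool, l.length = l'.length → ev u w l = ev u w l' → l = l') :
    Free A B i := by
  intro l l' hl he
  rw [evw_wd, evw_wd, hu, hw] at he
  exact h l l' hl he

private theorem tr_aba {L : Type*} [Field L] (A B : SL2 L) :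
    tr (A * B * A) = tr A * tr (A * B) - tr B := by
  have hd := det_eq A
  rw [tr_eq, tr_eq, tr_eq, tr_eq, Matrix.SpecialLinearGroup.coe_mul,
    Matrix.SpecialLinearGroup.coe_mul]
  simp only [Matrix.mul_apply, Fin.sum_univ_two]
  linear_combination (-((B : Matrix (Fin 2) (Fin 2) L) 0 0 +
    (B : Matrix (Fin 2) (Fin 2) L) 1 1)) * hd

theorem trip {L : Type*} [Field L] [IsAlgClosed L] {Γ₀ : Type*}
    [LinearOrderedCommGroupWithZero Γ₀] (v : Valuation L Γ₀) (A B : SL2 L)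
    (hv : 1 < v (tr A) ∨ 1 < v (tr B) ∨ 1 < v (tr (A * B)))
    (h1 : tr (A * B * A⁻¹ * B⁻¹) ≠ 2) (h2 : ¬(tr A = 0 ∧ tr B = 0))
    (h3 : ¬(tr A = 0 ∧ tr (A * B) = 0)) (h4 : ¬(tr B = 0 ∧ tr (A * B) = 0)) :
    ∃ i : Fin 6, Free A B i := by

  rcases hv with hv | hv | hv
  · rcases hyp v A B hv h1 h4 with h | h
    · refine ⟨0, free_of A B 0 _ _ ?_ ?_ h⟩
      · show A * 1 = A
        group
      · show B * (A * (B⁻¹ * 1)) = B * A * B⁻¹
        group
    · refine ⟨1, free_of A B 1 _ _ ?_ ?_ h⟩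
      · show A * 1 = A
        group
      · show B * (A⁻¹ * (B⁻¹ * 1)) = B * A⁻¹ * B⁻¹
        group
  · have e1 : tr (B * A * B⁻¹ * A⁻¹) ≠ 2 := by
      have e : B * A * B⁻¹ * A⁻¹ = (A * B * A⁻¹ * B⁻¹)⁻¹ := by group
      rw [e, tr_inv]
      exact h1
    have e2 : ¬(tr A = 0 ∧ tr (B * A) = 0) := by
      rw [tr_mul_comm B A]
      exact h3
    rcases hyp v B A hv e1 e2 with h | h
    · refine ⟨2, free_of A B 2 _ _ ?_ ?_ h⟩
      · show B * 1 = B
        group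
      · show A * (B * (A⁻¹ * 1)) = A * B * A⁻¹
        group
    · refine ⟨3, free_of A B 3 _ _ ?_ ?_ h⟩
      · show B * 1 = B
        group
      · show A * (B⁻¹ * (A⁻¹ * 1)) = A * B⁻¹ * A⁻¹
        group
  · have e1 : tr (A * B * A * (A * B)⁻¹ * A⁻¹) ≠ 2 := by
      have e : A * B * A * (A * B)⁻¹ * A⁻¹ = A * (A * B * A⁻¹ * B⁻¹)⁻¹ * A⁻¹ := by group
      rw [e, tr_conj, tr_inv]
      exact h1
    have e2 : ¬(tr A = 0 ∧ tr (A * B * A) = 0) := by
      rintro ⟨ha, hb⟩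
      rw [tr_aba, ha, zero_mul, zero_sub, neg_eq_zero] at hb
      exact h2 ⟨ha, hb⟩
    rcases hyp v (A * B) A hv e1 e2 with h | h
    · refine ⟨4, free_of A B 4 _ _ ?_ ?_ h⟩
      · show A * (B * 1) = A * B
        group
      · show A * (A * (B * (A⁻¹ * 1))) = A * (A * B) * A⁻¹
        group
    · refine ⟨5, free_of A B 5 _ _ ?_ ?_ h⟩
      · show A * (B * 1) = A * B
        group
      · show A * (B⁻¹ * (A⁻¹ * (A⁻¹ * 1))) = A * (A * B)⁻¹ * A⁻¹
        group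


end Pool.Agent.Helper72.PF
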