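import Mathlib

/-! # PF-Val

A transcendental element is large for some valuation.

Plan. Let `R` be the integral closure of (the image of) `F` in `L` as a subring of `L`:
`R = (integralClosure F L).toSubring`; it is integrally closed in `L` (`integralClosure.isIntegrallyClosedIn...` /
`IsIntegrallyClosedIn`), and `y ∉ R` because `y` is transcendental over the field `F`.
`Subring.exists_le_valuationSubring_of_isIntegrallyClosedIn` (Mathlib/RingTheory/Valuation/LocalSubring.lean) gives a valuation
subring `V` with `y ∉ V`, i.e. `1 < V.valuation y` (`ValuationSubring.valuation_le_one_iff`). If the instance is hard to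
find: use directly `Ideal.image_subset_nonunits_valuationSubring` for the subring `F[y⁻¹]` and the ideal generated by `y⁻¹`
(proper since a relation `1 = y⁻¹ q(y⁻¹)` would make `y` algebraic).
-/

namespace Pool.Agent.Helper72.PF

theorem exists_val {F L : Type*} [Field F] [Field L] [Algebra F L] (y : L)
    (hy : Transcendental F y) : ∃ V : ValuationSubring L, 1 < V.valuation y := by
  have hyR : y ∉ (integralClosure F L).toSubring := by
    intro h
    have h1 : IsIntegral F y := h
    exact hy h1.isAlgebraic
  obtain ⟨V, -, hV⟩ := Subring.exists_le_valuationSubring_of_isIntegrallyClosedIn hyR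
  refine ⟨V, ?_⟩
  rw [← not_le, V.valuation_le_one_iff]
  exact hV

end Pool.Agent.Helper72.PF
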