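import Mathlib

/-! # PF-SwapDeg

Degrees of bivariate polynomials in both variables.

Plan. `coeff_swap`: both sides are additive in `p`; for `p = monomial n (monomial m r)` use `Bivariate.swap_monomial_monomial`
(induction `Polynomial.induction_on'` twice). `coeff_natDegree_le`: all coefficients of `p.coeff i` in degree `j > natDegree (swap p)`
vanish. `swap_ne`, `swap_mul`: `Bivariate.swap` is a ring isomorphism of domains. `swap_natDegree_le`: `(swap p).coeff j = 0` for
`j > D` by `coeff_swap`. `card_factors`: every irreducible `h` has `1 ≤ natDegree h + natDegree (swap h)` (otherwise `h = C (C c)` is a unit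
or zero), and both degrees are additive on the product of the multiset (`Polynomial.natDegree_multiset_prod` /
`Multiset.induction`), `normalizedFactors f` has product associated to `f`; associated polynomials have the same degrees.
-/

namespace Pool.Agent.Helper72.PF

open Polynomial

theorem coeff_swap {F : Type*} [Field F] (p : F[X][X]) (i j : ℕ) :
    ((Bivariate.swap p).coeff j).coeff i = (p.coeff i).coeff j := by
  induction p using Polynomial.induction_on' with
  | add p q hp hq => rw [map_add, coeff_add, coeff_add, coeff_add, coeff_add, hp, hq]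
  | monomial n a =>
    induction a using Polynomial.induction_on' with
    | add a b ha hb =>
      rw [map_add (monomial n), map_add, coeff_add, coeff_add, coeff_add, coeff_add, ha, hb]
    | monomial m r =>
      rw [Bivariate.swap_monomial_monomial, coeff_monomial, coeff_monomial]
      by_cases h1 : m = j <;> by_cases h2 : n = i <;> simp [h1, h2, coeff_monomial]

theorem coeff_natDegree_le {F : Type*} [Field F] (p : F[X][X]) (i : ℕ) :
    (p.coeff i).natDegree ≤ (Bivariate.swap p).natDegree := by
  rw [natDegree_le_iff_coeff_eq_zero]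
  intro j hj
  rw [← coeff_swap, coeff_eq_zero_of_natDegree_lt hj, coeff_zero]

theorem swap_natDegree_le {F : Type*} [Field F] (p : F[X][X]) (D : ℕ)
    (h : ∀ i, (p.coeff i).natDegree ≤ D) : (Bivariate.swap p).natDegree ≤ D := by
  rw [natDegree_le_iff_coeff_eq_zero]
  intro j hj
  ext i
  rw [coeff_swap, coeff_zero]
  exact coeff_eq_zero_of_natDegree_lt (lt_of_le_of_lt (h i) hj)

private theorem swap_ne {F : Type*} [Field F] {p : F[X][X]} (hp : p ≠ 0) :
    Bivariate.swap p ≠ 0 := by
  intro h
  exact hp ((map_eq_zero_iff _ (Bivariate.swap (R := F)).injective).1 h)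

/-- degrees of divisors -/
theorem dvd_deg {F : Type*} [Field F] {h p : F[X][X]} (hp : p ≠ 0) (hd : h ∣ p) :
    h.natDegree ≤ p.natDegree ∧ (Bivariate.swap h).natDegree ≤ (Bivariate.swap p).natDegree := by
  refine ⟨natDegree_le_of_dvd hd hp, ?_⟩
  obtain ⟨q, rfl⟩ := hd
  have hh : h ≠ 0 := left_ne_zero_of_mul hp
  have hq : q ≠ 0 := right_ne_zero_of_mul hp
  rw [map_mul, natDegree_mul (swap_ne hh) (swap_ne hq)]
  exact Nat.le_add_right _ _

/-- an irreducible polynomial is not constant in both variables -/
private theorem one_le {F : Type*} [Field F] {h : F[X][X]} (hirr : Irreducible h) :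
    1 ≤ h.natDegree + (Bivariate.swap h).natDegree := by
  by_contra hcon
  have h1 : h.natDegree = 0 := by omega
  have h2 : (Bivariate.swap h).natDegree = 0 := by omega
  obtain ⟨a, ha⟩ := natDegree_eq_zero.1 h1
  have h3 : (h.coeff 0).natDegree ≤ 0 := by
    have := coeff_natDegree_le h 0
    omega
  have h4 : a.natDegree = 0 := by
    rw [← ha, coeff_C_zero] at h3
    omega
  obtain ⟨c, hc⟩ := natDegree_eq_zero.1 h4
  have h5 : c ≠ 0 := by
    intro h0
    apply hirr.ne_zero
    rw [← ha, ← hc, h0, C_0, C_0]
  apply hirr.not_isUnit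
  rw [← ha, ← hc]
  exact ((isUnit_iff_ne_zero.2 h5).map C).map C

private theorem prod_deg {F : Type*} [Field F] (s : Multiset F[X][X])
    (hs : ∀ h ∈ s, Irreducible h) :
    s.prod ≠ 0 ∧ Multiset.card s ≤ s.prod.natDegree + (Bivariate.swap s.prod).natDegree := by
  induction s using Multiset.induction_on with
  | empty =>
    refine ⟨?_, ?_⟩
    · rw [Multiset.prod_zero]
      exact one_ne_zero
    · rw [Multiset.card_zero]
      exact Nat.zero_le _
  | cons a s ih =>
    obtain ⟨h1, h2⟩ := ih fun h hh => hs h (Multiset.mem_cons_of_mem hh)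
    have ha := hs a (Multiset.mem_cons_self a s)
    have h3 := one_le ha
    refine ⟨?_, ?_⟩
    · rw [Multiset.prod_cons]
      exact mul_ne_zero ha.ne_zero h1
    · rw [Multiset.card_cons, Multiset.prod_cons, natDegree_mul ha.ne_zero h1, map_mul,
        natDegree_mul (swap_ne ha.ne_zero) (swap_ne h1)]
      omega

open UniqueFactorizationMonoid in
theorem card_factors {F : Type*} [Field F] [DecidableEq F[X][X]] [NormalizationMonoid F[X][X]]
    (p : F[X][X]) (hp : p ≠ 0) :
    Multiset.card (normalizedFactors p) ≤ p.natDegree + (Bivariate.swap p).natDegree := by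
  obtain ⟨h1, h2⟩ := prod_deg (normalizedFactors p) fun h hh => irreducible_of_normalized_factor h hh
  have h3 : (normalizedFactors p).prod ∣ p := (prod_normalizedFactors hp).dvd
  obtain ⟨h4, h5⟩ := dvd_deg hp h3
  omega

end Pool.Agent.Helper72.PF
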