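import Pool.Agent.Helper72.PF.CountE
import Pool.Agent.Helper72.PF.Triple

/-! # PF-BadCount

The number of `b` for which the balls of `S ∪ {b}` grow slowly is small.

`N, A` from `triple`. Let `b` be in the set, `b ≠ ±1` (these are at most 2 elements). Take
the triple `a 0, a 1, a 2 ∈ A` of `b`. For each `i` and each type `k : Fin 6` there is a coincidence: lists `l ≠ l'` of length `n` with
`evw (a i) b (wd k l) = evw (a i) b (wd k l')`. Otherwise the `2^n` lists of length `n` give `2^n` different elements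
`evw (a i) b (wd k l)`, each a word of length `≤ 4 n` in `a i, b`, so a word of length `≤ 4 n N` in `insert b S` (`a i ∈ Words S N`, monotone in the
set, `b` is a letter, `1 ≤ N`), so `2^n ≤ ball (insert b S) (4 * N * n)`. By `co_of_eq` (with `tr (a i * b * (a i)⁻¹ * b⁻¹) ≠ 2`) the coefficients
agree: the point `(tr b, tr (a i * b))` lies in the set `E (tr (a i)) (T i)` of `countE`, where `T i` collects the six coincidences
(`kap ≠ 0` by `tr_comm`). The data: `a : Fin 3 → A` (at most `N³`), `T : Fin 3 → Fin 6 → (lists of length n)²` (at most `(2^(2n))^18 = 2^(36 n)`). For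
given data the map `b ↦ (i ↦ (tr b, tr (a i * b)))` is injective by the last property of the triple (`X = b - b'`), with values in the
product of three sets of size `≤ 1536 n⁴`.
-/

namespace Pool.Agent.Helper72.PF

open Matrix Module Polynomial Pool.Agent.Helper72.TV Pool.Agent.Helper72.PT

private theorem badc_set {G : Type*} [Group G] {S S' : Set G} (h : S ⊆ S') (L : ℕ) :
    Words S L ⊆ Words S' L := by
  rintro g ⟨l, hl, h1, h2⟩
  exact ⟨l, hl, fun x hx => (h1 x hx).imp (fun h' => h h') (fun h' => h h'), h2⟩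

private theorem badc_lt {F : Type*} [Field F] {S : Set (SL2 F)} {N : ℕ} (hN : 1 ≤ N)
    {a b : SL2 F} (ha : a ∈ Words S N) (s : Fin 4) : lt a b s ∈ Words (insert b S) N := by
  have h0 : a ∈ Words (insert b S) N := badc_set (Set.subset_insert b S) N ha
  have h2 : b ∈ Words (insert b S) N := words_mono hN (mem_words_one (Set.mem_insert b S))
  fin_cases s
  · exact h0
  · exact inv_mem_words h0
  · exact h2
  · exact inv_mem_words h2

private theorem badc_evw {F : Type*} [Field F] {S : Set (SL2 F)} {N : ℕ} (hN : 1 ≤ N)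
    {a b : SL2 F} (ha : a ∈ Words S N) (w : List (Fin 4)) {m : ℕ} (hw : w.length ≤ m) :
    evw a b w ∈ Words (insert b S) (m * N) := by
  have h := prod_mem_words (S := insert b S) (L := N) (w.map (lt a b)) (by
    intro x hx
    rw [List.mem_map] at hx
    obtain ⟨s, _, rfl⟩ := hx
    exact badc_lt hN ha s)
  rw [List.length_map] at h
  exact words_mono (Nat.mul_le_mul_right N hw) h

private theorem badc_coin {F : Type*} [Field F] [Finite F] {S : Set (SL2 F)} {N n : ℕ}
    (hN : 1 ≤ N) {a b : SL2 F} (ha : a ∈ Words S N) (hb : ball (insert b S) (4 * N * n) < 2 ^ n)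
    (k : Fin 6) : ∃ T : (Fin n → Bool) × (Fin n → Bool), T.1 ≠ T.2 ∧
      evw a b (wd k (List.ofFn T.1)) = evw a b (wd k (List.ofFn T.2)) := by
  by_contra hcon
  push Not at hcon
  have hinj : Function.Injective (fun l : Fin n → Bool => evw a b (wd k (List.ofFn l))) := by
    intro l l' h
    by_contra hne
    exact hcon (l, l') hne h
  have hsub : Set.range (fun l : Fin n → Bool => evw a b (wd k (List.ofFn l))) ⊆
      Words (insert b S) (4 * N * n) := by
    rintro g ⟨l, rfl⟩
    have h1 : (wd k (List.ofFn l)).length ≤ 4 * n := by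
      have := wd_length k (List.ofFn l)
      rwa [List.length_ofFn] at this
    have h2 := badc_evw hN ha (b := b) (wd k (List.ofFn l)) h1
    have h3 : 4 * n * N = 4 * N * n := by ring
    rwa [h3] at h2
  have h4 := Set.ncard_le_ncard hsub (Set.toFinite _)
  have h5 : (Set.range (fun l : Fin n → Bool => evw a b (wd k (List.ofFn l)))).ncard = 2 ^ n := by
    rw [Set.ncard_range_of_injective hinj, Nat.card_eq_fintype_card, Fintype.card_fun,
      Fintype.card_bool, Fintype.card_fin]
  rw [h5] at h4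
  exact absurd hb (not_lt.2 h4)

private theorem badc_pi {α : Type*} [Finite α] (E : Fin 3 → Set α) (M : ℕ)
    (hE : ∀ i, (E i).ncard ≤ M) : {f : Fin 3 → α | ∀ i, f i ∈ E i}.ncard ≤ M ^ 3 := by
  have h1 : {f : Fin 3 → α | ∀ i, f i ∈ E i}.ncard = Nat.card (∀ i, E i) := by
    rw [← Nat.card_coe_set_eq]
    exact Nat.card_congr (Equiv.subtypePiEquivPi (p := fun i a => a ∈ E i))
  rw [h1, Nat.card_pi]
  have h2 : ∏ i : Fin 3, Nat.card (E i) ≤ ∏ _i : Fin 3, M :=
    Finset.prod_le_prod' fun i _ => by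
      rw [Nat.card_coe_set_eq]
      exact hE i
  rwa [Finset.prod_const, Finset.card_univ, Fintype.card_fin] at h2

private theorem badc_central (F : Type*) [Field F] [Finite F] :
    {b : SL2 F | (b : Matrix (Fin 2) (Fin 2) F) = 1 ∨
      (b : Matrix (Fin 2) (Fin 2) F) = -1}.ncard ≤ 2 := by
  have h1 : {b : SL2 F | (b : Matrix (Fin 2) (Fin 2) F) = 1 ∨
      (b : Matrix (Fin 2) (Fin 2) F) = -1}.ncard ≤
      ({1, -1} : Set (Matrix (Fin 2) (Fin 2) F)).ncard := by
    refine Set.ncard_le_ncard_of_injOn (fun b : SL2 F => (b : Matrix (Fin 2) (Fin 2) F)) ?_ ?_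
    · intro b hb
      exact hb
    · intro b _ b' _ h
      exact Subtype.ext h
  refine h1.trans ?_
  refine (Set.ncard_insert_le _ _).trans ?_
  rw [Set.ncard_singleton]

/-- the data of a bad element -/
private def BadcP {F : Type*} [Field F] (n : ℕ) (b : SL2 F) (a : Fin 3 → SL2 F)
    (T : Fin 3 → Fin 6 → (Fin n → Bool) × (Fin n → Bool)) : Prop :=
  (∀ i, tr (a i) ≠ 0 ∧ tr (a i * b * (a i)⁻¹ * b⁻¹) ≠ 2) ∧
  (∀ X : Matrix (Fin 2) (Fin 2) F, X.trace = 0 →
    (∀ i, ((a i : Matrix (Fin 2) (Fin 2) F) * X).trace = 0) → X = 0) ∧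
  ∀ i k, (T i k).1 ≠ (T i k).2 ∧
    evw (a i) b (wd k (List.ofFn (T i k).1)) = evw (a i) b (wd k (List.ofFn (T i k).2))

private theorem badc_fiber {F : Type*} [Field F] [Finite F] {n : ℕ} (hn : 1 ≤ n)
    (a : Fin 3 → SL2 F) (T : Fin 3 → Fin 6 → (Fin n → Bool) × (Fin n → Bool)) :
    {b : SL2 F | BadcP n b a T}.ncard ≤ (1536 * n ^ 4) ^ 3 := by
  rcases Set.eq_empty_or_nonempty {b : SL2 F | BadcP n b a T} with h0 | ⟨b0, hb0⟩
  · rw [h0, Set.ncard_empty]
    exact Nat.zero_le _
  · obtain ⟨h1, h2, h3⟩ := hb0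
    let TT : Fin 3 → Fin 6 → List Bool × List Bool := fun i k =>
      (List.ofFn (T i k).1, List.ofFn (T i k).2)
    have hTT : ∀ i k, (TT i k).1.length = n ∧ (TT i k).2.length = n ∧ (TT i k).1 ≠ (TT i k).2 := by
      intro i k
      refine ⟨List.length_ofFn, List.length_ofFn, fun h => (h3 i k).1 (List.ofFn_injective h)⟩
    let E : Fin 3 → Set (F × F) := fun i => {p : F × F | tr (a i) ^ 2 + p.1 ^ 2 + p.2 ^ 2 -
      tr (a i) * p.1 * p.2 - 4 ≠ 0 ∧
      ∀ k j, co (tr (a i)) p.1 p.2 (wd k (TT i k).1) j = co (tr (a i)) p.1 p.2 (wd k (TT i k).2) j}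
    have hE : ∀ i, (E i).ncard ≤ 1536 * n ^ 4 := fun i =>
      countE (tr (a i)) (h1 i).1 n hn (TT i) (hTT i)
    refine le_trans ?_ (badc_pi E _ hE)
    refine Set.ncard_le_ncard_of_injOn (fun b : SL2 F => fun i => (tr b, tr (a i * b))) ?_ ?_
    · rintro b ⟨hb1, hb2, hb3⟩ i
      refine ⟨?_, ?_⟩
      · intro h
        apply (hb1 i).2
        rw [tr_comm]
        have h' : tr (a i) ^ 2 + tr b ^ 2 + tr (a i * b) ^ 2 - tr (a i) * tr b * tr (a i * b) - 4
          = 0 := h
        linear_combination h'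
      · intro k j
        exact co_of_eq (a i) b (hb1 i).2 _ _ (hb3 i k).2 j
    · intro b _ b' _ h
      have h4 : ∀ i, tr b = tr b' ∧ tr (a i * b) = tr (a i * b') := by
        intro i
        have := congrFun h i
        exact ⟨congrArg Prod.fst this, congrArg Prod.snd this⟩
      have h5 : (b : Matrix (Fin 2) (Fin 2) F) - (b' : Matrix (Fin 2) (Fin 2) F) = 0 := by
        apply h2
        · rw [Matrix.trace_sub]
          exact sub_eq_zero.2 (h4 0).1
        · intro i
          rw [Matrix.mul_sub, Matrix.trace_sub]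
          have h6 := (h4 i).2
          unfold tr at h6
          rw [Matrix.SpecialLinearGroup.coe_mul, Matrix.SpecialLinearGroup.coe_mul] at h6
          exact sub_eq_zero.2 h6
      exact Subtype.ext (sub_eq_zero.1 h5)

theorem badCount : ∃ N : ℕ, 1 ≤ N ∧ ∀ (F : Type) [Field F] [Finite F], 100 ≤ Nat.card F →
    ∀ S : Set (SL2 F), Subgroup.closure S = ⊤ →
    (∃ g ∈ Words S N, tr g ^ 2 ≠ 4) ∧
    ∀ n : ℕ, 1 ≤ n →
      {b : SL2 F | ball (insert b S) (4 * N * n) < 2 ^ n}.ncard ≤
        2 + N ^ 3 * 2 ^ (36 * n) * (1536 * n ^ 4) ^ 3 := by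
  obtain ⟨N, hN, hmain⟩ := triple
  refine ⟨N, hN, fun F _ _ hF S hS => ?_⟩
  obtain ⟨hg, A, hA, hcard, htrip⟩ := hmain F hF S hS
  refine ⟨hg, fun n hn => ?_⟩
  classical
  set Z : Set (SL2 F) := {b : SL2 F | (b : Matrix (Fin 2) (Fin 2) F) = 1 ∨
      (b : Matrix (Fin 2) (Fin 2) F) = -1} with hZ
  set Bd : Set (SL2 F) := {b : SL2 F | ball (insert b S) (4 * N * n) < 2 ^ n ∧ b ∉ Z} with hBd
  have hsub : {b : SL2 F | ball (insert b S) (4 * N * n) < 2 ^ n} ⊆ Z ∪ Bd := by
    intro b hb
    by_cases h : b ∈ Z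
    · exact Or.inl h
    · exact Or.inr ⟨hb, h⟩
  have h1 := Set.ncard_le_ncard hsub (Set.toFinite _)
  have h2 := Set.ncard_union_le Z Bd
  have h3 : Z.ncard ≤ 2 := badc_central F
  have h4 : Bd.ncard ≤ N ^ 3 * 2 ^ (36 * n) * (1536 * n ^ 4) ^ 3 := by
    have key : ∀ b : Bd, ∃ d : (Fin 3 → A) × (Fin 3 → Fin 6 → (Fin n → Bool) × (Fin n → Bool)),
        BadcP n b.1 (fun i => (d.1 i).1) d.2 := by
      rintro ⟨b, hb, hbZ⟩
      have hb1 : (b : Matrix (Fin 2) (Fin 2) F) ≠ 1 := fun h => hbZ (Or.inl h)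
      have hb2 : (b : Matrix (Fin 2) (Fin 2) F) ≠ -1 := fun h => hbZ (Or.inr h)
      obtain ⟨a, ha1, ha2⟩ := htrip b hb1 hb2
      have hco : ∀ i k, ∃ T : (Fin n → Bool) × (Fin n → Bool), T.1 ≠ T.2 ∧
          evw (a i) b (wd k (List.ofFn T.1)) = evw (a i) b (wd k (List.ofFn T.2)) :=
        fun i k => badc_coin hN (hA (ha1 i).1) hb k
      choose T hT using hco
      exact ⟨(fun i => ⟨a i, (ha1 i).1⟩, T), fun i => (ha1 i).2, ha2, hT⟩
    choose f hf using key
    have : Fintype Bd := Fintype.ofFinite _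
    have h5 := Finset.card_le_mul_card_image_of_maps_to (f := f)
      (s := (Finset.univ : Finset Bd)) (t := Finset.univ) (fun _ _ => Finset.mem_univ _)
      ((1536 * n ^ 4) ^ 3) (by
        intro d _
        refine le_trans ?_ (badc_fiber hn (fun i => (d.1 i).1) d.2)
        rw [← Set.ncard_coe_finset]
        refine Set.ncard_le_ncard_of_injOn (fun b : Bd => b.1) ?_ ?_
        · intro b hb
          rw [Finset.mem_coe, Finset.mem_filter] at hb
          have := hf b
          rw [hb.2] at this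
          exact this
        · intro b _ b' _ h
          exact Subtype.ext h)
    have h6 : Bd.ncard = (Finset.univ : Finset Bd).card := by
      rw [Finset.card_univ, ← Nat.card_eq_fintype_card, Nat.card_coe_set_eq]
    have h7 : (Finset.univ : Finset ((Fin 3 → A) ×
        (Fin 3 → Fin 6 → (Fin n → Bool) × (Fin n → Bool)))).card ≤ N ^ 3 * 2 ^ (36 * n) := by
      rw [Finset.card_univ, Fintype.card_prod]
      apply Nat.mul_le_mul
      · rw [Fintype.card_fun, Fintype.card_fin, Fintype.card_coe]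
        exact Nat.pow_le_pow_left hcard 3
      · apply le_of_eq
        simp only [Fintype.card_fun, Fintype.card_fin, Fintype.card_prod, Fintype.card_bool]
        rw [← pow_add, ← pow_mul, ← pow_mul]
        congr 1
        ring
    rw [h6]
    calc _ ≤ (1536 * n ^ 4) ^ 3 * _ := h5
      _ ≤ (1536 * n ^ 4) ^ 3 * (N ^ 3 * 2 ^ (36 * n)) := Nat.mul_le_mul_left _ h7
      _ = _ := by ring
  omega

end Pool.Agent.Helper72.PF
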