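import Pool.Agent.Helper72.PF.SwapDeg

/-! # PF-Bez

Weak form of the theorem of Bezout in the plane over a finite field.

Plan. `coeff_natDegree_le` bounds the degrees of the coefficients by `D`.
(a) `natDegree h = 0`: `h = C u`, `u` irreducible in `F[X]`. A common zero `(y0, z0)` has `u(y0) = 0`: at most `D` values `y0`
   (`Polynomial.card_roots'`). For such `y0` the polynomial `f(y0, ·) = f.map (evalRingHom y0)` is nonzero: otherwise `X - C y0` divides
   all coefficients of `f`, and `u` is associated to `X - C y0` (it is irreducible and has the root `y0`), so `C u ∣ f`. So at most `D`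
   values `z0`. Together `≤ D²`.
(b) `natDegree h ≥ 1`: `h` is primitive (`Irreducible.isPrimitive`). Over `K = FractionRing F[X]` the image of `h` is irreducible
   (`Polynomial.IsPrimitive.irreducible_iff_irreducible_map_fraction_map`) and does not divide the image of `f` (if it did, write
   `f = C (content f) * primPart f`; it divides `primPart f` over `K`, so `h ∣ primPart f` by
   `IsPrimitive.dvd_of_fraction_map_dvd_fraction_map`). So they are coprime, the resultant of the images is nonzero
   (`Polynomial.resultant_ne_zero` / `resultant_eq_zero_iff`), and so `R = resultant h f ≠ 0` (`resultant_map_map`; if `f` has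
   the same `natDegree` after the injective map everything matches). `natDegree R ≤ 2 D * D`: determinant of the Sylvester matrix of
   size `natDegree h + natDegree f ≤ 2 D` with entries of degree `≤ D` (`Matrix.det_apply`, `natDegree_sum_le_of_forall_le`,
   `natDegree_prod_le`). `Polynomial.exists_mul_add_mul_eq_C_resultant`: `h p + f q = C R`, so `R(y0) = 0` for a common zero: at most
   `2 D²` values `y0`. For each `y0` the polynomial `h(y0, ·)` is nonzero (otherwise `C (X - C y0) ∣ h` contradicts primitivity), so at
   most `D` values `z0`. Together `≤ 2 D³`.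
`D² ≤ 3 D³` and `2 D³ ≤ 3 D³`. If `f = 0` then `h ∣ f`, excluded.
-/

namespace Pool.Agent.Helper72.PF

open Polynomial

private theorem fib {F : Type*} [Finite F] (S : Set (F × F)) (Y : Finset F) (D : ℕ)
    (Z : F → Finset F) (h : ∀ p ∈ S, p.1 ∈ Y ∧ p.2 ∈ Z p.1)
    (hZ : ∀ x, (Z x).card ≤ D) : S.ncard ≤ Y.card * D := by
  classical
  have hsub : S ⊆ ↑(Y.biUnion fun x => (Z x).image fun z => (x, z)) := by
    intro p hp
    obtain ⟨h1, h2⟩ := h p hp
    simp only [Finset.coe_biUnion, Set.mem_iUnion, Finset.mem_coe, Finset.mem_image]
    exact ⟨p.1, h1, p.2, h2, rfl⟩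
  refine (Set.ncard_le_ncard hsub (Set.toFinite _)).trans ?_
  rw [Set.ncard_coe_finset]
  refine Finset.card_biUnion_le_card_mul _ _ _ fun x _ => ?_
  exact Finset.card_image_le.trans (hZ x)

private theorem card_roots_map_le {F : Type*} [Field F] [DecidableEq F] (f : F[X][X]) (x : F)
    (D : ℕ) (f1 : f.natDegree ≤ D) :
    ((f.map (evalRingHom x)).roots.toFinset).card ≤ D :=
  (Multiset.toFinset_card_le _).trans
    ((Polynomial.card_roots' _).trans (Polynomial.natDegree_map_le.trans f1))

private theorem C_dvd_of_map_eq_zero {F : Type*} [Field F] (f : F[X][X]) (x : F)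
    (h : f.map (evalRingHom x) = 0) : C (X - C x) ∣ f := by
  rw [Polynomial.C_dvd_iff_dvd_coeff]
  intro i
  rw [Polynomial.dvd_iff_isRoot, Polynomial.IsRoot.def]
  have := congrArg (fun p => Polynomial.coeff p i) h
  simpa using this

private theorem natDegree_resultant_le {F : Type*} [Field F] (h f : F[X][X]) (D : ℕ)
    (h1 : h.natDegree ≤ D) (h2 : (Bivariate.swap h).natDegree ≤ D) (f1 : f.natDegree ≤ D)
    (f2 : (Bivariate.swap f).natDegree ≤ D) :
    (Polynomial.resultant h f h.natDegree f.natDegree).natDegree ≤ 2 * D * D := by
  classical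
  rw [Polynomial.resultant, Matrix.det_apply]
  refine Polynomial.natDegree_sum_le_of_forall_le _ _ fun σ _ => ?_
  have hent : ∀ i j, (Polynomial.sylvester h f h.natDegree f.natDegree i j).natDegree ≤ D := by
    intro i j
    refine Fin.addCases (fun j => ?_) (fun j => ?_) j
    · simp only [Polynomial.sylvester, Matrix.of_apply, Fin.addCases_left]
      split_ifs
      · exact (coeff_natDegree_le f _).trans f2
      · simp
    · simp only [Polynomial.sylvester, Matrix.of_apply, Fin.addCases_right]
      split_ifs
      · exact (coeff_natDegree_le h _).trans h2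
      · simp
  have hprod : (∏ i, Polynomial.sylvester h f h.natDegree f.natDegree (σ i) i).natDegree ≤
      2 * D * D := by
    refine (Polynomial.natDegree_prod_le _ _).trans ?_
    refine (Finset.sum_le_sum fun i _ => hent (σ i) i).trans ?_
    rw [Finset.sum_const, Finset.card_univ, Fintype.card_fin, smul_eq_mul]
    exact Nat.mul_le_mul (by omega) le_rfl
  rcases Int.units_eq_one_or (Equiv.Perm.sign σ) with hs | hs
  · rw [hs, one_smul]
    exact hprod
  · rw [hs, Units.neg_smul, one_smul, Polynomial.natDegree_neg]
    exact hprod

theorem bez {F : Type*} [Field F] [Finite F] (h f : F[X][X]) (hh : Irreducible h)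
    (hf : ¬ h ∣ f) (D : ℕ) (hD : 1 ≤ D) (h1 : h.natDegree ≤ D)
    (h2 : (Bivariate.swap h).natDegree ≤ D) (f1 : f.natDegree ≤ D)
    (f2 : (Bivariate.swap f).natDegree ≤ D) :
    {p : F × F | h.evalEval p.1 p.2 = 0 ∧ f.evalEval p.1 p.2 = 0}.ncard ≤ 3 * D ^ 3 := by
  classical
  by_cases hd : h.natDegree = 0
  · obtain ⟨u, rfl⟩ := Polynomial.natDegree_eq_zero.1 hd
    have hu : Irreducible u := by
      refine ⟨fun hun => hh.not_isUnit (Polynomial.isUnit_C.2 hun), fun a b hab => ?_⟩
      rcases hh.isUnit_or_isUnit (a := C a) (b := C b) (by rw [hab, C_mul]) with hc | hc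
      · exact Or.inl (Polynomial.isUnit_C.1 hc)
      · exact Or.inr (Polynomial.isUnit_C.1 hc)
    have hcard := fib {p : F × F | (C u).evalEval p.1 p.2 = 0 ∧ f.evalEval p.1 p.2 = 0}
      u.roots.toFinset D (fun x => (f.map (evalRingHom x)).roots.toFinset) (by
        rintro ⟨x, y⟩ ⟨hx, hy⟩
        simp only at hx hy ⊢
        rw [evalEval_C] at hx
        rw [Multiset.mem_toFinset, Multiset.mem_toFinset, Polynomial.mem_roots hu.ne_zero,
          Polynomial.mem_roots', Polynomial.IsRoot.def, Polynomial.IsRoot.def]
        refine ⟨hx, fun h0 => hf ?_, ?_⟩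
        · have hdv : (X - C x) ∣ u := by
            rw [Polynomial.dvd_iff_isRoot]
            exact hx
          have has := (Polynomial.irreducible_X_sub_C x).associated_of_dvd hu hdv
          exact (_root_.map_dvd C has.dvd').trans (C_dvd_of_map_eq_zero f x h0)
        · rw [map_evalRingHom_eval]
          exact hy)
      (fun x => card_roots_map_le f x D f1)
    refine hcard.trans ?_
    have hY : u.roots.toFinset.card ≤ D := by
      refine (Multiset.toFinset_card_le _).trans ((Polynomial.card_roots' _).trans ?_)
      have := coeff_natDegree_le (C u) 0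
      rw [Polynomial.coeff_C_zero] at this
      exact this.trans h2
    calc u.roots.toFinset.card * D ≤ D * D := Nat.mul_le_mul hY le_rfl
      _ ≤ D * D * D := Nat.le_mul_of_pos_right _ hD
      _ ≤ 3 * D ^ 3 := by
        rw [pow_succ, pow_two]
        omega
  · have hprim : h.IsPrimitive := hh.isPrimitive hd
    have hinj : Function.Injective (algebraMap F[X] (FractionRing F[X])) :=
      IsFractionRing.injective _ _
    have hirr : Irreducible (h.map (algebraMap F[X] (FractionRing F[X]))) :=
      hprim.irreducible_iff_irreducible_map_fraction_map.1 hh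
    have hnd : ¬ h.map (algebraMap F[X] (FractionRing F[X])) ∣
        f.map (algebraMap F[X] (FractionRing F[X])) := fun hdv =>
      hf (hprim.dvd_of_fraction_map_dvd_fraction_map hdv)
    have hcop := hirr.coprime_iff_not_dvd.2 hnd
    have hres := Polynomial.resultant_ne_zero _ _ hcop
    rw [Polynomial.resultant_map_map, Polynomial.natDegree_map_eq_of_injective hinj,
      Polynomial.natDegree_map_eq_of_injective hinj] at hres
    have hR : Polynomial.resultant h f h.natDegree f.natDegree ≠ 0 := by
      intro h0
      rw [h0, map_zero] at hres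
      exact hres rfl
    obtain ⟨p, q, -, -, hpq⟩ := Polynomial.exists_mul_add_mul_eq_C_resultant h f
      (m := h.natDegree) (n := f.natDegree) le_rfl le_rfl (Or.inl hd)
    have hcard := fib {p : F × F | h.evalEval p.1 p.2 = 0 ∧ f.evalEval p.1 p.2 = 0}
      (Polynomial.resultant h f h.natDegree f.natDegree).roots.toFinset D
      (fun x => (h.map (evalRingHom x)).roots.toFinset) (by
        rintro ⟨x, y⟩ ⟨hx, hy⟩
        simp only at hx hy ⊢
        rw [Multiset.mem_toFinset, Multiset.mem_toFinset, Polynomial.mem_roots hR,
          Polynomial.mem_roots', Polynomial.IsRoot.def, Polynomial.IsRoot.def]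
        refine ⟨?_, fun h0 => ?_, ?_⟩
        · have := congrArg (fun r : F[X][X] => r.evalEval x y) hpq
          rw [evalEval_add, evalEval_mul, evalEval_mul, hx, hy, zero_mul, zero_mul, add_zero,
            evalEval_C] at this
          exact this.symm
        · exact Polynomial.not_isUnit_X_sub_C x (hprim _ (C_dvd_of_map_eq_zero h x h0))
        · rw [map_evalRingHom_eval]
          exact hx)
      (fun x => card_roots_map_le h x D h1)
    refine hcard.trans ?_
    have hY : (Polynomial.resultant h f h.natDegree f.natDegree).roots.toFinset.card ≤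
        2 * D * D := by
      refine (Multiset.toFinset_card_le _).trans ((Polynomial.card_roots' _).trans ?_)
      exact natDegree_resultant_le h f D h1 h2 f1 f2
    calc (Polynomial.resultant h f h.natDegree f.natDegree).roots.toFinset.card * D
        ≤ 2 * D * D * D := Nat.mul_le_mul hY le_rfl
      _ ≤ 3 * D ^ 3 := by nlinarith [pow_pos (show 0 < D by omega) 3]

end Pool.Agent.Helper72.PF
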