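import Pool.Agent.Helper72.PF.GenPt
import Pool.Agent.Helper72.PF.Bez

/-! # PF-CountE

For given coincidences `T i` of test words of type `i` (one for each of the six types), the number of points `(y, z)` at which
all of them hold is polynomial in the length.

Plan (all imported theorems may be still sorried). `f i j = pol x0 (wd i (T i).1) j - pol x0 (wd i (T i).2) j`; its degrees are
`≤ D = 4 n` (`pol_deg`, `wd_length`, swap is additive). `kap x0 ≠ 0` (its coefficient of degree 2 is 1), so `genPt` with `h = 0`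
gives `i₀, j₀` with `f₁ = f i₀ j₀ ≠ 0`. Let `P = (y, z)` be a point of the set: `(f i j).evalEval y z = 0` for all `i, j` (`pol_eval`) and
`(kap x0).evalEval y z ≠ 0` (`kap_eval`). `f₁` is associated to the product of `normalizedFactors f₁` (classical `DecidableEq`, a
`NormalizationMonoid` instance on `F[X][X]` is available or take `UniqueFactorizationMonoid.toNormalizationMonoid`; alternatively use
`factors`/`exists_factors`), so some irreducible factor `h` vanishes at `P`. `h ∤ kap x0`. For every irreducible `h ∤ kap x0` `genPt` gives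
`i` and, for the pair `T i`, an index `j` with `h ∤ f i j`; so `P` lies in `{h = 0 = f i j}`, which has at most `3 D³` points (`bez`; degrees
of `h` by `dvd_deg`). The set is contained in the union over the at most `2 D` factors (`card_factors`): `2 D * 3 D³ = 6 D⁴ = 1536 n⁴`.
-/

namespace Pool.Agent.Helper72.PF

open Matrix Module Polynomial Pool.Agent.Helper72.TV Pool.Agent.Helper72.PT

private theorem countE_kap_ne {F : Type*} [Field F] (x0 : F) : kap x0 ≠ 0 := by
  intro h
  have h1 : (kap x0).coeff 2 = 1 := by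
    have h2 : kap x0 = X ^ 2 + (C (-(C x0 * X)) * X + C (C x0 ^ 2 + X ^ 2 - 4)) := by
      unfold kap
      rw [C_neg, C_mul, C_sub, C_add, C_pow, C_pow, C_ofNat]
      ring
    rw [h2, coeff_add, coeff_add, coeff_X_pow, coeff_C_mul, coeff_X, coeff_C]
    norm_num
  rw [h, coeff_zero] at h1
  exact zero_ne_one h1

private theorem countE_deg {F : Type*} [Field F] (x0 : F) (n : ℕ) (i : Fin 6)
    (l l' : List Bool) (h : l.length = n) (h' : l'.length = n) (j : Fin 4) :
    (pol x0 (wd i l) j - pol x0 (wd i l') j).natDegree ≤ 4 * n ∧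
      (Bivariate.swap (pol x0 (wd i l) j - pol x0 (wd i l') j)).natDegree ≤ 4 * n := by
  have h1 := wd_length i l
  have h2 := wd_length i l'
  rw [h] at h1
  rw [h'] at h2
  have h3 := pol_deg x0 (wd i l) j
  have h4 := pol_deg x0 (wd i l') j
  constructor
  · exact (natDegree_sub_le_of_le (h3.1.trans h1) (h4.1.trans h2)).trans (max_self _).le
  · rw [map_sub]
    exact (natDegree_sub_le_of_le (h3.2.trans h1) (h4.2.trans h2)).trans (max_self _).le

open UniqueFactorizationMonoid in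
theorem countE {F : Type*} [Field F] [Finite F] (x0 : F) (hx : x0 ≠ 0) (n : ℕ) (hn : 1 ≤ n)
    (T : Fin 6 → List Bool × List Bool)
    (hT : ∀ i, (T i).1.length = n ∧ (T i).2.length = n ∧ (T i).1 ≠ (T i).2) :
    {p : F × F | x0 ^ 2 + p.1 ^ 2 + p.2 ^ 2 - x0 * p.1 * p.2 - 4 ≠ 0 ∧
      ∀ i j, co x0 p.1 p.2 (wd i (T i).1) j = co x0 p.1 p.2 (wd i (T i).2) j}.ncard ≤
      1536 * n ^ 4 := by
  classical
  let _ : NormalizationMonoid F[X][X] :=
    (UniqueFactorizationMonoid.strongNormalizationMonoid (α := F[X][X])).toNormalizationMonoid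
  set f : Fin 6 → Fin 4 → F[X][X] := fun i j =>
    pol x0 (wd i (T i).1) j - pol x0 (wd i (T i).2) j with hf
  have hfd : ∀ i j, (f i j).natDegree ≤ 4 * n ∧ (Bivariate.swap (f i j)).natDegree ≤ 4 * n :=
    fun i j => countE_deg x0 n i _ _ (hT i).1 (hT i).2.1 j
  have hgen : ∀ h : F[X][X], (Prime h ∨ h = 0) → ¬ h ∣ kap x0 → ∃ i j, ¬ h ∣ f i j := by
    intro h h1 h2
    obtain ⟨i, hi⟩ := genPt x0 hx h h1 h2
    obtain ⟨j, hj⟩ := hi (T i).1 (T i).2 ((hT i).1.trans (hT i).2.1.symm) (hT i).2.2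
    exact ⟨i, j, hj⟩
  obtain ⟨i₀, j₀, h0⟩ := hgen 0 (Or.inr rfl) (fun h => countE_kap_ne x0 (zero_dvd_iff.1 h))
  have hf0 : f i₀ j₀ ≠ 0 := fun h => h0 (zero_dvd_iff.2 h)
  -- points on a factor
  let Z : F[X][X] → Set (F × F) := fun h => {p | h.evalEval p.1 p.2 = 0 ∧
    (kap x0).evalEval p.1 p.2 ≠ 0 ∧ ∀ i j, (f i j).evalEval p.1 p.2 = 0}
  have hZ : ∀ h ∈ (normalizedFactors (f i₀ j₀)).toFinset, (Z h).ncard ≤ 3 * (4 * n) ^ 3 := by
    intro h hh
    have hmem : h ∈ normalizedFactors (f i₀ j₀) := Multiset.mem_toFinset.1 hh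
    have hirr : Irreducible h := irreducible_of_normalized_factor h hmem
    have hdvd : h ∣ f i₀ j₀ := dvd_of_mem_normalizedFactors hmem
    by_cases hk : h ∣ kap x0
    · have h1 : Z h = ∅ := by
        rw [Set.eq_empty_iff_forall_notMem]
        rintro p ⟨h2, h3, -⟩
        obtain ⟨g, hg⟩ := hk
        refine h3 ?_
        rw [hg, ← coe_evalEvalRingHom, map_mul, coe_evalEvalRingHom, h2, zero_mul]
      rw [h1, Set.ncard_empty]
      exact Nat.zero_le _
    · obtain ⟨i, j, hij⟩ := hgen h (Or.inl hirr.prime) hk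
      have h1 := dvd_deg hf0 hdvd
      have h2 := bez h (f i j) hirr hij (4 * n) (by omega) (h1.1.trans (hfd i₀ j₀).1)
        (h1.2.trans (hfd i₀ j₀).2) (hfd i j).1 (hfd i j).2
      refine le_trans (Set.ncard_le_ncard ?_ (Set.toFinite _)) h2
      rintro p ⟨h3, -, h4⟩
      exact ⟨h3, h4 i j⟩
  -- the set is covered
  have hcov : {p : F × F | x0 ^ 2 + p.1 ^ 2 + p.2 ^ 2 - x0 * p.1 * p.2 - 4 ≠ 0 ∧
      ∀ i j, co x0 p.1 p.2 (wd i (T i).1) j = co x0 p.1 p.2 (wd i (T i).2) j} ⊆
      ⋃ h ∈ (normalizedFactors (f i₀ j₀)).toFinset, Z h := by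
    rintro p ⟨h1, h2⟩
    have h3 : ∀ i j, (f i j).evalEval p.1 p.2 = 0 := by
      intro i j
      rw [hf]
      simp only
      rw [← coe_evalEvalRingHom, map_sub, coe_evalEvalRingHom, pol_eval, pol_eval, h2 i j, sub_self]
    have h4 : (kap x0).evalEval p.1 p.2 ≠ 0 := by
      rw [kap_eval]
      exact h1
    obtain ⟨u, hu⟩ := prod_normalizedFactors hf0
    have h5 : evalEvalRingHom p.1 p.2 (normalizedFactors (f i₀ j₀)).prod = 0 := by
      have h6 : evalEvalRingHom p.1 p.2 (f i₀ j₀) = 0 := h3 i₀ j₀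
      rw [← hu, map_mul] at h6
      rcases mul_eq_zero.1 h6 with h7 | h7
      · exact h7
      · exact absurd h7 ((u.isUnit.map (evalEvalRingHom p.1 p.2)).ne_zero)
    rw [map_multiset_prod, Multiset.prod_eq_zero_iff, Multiset.mem_map] at h5
    obtain ⟨h, hh, hh0⟩ := h5
    rw [Set.mem_iUnion₂]
    exact ⟨h, Multiset.mem_toFinset.2 hh, hh0, h4, h3⟩
  refine (Set.ncard_le_ncard hcov (Set.toFinite _)).trans ?_
  refine (Finset.set_ncard_biUnion_le _ _).trans ?_
  refine (Finset.sum_le_card_nsmul _ _ _ hZ).trans ?_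
  have h1 : (normalizedFactors (f i₀ j₀)).toFinset.card ≤ 8 * n := by
    refine (Multiset.toFinset_card_le _).trans ((card_factors _ hf0).trans ?_)
    have := (hfd i₀ j₀).1
    have := (hfd i₀ j₀).2
    omega
  rw [smul_eq_mul]
  calc (normalizedFactors (f i₀ j₀)).toFinset.card * (3 * (4 * n) ^ 3)
      ≤ 8 * n * (3 * (4 * n) ^ 3) := Nat.mul_le_mul_right _ h1
    _ = 1536 * n ^ 4 := by ring

end Pool.Agent.Helper72.PF
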