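import Pool.Agent.Helper72.PT.Defs

/-! # Words in two generators, test words and their coefficient polynomials: definitions -/

namespace Pool.Agent.Helper72.PF

open Matrix Module Polynomial Pool.Agent.Helper72.TV Pool.Agent.Helper72.PT

/-- value of a positive word in `u, v` (`true` is `u`, `false` is `v`) -/
def ev {G : Type*} [Group G] (u v : G) (l : List Bool) : G :=
  (l.map (fun s => bif s then u else v)).prod

/-- the letters `a, a⁻¹, b, b⁻¹` -/
def lt {G : Type*} [Group G] (a b : G) : Fin 4 → G
  | 0 => a
  | 1 => a⁻¹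
  | 2 => b
  | 3 => b⁻¹

/-- value of a word in the letters `a, a⁻¹, b, b⁻¹` -/
def evw {G : Type*} [Group G] (a b : G) (l : List (Fin 4)) : G := (l.map (lt a b)).prod

/-- the six pairs of test words: `(a, b a b⁻¹)`, `(a, b a⁻¹ b⁻¹)`, `(b, a b a⁻¹)`, `(b, a b⁻¹ a⁻¹)`,
`(a b, a (a b) a⁻¹)`, `(a b, a (a b)⁻¹ a⁻¹)` -/
def pw : Fin 6 → Bool → List (Fin 4)
  | 0 => fun s => bif s then [0] else [2, 0, 3]
  | 1 => fun s => bif s then [0] else [2, 1, 3]
  | 2 => fun s => bif s then [2] else [0, 2, 1]
  | 3 => fun s => bif s then [2] else [0, 3, 1]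
  | 4 => fun s => bif s then [0, 2] else [0, 0, 2, 1]
  | 5 => fun s => bif s then [0, 2] else [0, 3, 1, 1]

/-- substitution of the test words of type `i` in a positive word -/
def wd (i : Fin 6) (l : List Bool) : List (Fin 4) := (l.map (pw i)).flatten

/-- positive words of equal length in the test words of type `i` are determined by their value -/
def Free {G : Type*} [Group G] (a b : G) (i : Fin 6) : Prop :=
  ∀ l l' : List Bool, l.length = l'.length → evw a b (wd i l) = evw a b (wd i l') → l = l'

/-- left multiplication by the letters `a, a⁻¹, b, b⁻¹` in the basis `1, a, b, a b`, where `x, y, z` are the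
traces of `a, b, a b` -/
def step {R : Type*} [CommRing R] (x y z : R) (s : Fin 4) (c : Fin 4 → R) : Fin 4 → R :=
  match s with
  | 0 => ![-c 1, c 0 + x * c 1, -c 3, c 2 + x * c 3]
  | 1 => ![x * c 0 + c 1, -c 0, x * c 2 + c 3, -c 2]
  | 2 => ![c 1 * (z - x * y) - c 2 - x * c 3, y * c 1 + c 3, c 0 + x * c 1 + y * c 2 + z * c 3, -c 1]
  | 3 => ![y * c 0 - (c 1 * (z - x * y) - c 2 - x * c 3), -c 3, -(c 0 + x * c 1 + z * c 3),
      y * c 3 + c 1]

/-- coefficients of a word in the basis `1, a, b, a b` -/
def co {R : Type*} [CommRing R] (x y z : R) : List (Fin 4) → Fin 4 → R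
  | [] => ![1, 0, 0, 0]
  | s :: l => step x y z s (co x y z l)

/-- coefficients of a word as polynomials: `x` is a constant, `y = C X`, `z = X` -/
noncomputable def pol {F : Type*} [CommRing F] (x0 : F) (l : List (Fin 4)) : Fin 4 → F[X][X] :=
  co (C (C x0)) (C X) X l

/-- the polynomial `x² + y² + z² - x y z - 4` with `x = x0` constant, `y = C X`, `z = X` -/
noncomputable def kap {F : Type*} [CommRing F] (x0 : F) : F[X][X] :=
  C (C x0) ^ 2 + C X ^ 2 + X ^ 2 - C (C x0) * C X * X - 4

section

variable {G : Type*} [Group G]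

theorem ev_nil (u v : G) : ev u v [] = 1 := rfl

theorem ev_cons (u v : G) (s : Bool) (l : List Bool) :
    ev u v (s :: l) = (bif s then u else v) * ev u v l := by
  unfold ev
  rw [List.map_cons, List.prod_cons]

theorem evw_nil (a b : G) : evw a b [] = 1 := rfl

theorem evw_cons (a b : G) (s : Fin 4) (l : List (Fin 4)) :
    evw a b (s :: l) = lt a b s * evw a b l := by
  unfold evw
  rw [List.map_cons, List.prod_cons]

theorem evw_append (a b : G) (l l' : List (Fin 4)) :
    evw a b (l ++ l') = evw a b l * evw a b l' := by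
  unfold evw
  rw [List.map_append, List.prod_append]

theorem wd_nil (i : Fin 6) : wd i [] = [] := rfl

theorem wd_cons (i : Fin 6) (s : Bool) (l : List Bool) : wd i (s :: l) = pw i s ++ wd i l := by
  unfold wd
  rw [List.map_cons, List.flatten_cons]

theorem pw_length (i : Fin 6) (s : Bool) : (pw i s).length ≤ 4 := by
  fin_cases i <;> cases s <;> simp [pw]

theorem wd_length (i : Fin 6) (l : List Bool) : (wd i l).length ≤ 4 * l.length := by
  induction l with
  | nil => simp [wd_nil]
  | cons s l ih =>
    rw [wd_cons, List.length_append, List.length_cons]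
    have := pw_length i s
    omega

theorem evw_wd (a b : G) (i : Fin 6) (l : List Bool) :
    evw a b (wd i l) = ev (evw a b (pw i true)) (evw a b (pw i false)) l := by
  induction l with
  | nil => rfl
  | cons s l ih =>
    rw [wd_cons, evw_append, ih, ev_cons]
    cases s <;> rfl

end

theorem co_nil {R : Type*} [CommRing R] (x y z : R) : co x y z [] = ![1, 0, 0, 0] := rfl

theorem co_cons {R : Type*} [CommRing R] (x y z : R) (s : Fin 4) (l : List (Fin 4)) :
    co x y z (s :: l) = step x y z s (co x y z l) := rfl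

end Pool.Agent.Helper72.PF
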