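import Pool.Agent.Helper72.TV.Main
import Pool.Agent.Helper72.PT.Main2
import Pool.Agent.Helper72.PT.FinalX2
import Pool.Agent.Helper72.PT.Descent
import Pool.Agent.Helper72.PF.BadCount
import Pool.Agent.Helper72.PF.EscG

/-! # Adding almost any element to a generating set of `SL₂(F)` -/

namespace Pool.Agent.Helper72.PF

open Matrix Module Pool.Agent.Helper72.TV Pool.Agent.Helper72.PT

/-- numerical part: number of bad elements -/
private theorem num_bad (δ : ℝ) (hδ : 0 < δ) (N n q : ℕ) (hq : 1 ≤ q)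
    (hn : (n : ℝ) ≤ δ / (72 * Real.log 2) * Real.log q) :
    ((2 + N ^ 3 * 2 ^ (36 * n) * (1536 * n ^ 4) ^ 3 : ℕ) : ℝ) ≤
      (2 + N ^ 3 * 1536 ^ 3 * (δ / (72 * Real.log 2)) ^ 12 * (24 / δ) ^ 12) * (q : ℝ) ^ δ := by
  have hlog2 : 0 < Real.log 2 := Real.log_pos (by norm_num)
  have hq' : (1 : ℝ) ≤ q := by exact_mod_cast hq
  have hq0 : (0 : ℝ) < q := by linarith
  have hL : 0 ≤ Real.log q := Real.log_nonneg hq'
  have hqδ : (1 : ℝ) ≤ (q : ℝ) ^ δ := Real.one_le_rpow hq' hδ.le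
  have h1 : (2 : ℝ) ^ (36 * n) ≤ (q : ℝ) ^ (δ / 2) := by
    have e1 : (2 : ℝ) ^ (36 * n) = Real.exp (36 * n * Real.log 2) := by
      rw [← Real.rpow_natCast, Real.rpow_def_of_pos (by norm_num : (0 : ℝ) < 2)]
      congr 1
      push_cast
      ring
    rw [e1, Real.rpow_def_of_pos hq0]
    apply Real.exp_le_exp.mpr
    calc 36 * (n : ℝ) * Real.log 2 ≤
        36 * (δ / (72 * Real.log 2) * Real.log q) * Real.log 2 := by
          apply mul_le_mul_of_nonneg_right _ hlog2.le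
          linarith
      _ = Real.log q * (δ / 2) := by
          field_simp
          ring
  have h2 : ((n : ℝ)) ^ 12 ≤ (δ / (72 * Real.log 2)) ^ 12 * (24 / δ) ^ 12 * (q : ℝ) ^ (δ / 2) := by
    have e2 : Real.log q ≤ (q : ℝ) ^ (δ / 24) / (δ / 24) :=
      Real.log_le_rpow_div hq0.le (by positivity)
    have e3 : (n : ℝ) ≤ δ / (72 * Real.log 2) * ((q : ℝ) ^ (δ / 24) / (δ / 24)) :=
      hn.trans (mul_le_mul_of_nonneg_left e2 (by positivity))
    calc ((n : ℝ)) ^ 12 ≤ (δ / (72 * Real.log 2) * ((q : ℝ) ^ (δ / 24) / (δ / 24))) ^ 12 :=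
          pow_le_pow_left₀ (Nat.cast_nonneg _) e3 12
      _ = (δ / (72 * Real.log 2)) ^ 12 * (24 / δ) ^ 12 * ((q : ℝ) ^ (δ / 24)) ^ 12 := by
          rw [mul_pow, div_eq_mul_inv ((q : ℝ) ^ (δ / 24)), mul_pow, inv_div, mul_assoc, mul_comm
            (((q : ℝ) ^ (δ / 24)) ^ 12)]
      _ = (δ / (72 * Real.log 2)) ^ 12 * (24 / δ) ^ 12 * (q : ℝ) ^ (δ / 2) := by
          rw [← Real.rpow_natCast ((q : ℝ) ^ (δ / 24)), ← Real.rpow_mul hq0.le]
          congr 2
          push_cast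
          ring
  have h3 : (q : ℝ) ^ (δ / 2) * (q : ℝ) ^ (δ / 2) = (q : ℝ) ^ δ := by
    rw [← Real.rpow_add hq0]
    congr 1
    ring
  push_cast
  have h4 : (N : ℝ) ^ 3 * 2 ^ (36 * n) * (1536 * (n : ℝ) ^ 4) ^ 3 ≤
      N ^ 3 * 1536 ^ 3 * (δ / (72 * Real.log 2)) ^ 12 * (24 / δ) ^ 12 * (q : ℝ) ^ δ := by
    calc (N : ℝ) ^ 3 * 2 ^ (36 * n) * (1536 * (n : ℝ) ^ 4) ^ 3
        = (N ^ 3 * 1536 ^ 3) * (2 ^ (36 * n) * (n : ℝ) ^ 12) := by ring
      _ ≤ (N ^ 3 * 1536 ^ 3) * ((q : ℝ) ^ (δ / 2) *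
            ((δ / (72 * Real.log 2)) ^ 12 * (24 / δ) ^ 12 * (q : ℝ) ^ (δ / 2))) := by
          apply mul_le_mul_of_nonneg_left _ (by positivity)
          exact mul_le_mul h1 h2 (by positivity) (by positivity)
      _ = N ^ 3 * 1536 ^ 3 * (δ / (72 * Real.log 2)) ^ 12 * (24 / δ) ^ 12 *
            ((q : ℝ) ^ (δ / 2) * (q : ℝ) ^ (δ / 2)) := by ring
      _ = _ := by rw [h3]
  calc (2 : ℝ) + (N : ℝ) ^ 3 * 2 ^ (36 * n) * (1536 * (n : ℝ) ^ 4) ^ 3
      ≤ 2 * (q : ℝ) ^ δ + N ^ 3 * 1536 ^ 3 * (δ / (72 * Real.log 2)) ^ 12 * (24 / δ) ^ 12 *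
        (q : ℝ) ^ δ := by linarith
    _ = _ := by ring

/-- the diameter bound for a good `b` -/
private theorem good_b (C1 : ℕ) (hC1 : 16 ≤ C1)
    (hpt : ∀ (K : Type) [Field K] [IsAlgClosed K] (S : Set (SL2 K))
      (n₀ : ℕ), (Subgroup.closure S : Set (SL2 K)).Finite →
      C1 ≤ Nat.card (Subgroup.closure S) → Esc S 16 → C1 ≤ n₀ → C1 ≤ ball S n₀ →
      (∃ g ∈ Words S (2 * n₀), tr g ^ 2 ≠ 4) →
      ∃ (w : Fin 2 → K) (Eu : Subfield K), w ≠ 0 ∧ (Eu : Set K).Finite ∧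
        (∀ x : K, (∃ g ∈ Subgroup.closure S, (g : Matrix (Fin 2) (Fin 2) K) =
          1 + x • Matrix.vecMulVec w (hat w)) ↔ x ∈ Eu) ∧
        Nat.card (Subgroup.closure S) ≤ 96 ^ 3 * Nat.card Eu ^ 3 ∧
        ∃ n₁ : ℕ, (n₁ : ℝ) ≤ C1 * n₀ *
            (Real.log (Nat.card (Subgroup.closure S)) / Real.log (ball S n₀)) ^ 9 ∧
          ∀ x ∈ Eu, ∃ g ∈ Words S n₁, (g : Matrix (Fin 2) (Fin 2) K) =
            1 + x • Matrix.vecMulVec w (hat w))
    (C2 : ℕ) (hmain : ∀ (k K : Type) [Field k] [Fintype k] [Field K] [Algebra k K]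
      [FiniteDimensional k K], 5 ≤ Fintype.card k →
      ∀ (S : Set (Matrix.SpecialLinearGroup (Fin 2) K)), Subgroup.closure S = ⊤ →
      ∀ (v φ : Fin 2 → K), v ≠ 0 → φ ≠ 0 → φ ⬝ᵥ v = 0 → ∀ L : ℕ,
      (∀ x : k, ∃ g ∈ Words S L, (g : Matrix (Fin 2) (Fin 2) K) =
        1 + algebraMap k K x • Matrix.vecMulVec v φ) →
      ∀ g : Matrix.SpecialLinearGroup (Fin 2) K, g ∈ Words S (C2 * finrank k K * L))
    (N : ℕ) (hN : 1 ≤ N) (c : ℝ) (hc : 0 < c) (F : Type) [Field F] [Fintype F]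
    (hL1 : 2 * ((C1 : ℝ) + 2) ≤ c * Real.log (Fintype.card F)) (hL2 : 96 ^ 6 ≤ Fintype.card F)
    (S : Set (SL2 F)) (hS : Subgroup.closure S = ⊤) (hreg : ∃ g ∈ Words S N, tr g ^ 2 ≠ 4)
    (hball : 2 ^ ⌊c * Real.log (Fintype.card F)⌋₊ ≤
      ball S (4 * N * ⌊c * Real.log (Fintype.card F)⌋₊)) (g : SL2 F) :
    ∃ n : ℕ, g ∈ Words S n ∧ (n : ℝ) ≤
      (6 * C2 * (C1 * (4 * N * c) * (8 / (c * Real.log 2)) ^ 9)) *
        Real.log (Nat.card (SL2 F)) := by
  have hlog2 : 0 < Real.log 2 := Real.log_pos (by norm_num)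
  have hC1' : (16 : ℝ) ≤ C1 := by exact_mod_cast hC1
  set q := Fintype.card F with hq
  set n := ⌊c * Real.log q⌋₊ with hn
  have hq1 : 1 ≤ q := by
    have : 1 ≤ 96 ^ 6 := by norm_num
    omega
  have hq' : (1 : ℝ) ≤ q := by exact_mod_cast hq1
  have hq0 : (0 : ℝ) < q := by linarith
  have hLq : 0 < Real.log q := by
    by_contra hcon
    push Not at hcon
    nlinarith
  have hnle : (n : ℝ) ≤ c * Real.log q := Nat.floor_le (by positivity)
  have hnge : c * Real.log q / 2 ≤ n := by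
    have h1 : c * Real.log q < n + 1 := Nat.lt_floor_add_one _
    linarith
  have hnC : C1 ≤ n := by
    have h1 : (C1 : ℝ) ≤ n := by linarith
    exact_mod_cast h1
  have hn1 : 1 ≤ n := by omega
  have hfinG : Finite (SL2 F) := Finite.of_injective
    (fun g : SL2 F => (g : Matrix (Fin 2) (Fin 2) F)) Subtype.val_injective
  have hfin : (Subgroup.closure S : Set (SL2 F)).Finite := Set.toFinite _
  have hcardS : Nat.card (Subgroup.closure S) = Nat.card (SL2 F) := by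
    rw [hS]
    exact Subgroup.card_top
  have hballle : ball S (4 * N * n) ≤ Nat.card (SL2 F) := by
    rw [← hcardS]
    exact ball_le_card hfin _
  have hCn : C1 ≤ 2 ^ n := hnC.trans n.lt_two_pow_self.le
  -- over the algebraic closure
  set f : SL2 F →* SL2 (AlgebraicClosure F) :=
    Matrix.SpecialLinearGroup.map (algebraMap F (AlgebraicClosure F)) with hf
  have hbm := ball_map (K := AlgebraicClosure F) S (4 * N * n)
  rw [← hf] at hbm
  have hfin' : (Subgroup.closure (f '' S) : Set (SL2 (AlgebraicClosure F))).Finite := by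
    rw [← MonoidHom.map_closure, Subgroup.coe_map]
    exact hfin.image _
  have hesc : Esc (f '' S) 16 := escG (by
    rw [Nat.card_eq_fintype_card, ← hq]
    have : 100 ≤ 96 ^ 6 := by norm_num
    omega) S hS
  have hreg' : ∃ g ∈ Words (f '' S) (2 * (4 * N * n)), tr g ^ 2 ≠ 4 := by
    obtain ⟨g, hg, hg4⟩ := hreg
    have hN2 : N ≤ 2 * (4 * N * n) := by nlinarith
    have hfg : f g ∈ Words (f '' S) (2 * (4 * N * n) * 1) :=
      map_mem_words f (fun z hz => mem_words_one (Set.mem_image_of_mem f hz)) (words_mono hN2 hg)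
    rw [mul_one] at hfg
    refine ⟨f g, hfg, ?_⟩
    · have e1 : tr (f g) = algebraMap F (AlgebraicClosure F) (tr g) := by
        rw [tr_eq, tr_eq, map_add]
        rfl
      rw [e1, ← map_pow]
      intro h
      apply hg4
      apply (algebraMap F (AlgebraicClosure F)).injective
      rw [h, map_ofNat]
  have hn0 : C1 ≤ 4 * N * n := by nlinarith
  obtain ⟨w, Eu, hw, hEufin, hiff, hcard, n₁, hn₁, hwords⟩ := hpt (AlgebraicClosure F) (f '' S)
    (4 * N * n) hfin' (by rw [hbm.2, hcardS]; exact (hCn.trans hball).trans hballle) hesc hn0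
    (by rw [hbm.1]; exact hCn.trans hball) hreg'
  rw [hbm.2, hcardS] at hcard hn₁
  rw [hbm.1] at hn₁
  obtain ⟨v, ψ, EF, hv, hψ, hψv, hEFcard, hiffF, hwordsF⟩ := descent S w hw Eu hiff n₁ hwords
  have hGq : q ≤ Nat.card (SL2 F) := card_field_le_sl
  have hcard' : q ≤ 96 ^ 3 * Nat.card EF ^ 3 := by
    rw [hEFcard]
    exact hGq.trans hcard
  have hfinEF : Finite EF := Subtype.finite
  have hEF5 : 5 ≤ Nat.card EF := by
    by_contra hcon
    push Not at hcon
    have h6 : Nat.card EF ^ 3 ≤ 4 ^ 3 := Nat.pow_le_pow_left (by omega) 3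
    have h7 : 96 ^ 3 * Nat.card EF ^ 3 ≤ 96 ^ 3 * 4 ^ 3 := Nat.mul_le_mul_left _ h6
    have h8 : (96 : ℕ) ^ 3 * 4 ^ 3 < 96 ^ 6 := by norm_num
    omega
  have hfintypeEF : Fintype EF := Fintype.ofFinite EF
  have hcardEF : Fintype.card EF = Nat.card EF := (Nat.card_eq_fintype_card).symm
  have hlogEF : 0 < Real.log (Nat.card EF) :=
    Real.log_pos (by exact_mod_cast (by omega : 1 < Nat.card EF))
  have hrank : (finrank EF F : ℝ) * Real.log (Nat.card EF) = Real.log q := by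
    rw [← Real.log_pow]
    congr 1
    rw [hq, ← Nat.card_eq_fintype_card, Module.natCard_eq_pow_finrank (K := EF) (V := F)]
    push_cast
    rfl
  have hrank6 : (finrank EF F : ℝ) ≤ 6 := by
    have h1 : Real.log q ≤ 3 * Real.log 96 + 3 * Real.log (Nat.card EF) := by
      have h2 : (q : ℝ) ≤ 96 ^ 3 * (Nat.card EF : ℝ) ^ 3 := by exact_mod_cast hcard'
      have h3 := Real.log_le_log hq0 h2
      have h0 : (0 : ℝ) < Nat.card EF := by exact_mod_cast (by omega : 0 < Nat.card EF)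
      rw [Real.log_mul (by positivity) (by positivity), Real.log_pow, Real.log_pow] at h3
      push_cast at h3
      exact h3
    have h4 : 6 * Real.log 96 ≤ Real.log q := by
      have h5 : ((96 : ℝ) ^ 6) ≤ q := by exact_mod_cast hL2
      have h6 := Real.log_le_log (by positivity) h5
      rw [Real.log_pow] at h6
      push_cast at h6
      exact h6
    have h7 : Real.log q ≤ 6 * Real.log (Nat.card EF) := by linarith
    rw [← hrank] at h7
    exact le_of_mul_le_mul_right h7 hlogEF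
  have hwords2 : ∀ x : EF, ∃ g ∈ Words S n₁,
      (g : Matrix (Fin 2) (Fin 2) F) = 1 + algebraMap EF F x • Matrix.vecMulVec v ψ := by
    intro x
    exact hwordsF x x.2
  have hg := hmain EF F (by rw [hcardEF]; exact hEF5) S hS v ψ hv hψ hψv n₁ hwords2 g
  refine ⟨_, hg, ?_⟩
  -- the numbers
  have hlogGq : Real.log q ≤ Real.log (Nat.card (SL2 F)) :=
    Real.log_le_log hq0 (by exact_mod_cast hGq)
  have hlogG4 : Real.log (Nat.card (SL2 F)) ≤ 4 * Real.log q := by
    have h1 : (Nat.card (SL2 F) : ℝ) ≤ (q : ℝ) ^ 4 := by exact_mod_cast card_sl_le (F := F)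
    have h2 := Real.log_le_log (by
      have : 0 < Nat.card (SL2 F) := by omega
      exact_mod_cast this) h1
    rw [Real.log_pow] at h2
    push_cast at h2
    exact h2
  have hballlog : c * Real.log q / 2 * Real.log 2 ≤ Real.log (ball S (4 * N * n)) := by
    have h1 : ((2 : ℝ) ^ n) ≤ (ball S (4 * N * n) : ℝ) := by exact_mod_cast hball
    have h2 := Real.log_le_log (by positivity) h1
    rw [Real.log_pow] at h2
    exact (mul_le_mul_of_nonneg_right hnge hlog2.le).trans h2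
  have hballlog0 : 0 < Real.log (ball S (4 * N * n)) := lt_of_lt_of_le (by positivity) hballlog
  have hR : Real.log (Nat.card (SL2 F)) / Real.log (ball S (4 * N * n)) ≤
      8 / (c * Real.log 2) := by
    rw [div_le_div_iff₀ hballlog0 (by positivity)]
    calc Real.log (Nat.card (SL2 F)) * (c * Real.log 2) ≤
        4 * Real.log q * (c * Real.log 2) :=
          mul_le_mul_of_nonneg_right hlogG4 (by positivity)
      _ = 8 * (c * Real.log q / 2 * Real.log 2) := by ring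
      _ ≤ 8 * Real.log (ball S (4 * N * n)) := by linarith
  have hR0 : 0 ≤ Real.log (Nat.card (SL2 F)) / Real.log (ball S (4 * N * n)) :=
    div_nonneg (hLq.le.trans hlogGq) hballlog0.le
  have hn₁' : (n₁ : ℝ) ≤ C1 * (4 * N * c * Real.log q) * (8 / (c * Real.log 2)) ^ 9 := by
    refine hn₁.trans ?_
    push_cast
    have h1 : (4 : ℝ) * N * n ≤ 4 * N * c * Real.log q := by
      have h2 : (4 : ℝ) * N * n ≤ 4 * N * (c * Real.log q) :=
        mul_le_mul_of_nonneg_left hnle (by positivity)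
      linarith
    refine mul_le_mul ?_ (pow_le_pow_left₀ hR0 hR 9) (pow_nonneg hR0 9) (by positivity)
    exact mul_le_mul_of_nonneg_left h1 (by positivity)
  push_cast
  calc (C2 : ℝ) * (finrank EF F : ℝ) * (n₁ : ℝ)
      ≤ C2 * 6 * (C1 * (4 * N * c * Real.log q) * (8 / (c * Real.log 2)) ^ 9) := by
        refine mul_le_mul ?_ hn₁' (by positivity) (by positivity)
        exact mul_le_mul_of_nonneg_left hrank6 (by positivity)
    _ = (6 * C2 * (C1 * (4 * N * c) * (8 / (c * Real.log 2)) ^ 9)) * Real.log q := by ring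
    _ ≤ (6 * C2 * (C1 * (4 * N * c) * (8 / (c * Real.log 2)) ^ 9)) *
          Real.log (Nat.card (SL2 F)) :=
        mul_le_mul_of_nonneg_left hlogGq (by positivity)

theorem closure_insert_top {G : Type*} [Group G] {S : Set G} (hS : Subgroup.closure S = ⊤)
    (b : G) : Subgroup.closure (insert b S) = ⊤ := by
  rw [eq_top_iff, ← hS]
  exact Subgroup.closure_mono (Set.subset_insert b S)

theorem finalB (δ : ℝ) (hδ : 0 < δ) : ∃ C : ℝ, 0 < C ∧ ∀ (F : Type) [Field F] [Fintype F]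
    (S : Set (SL2 F)), Subgroup.closure S = ⊤ →
    (({b : SL2 F | ¬ ∀ g : SL2 F, ∃ n : ℕ, g ∈ Words (insert b S) n ∧
      (n : ℝ) ≤ C * Real.log (Nat.card (SL2 F))}.ncard : ℕ) : ℝ) ≤
      C * (Nat.card (SL2 F) : ℝ) ^ δ := by
  obtain ⟨C1, hC1, hpt⟩ := ptMain2
  obtain ⟨C2, hC2, hmain⟩ := TV.main 2 le_rfl
  obtain ⟨N, hN, hbad⟩ := badCount
  have hlog2 : 0 < Real.log 2 := Real.log_pos (by norm_num)
  set c : ℝ := δ / (72 * Real.log 2) with hc
  have hc0 : 0 < c := by positivity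
  set M : ℝ := 2 * ((C1 : ℝ) + 2) / c + 6 * Real.log 96 with hM
  have hC1' : (16 : ℝ) ≤ C1 := by exact_mod_cast hC1
  have hlog96 : 0 < Real.log 96 := Real.log_pos (by norm_num)
  set D1 : ℝ := Real.exp M ^ 4 with hD1
  set D2 : ℝ := 2 + N ^ 3 * 1536 ^ 3 * c ^ 12 * (24 / δ) ^ 12 with hD2
  set D3 : ℝ := 6 * C2 * (C1 * (4 * N * c) * (8 / (c * Real.log 2)) ^ 9) with hD3
  have hD1' : 0 < D1 := by positivity
  have hD2' : 0 < D2 := by positivity
  have hD3' : 0 ≤ D3 := by positivity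
  refine ⟨D1 + D2 + D3, by positivity, ?_⟩
  intro F _ _ S hS
  have hfinG : Finite (SL2 F) := Finite.of_injective
    (fun g : SL2 F => (g : Matrix (Fin 2) (Fin 2) F)) Subtype.val_injective
  set q := Fintype.card F with hq
  have hq2 : 2 ≤ q := Fintype.one_lt_card
  have hq0 : (0 : ℝ) < q := by exact_mod_cast (by omega : 0 < q)
  have hGq : q ≤ Nat.card (SL2 F) := card_field_le_sl
  have hG1 : (1 : ℝ) ≤ (Nat.card (SL2 F) : ℝ) := by
    exact_mod_cast (by omega : 1 ≤ Nat.card (SL2 F))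
  have hGδ : (1 : ℝ) ≤ (Nat.card (SL2 F) : ℝ) ^ δ := Real.one_le_rpow hG1 hδ.le
  have hlogG : 0 ≤ Real.log (Nat.card (SL2 F)) := Real.log_natCast_nonneg _
  by_cases hq' : M ≤ Real.log q
  · -- large fields
    have hL1 : 2 * ((C1 : ℝ) + 2) ≤ c * Real.log q := by
      have h1 : 2 * ((C1 : ℝ) + 2) / c ≤ Real.log q := by
        rw [hM] at hq'
        linarith
      rw [div_le_iff₀ hc0] at h1
      linarith
    have hL2 : 96 ^ 6 ≤ q := by
      have h1 : 6 * Real.log 96 ≤ Real.log q := by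
        have h2 : 0 ≤ 2 * ((C1 : ℝ) + 2) / c := by positivity
        rw [hM] at hq'
        linarith
      have h2 : Real.log ((96 : ℝ) ^ 6) ≤ Real.log q := by
        rw [Real.log_pow]
        push_cast
        exact h1
      have h3 := (Real.log_le_log_iff (by positivity) hq0).mp h2
      exact_mod_cast h3
    have hq100 : 100 ≤ Nat.card F := by
      rw [Nat.card_eq_fintype_card, ← hq]
      have : 100 ≤ 96 ^ 6 := by norm_num
      omega
    obtain ⟨hreg, hcount⟩ := hbad F hq100 S hS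
    set n := ⌊c * Real.log q⌋₊ with hn
    have hnle : (n : ℝ) ≤ c * Real.log q := Nat.floor_le (by
      have : 0 ≤ 2 * ((C1 : ℝ) + 2) := by positivity
      linarith)
    have hn1 : 1 ≤ n := by
      have h1 : c * Real.log q < n + 1 := Nat.lt_floor_add_one _
      have h2 : (0 : ℝ) < n := by linarith
      have h3 : 0 < n := by exact_mod_cast h2
      omega
    have hsub : {b : SL2 F | ¬ ∀ g : SL2 F, ∃ n : ℕ, g ∈ Words (insert b S) n ∧
        (n : ℝ) ≤ (D1 + D2 + D3) * Real.log (Nat.card (SL2 F))} ⊆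
        {b : SL2 F | ball (insert b S) (4 * N * n) < 2 ^ n} := by
      intro b hb
      by_contra hcon
      have hcon : 2 ^ n ≤ ball (insert b S) (4 * N * n) := not_lt.mp hcon
      apply hb
      intro g
      obtain ⟨m, hm, hle⟩ := good_b C1 hC1 hpt C2 hmain N hN c hc0 F hL1 hL2 (insert b S)
        (closure_insert_top hS b) (by
          obtain ⟨g, hg, hg4⟩ := hreg
          refine ⟨g, ?_, hg4⟩
          obtain ⟨l, hl, hl2, hl3⟩ := hg
          exact ⟨l, hl, fun x hx => (hl2 x hx).imp (Set.mem_insert_of_mem b)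
            (Set.mem_insert_of_mem b), hl3⟩) hcon g
      refine ⟨m, hm, hle.trans ?_⟩
      apply mul_le_mul_of_nonneg_right _ hlogG
      linarith
    have h1 := Set.ncard_le_ncard hsub (Set.toFinite _)
    have h2 : (({b : SL2 F | ¬ ∀ g : SL2 F, ∃ n : ℕ, g ∈ Words (insert b S) n ∧
        (n : ℝ) ≤ (D1 + D2 + D3) * Real.log (Nat.card (SL2 F))}.ncard : ℕ) : ℝ) ≤
        ((2 + N ^ 3 * 2 ^ (36 * n) * (1536 * n ^ 4) ^ 3 : ℕ) : ℝ) := by
      exact_mod_cast h1.trans (hcount n hn1)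
    have h3 := num_bad δ hδ N n q (by omega) hnle
    have h4 : (q : ℝ) ^ δ ≤ (Nat.card (SL2 F) : ℝ) ^ δ :=
      Real.rpow_le_rpow hq0.le (by exact_mod_cast hGq) hδ.le
    refine h2.trans (h3.trans ?_)
    calc _ ≤ D2 * (Nat.card (SL2 F) : ℝ) ^ δ := mul_le_mul_of_nonneg_left h4 hD2'.le
      _ ≤ (D1 + D2 + D3) * (Nat.card (SL2 F) : ℝ) ^ δ :=
        mul_le_mul_of_nonneg_right (by linarith) (by linarith)
  · -- small fields
    push Not at hq'
    have h1 : ({b : SL2 F | ¬ ∀ g : SL2 F, ∃ n : ℕ, g ∈ Words (insert b S) n ∧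
        (n : ℝ) ≤ (D1 + D2 + D3) * Real.log (Nat.card (SL2 F))}).ncard ≤ Nat.card (SL2 F) := by
      rw [← Set.ncard_univ]
      exact Set.ncard_le_ncard (Set.subset_univ _) (Set.toFinite _)
    have h2 : (Nat.card (SL2 F) : ℝ) ≤ D1 := by
      have h3 : (Nat.card (SL2 F) : ℝ) ≤ (q : ℝ) ^ 4 := by exact_mod_cast card_sl_le (F := F)
      have h4 : (q : ℝ) ≤ Real.exp M := by
        rw [← Real.exp_log hq0]
        exact Real.exp_le_exp.mpr hq'.le
      exact h3.trans (pow_le_pow_left₀ hq0.le h4 4)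
    calc (({b : SL2 F | ¬ ∀ g : SL2 F, ∃ n : ℕ, g ∈ Words (insert b S) n ∧
        (n : ℝ) ≤ (D1 + D2 + D3) * Real.log (Nat.card (SL2 F))}.ncard : ℕ) : ℝ)
        ≤ (Nat.card (SL2 F) : ℝ) := by exact_mod_cast h1
      _ ≤ D1 * 1 := by linarith
      _ ≤ (D1 + D2 + D3) * (Nat.card (SL2 F) : ℝ) ^ δ :=
        mul_le_mul (by linarith) hGδ (by norm_num) (by positivity)

end Pool.Agent.Helper72.PF
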