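import Pool.Agent.Helper72.PF.Trip
import Pool.Agent.Helper72.PF.Val
import Pool.Agent.Helper72.PF.Coef

/-! # PF-GenPt

At the generic point of an irreducible plane curve `h = 0` (or of the plane, `h = 0` the zero polynomial) not contained in
`kap = 0`, one of the six types of test words is free.

Plan (all imported theorems may be still sorried). `R = F[X][X]`, `I = Ideal.span {h}` is prime (`Ideal.span_singleton_prime` or `⊥`),
`R ⧸ I` is a domain, `K = FractionRing (R ⧸ I)`, `L = AlgebraicClosure K`, `φ : R →+* L` the natural map, `ker φ = I`, so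
`φ f = 0 ↔ h ∣ f`. `x = φ (C (C x0))`, `y = φ (C X)`, `z = φ X`. Make `L` an `F`-algebra by `φ ∘ C ∘ C` (use
`RingHom.toAlgebra`, or the existing instances).
(1) `y` or `z` is transcendental over `F`. Otherwise `p(y) = 0`, `q(z) = 0` with nonzero `p, q ∈ F[X]`: `h ∣ C p` and
   `h ∣ q.map C`. So `h ≠ 0`, `h` prime; from `h ∣ C p`, `p ≠ 0`: `natDegree h = 0`, `h = C u`; `C u ∣ q.map C` gives `u ∣ C (q.coeff k)` for all `k`
   (`Polynomial.C_dvd_iff_dvd_coeff`), some `q.coeff k ≠ 0`, so `u` and `h` are units: contradiction.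
(2) `exists_val`: a valuation `V.valuation` of `L` with `1 < v y` or `1 < v z`.
(3) `s ∈ L` with `s² - z s + 1 = 0`; `A = !![x, -1; 1, 0]`, `B = !![0, s; -s⁻¹, y]` in `SL₂(L)` have `tr A = x`, `tr B = y`, `tr (A B) = s⁻¹ + s = z`.
(4) `tr_comm`: `tr [A, B] - 2 = φ (kap x0) ≠ 0` as `h ∤ kap x0`. `x ≠ 0` since `x0 ≠ 0`, so `h2, h3` of `trip` hold. `h4`: `y = 0` and
   `z = 0` would contradict `1 < v y` or `1 < v z`.
(5) `trip` gives `i` with `Free A B i`. If `l ≠ l'` have equal length then `evw A B (wd i l) ≠ evw A B (wd i l')`, so by `co_eval` some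
   coefficient `co x y z (wd i l) j ≠ co x y z (wd i l') j`; by `co_map` these are the images under `φ` of `pol x0 (wd i l) j`,
   `pol x0 (wd i l') j`, so `h ∤` the difference.
-/

namespace Pool.Agent.Helper72.PF

open Matrix Module Polynomial Pool.Agent.Helper72.TV Pool.Agent.Helper72.PT

private theorem genPt_trans {F L : Type*} [Field F] [Field L] (h : F[X][X])
    (hh : Prime h ∨ h = 0) (φ : F[X][X] →+* L) (hφ : ∀ f, φ f = 0 ↔ h ∣ f)
    (p q : F[X]) (hp : p ≠ 0) (hq : q ≠ 0) (h1 : φ (C p) = 0) (h2 : φ (q.map C) = 0) : False := by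
  rw [hφ] at h1 h2
  have hCp : (C p : F[X][X]) ≠ 0 := C_ne_zero.2 hp
  rcases hh with hh | hh
  · have h3 : h.natDegree = 0 := by
      have := natDegree_le_of_dvd h1 hCp
      rw [natDegree_C] at this
      omega
    rw [eq_C_of_natDegree_eq_zero h3] at h2
    rw [C_dvd_iff_dvd_coeff] at h2
    have h4 : ∃ k, q.coeff k ≠ 0 := by
      by_contra hcon
      push Not at hcon
      exact hq (Polynomial.ext (by simpa using hcon))
    obtain ⟨k, hk⟩ := h4
    have h5 := h2 k
    rw [coeff_map] at h5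
    have h6 : IsUnit (h.coeff 0) := isUnit_of_dvd_unit h5 (isUnit_C.2 (isUnit_iff_ne_zero.2 hk))
    apply hh.not_isUnit
    rw [eq_C_of_natDegree_eq_zero h3]
    exact isUnit_C.2 h6
  · rw [hh, zero_dvd_iff] at h1
    exact hCp h1

private theorem genPt_aux {F L : Type*} [Field F] [Field L] [IsAlgClosed L] (x0 : F) (hx : x0 ≠ 0)
    (h : F[X][X]) (hh : Prime h ∨ h = 0) (hk : ¬ h ∣ kap x0)
    (φ : F[X][X] →+* L) (hφ : ∀ f, φ f = 0 ↔ h ∣ f) :
    ∃ i : Fin 6, ∀ l l' : List Bool, l.length = l'.length → l ≠ l' →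
      ∃ j : Fin 4, ¬ h ∣ (pol x0 (wd i l) j - pol x0 (wd i l') j) := by
  let _ : Algebra F L := (φ.comp ((C : F[X] →+* F[X][X]).comp (C : F →+* F[X]))).toAlgebra
  have hal : algebraMap F L = φ.comp ((C : F[X] →+* F[X][X]).comp (C : F →+* F[X])) := rfl
  obtain ⟨x, hxd⟩ : ∃ x : L, x = φ (C (C x0)) := ⟨_, rfl⟩
  obtain ⟨y, hyd⟩ : ∃ y : L, y = φ (C X) := ⟨_, rfl⟩
  obtain ⟨z, hzd⟩ : ∃ z : L, z = φ X := ⟨_, rfl⟩
  have hay : ∀ p : F[X], aeval y p = φ (C p) := by
    intro p
    have e1 : ((C : F[X] →+* F[X][X]).comp (C : F →+* F[X])) =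
        (C : F[X] →+* F[X][X]).comp (C : F →+* F[X]) := rfl
    rw [aeval_def, hal, hyd, ← hom_eval₂, ← hom_eval₂, eval₂_C_X]
  have haz : ∀ q : F[X], aeval z q = φ (q.map C) := by
    intro q
    rw [aeval_def, hal, hzd, ← hom_eval₂]
    rfl
  have hV : ∃ V : ValuationSubring L, 1 < V.valuation y ∨ 1 < V.valuation z := by
    by_cases hy : Transcendental F y
    · obtain ⟨V, hV⟩ := exists_val y hy
      exact ⟨V, Or.inl hV⟩
    · by_cases hz : Transcendental F z
      · obtain ⟨V, hV⟩ := exists_val z hz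
        exact ⟨V, Or.inr hV⟩
      · exfalso
        unfold Transcendental at hy hz
        rw [not_not] at hy hz
        obtain ⟨p, hp, hp1⟩ := hy
        obtain ⟨q, hq, hq1⟩ := hz
        rw [hay] at hp1
        rw [haz] at hq1
        exact genPt_trans h hh φ hφ p q hp hq hp1 hq1
  obtain ⟨V, hV⟩ := hV
  obtain ⟨s, hs⟩ : ∃ s : L, s ^ 2 - z * s + 1 = 0 := by
    have hdeg : (X ^ 2 - C z * X + 1 : L[X]).degree = 2 := by
      have e1 : (X ^ 2 - C z * X + 1 : L[X]) = C 1 * X ^ 2 + C (-z) * X + C 1 := by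
        simp
        ring
      rw [e1]
      exact degree_quadratic one_ne_zero
    obtain ⟨s, hs⟩ := IsAlgClosed.exists_root (X ^ 2 - C z * X + 1 : L[X]) (by
      rw [hdeg]
      norm_num)
    refine ⟨s, ?_⟩
    simpa [IsRoot] using hs
  have hs0 : s ≠ 0 := by
    intro h0
    rw [h0] at hs
    simp at hs
  have hsz : s⁻¹ + s = z := by
    field_simp
    linear_combination hs
  obtain ⟨A, hA⟩ : ∃ A : SL2 L, (A : Matrix (Fin 2) (Fin 2) L) = !![x, -1; 1, 0] :=
    ⟨⟨!![x, -1; 1, 0], by rw [det_fin_two_of]; ring⟩, rfl⟩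
  obtain ⟨B, hB⟩ : ∃ B : SL2 L, (B : Matrix (Fin 2) (Fin 2) L) = !![0, s; -s⁻¹, y] :=
    ⟨⟨!![0, s; -s⁻¹, y], by rw [det_fin_two_of]; field_simp; ring⟩, rfl⟩
  have htA : tr A = x := by
    unfold tr
    rw [hA, trace_fin_two_of]
    ring
  have htB : tr B = y := by
    unfold tr
    rw [hB, trace_fin_two_of]
    ring
  have htAB : tr (A * B) = z := by
    unfold tr
    have e1 : ((A * B : SL2 L) : Matrix (Fin 2) (Fin 2) L) = (A : Matrix (Fin 2) (Fin 2) L) * B :=
      rfl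
    rw [e1, hA, hB, trace_fin_two]
    simp only [Matrix.mul_apply, Fin.sum_univ_two, Matrix.of_apply, Matrix.cons_val', Matrix.cons_val_zero,
      Matrix.cons_val_one, Matrix.cons_val_fin_one]
    rw [← hsz]
    ring
  have hx0 : x ≠ 0 := by
    rw [hxd]
    have : φ (C (C x0)) = algebraMap F L x0 := rfl
    rw [this]
    exact (_root_.map_ne_zero _).2 hx
  have hyz : ¬ (y = 0 ∧ z = 0) := by
    rintro ⟨e1, e2⟩
    rw [e1, e2, map_zero] at hV
    simp at hV
  have hkap : φ (kap x0) = x ^ 2 + y ^ 2 + z ^ 2 - x * y * z - 4 := by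
    unfold kap
    rw [hxd, hyd, hzd]
    simp only [map_add, map_sub, map_mul, map_pow, map_ofNat]
  have hkn : φ (kap x0) ≠ 0 := fun h0 => hk ((hφ _).1 h0)
  have h1 : tr (A * B * A⁻¹ * B⁻¹) ≠ 2 := by
    rw [tr_comm, htA, htB, htAB]
    intro h0
    apply hkn
    rw [hkap]
    linear_combination h0
  obtain ⟨i, hi⟩ := trip V.valuation A B (by
      rw [htA, htB, htAB]
      exact Or.inr hV) h1 (by rw [htA]; exact fun h0 => hx0 h0.1)
    (by rw [htA]; exact fun h0 => hx0 h0.1) (by rw [htB, htAB]; exact hyz)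
  refine ⟨i, fun l l' hl hne => ?_⟩
  by_contra hcon
  push Not at hcon
  apply hne
  apply hi l l' hl
  have h2 : ∀ j, co x y z (wd i l) j = co x y z (wd i l') j := by
    intro j
    have h3 := (hφ _).2 (hcon j)
    rw [map_sub, sub_eq_zero] at h3
    unfold pol at h3
    rw [co_map, co_map, ← hxd, ← hyd, ← hzd] at h3
    exact h3
  apply Subtype.ext
  have e1 := co_eval A B (wd i l)
  have e2 := co_eval A B (wd i l')
  rw [htA, htB, htAB] at e1 e2
  rw [h2 0, h2 1, h2 2, h2 3] at e1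
  exact e1.trans e2.symm

private theorem genPt_aux2 {F Q : Type*} [Field F] [CommRing Q] [IsDomain Q] (x0 : F) (hx : x0 ≠ 0)
    (h : F[X][X]) (hh : Prime h ∨ h = 0) (hk : ¬ h ∣ kap x0)
    (ψ : F[X][X] →+* Q) (hψ : ∀ f, ψ f = 0 ↔ h ∣ f) :
    ∃ i : Fin 6, ∀ l l' : List Bool, l.length = l'.length → l ≠ l' →
      ∃ j : Fin 4, ¬ h ∣ (pol x0 (wd i l) j - pol x0 (wd i l') j) := by
  refine genPt_aux (L := AlgebraicClosure (FractionRing Q)) x0 hx h hh hk
    ((algebraMap (FractionRing Q) (AlgebraicClosure (FractionRing Q))).comp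
      ((algebraMap Q (FractionRing Q)).comp ψ)) fun f => ?_
  rw [RingHom.comp_apply, RingHom.comp_apply, _root_.map_eq_zero,
    map_eq_zero_iff _ (IsFractionRing.injective Q (FractionRing Q)), hψ]

theorem genPt {F : Type*} [Field F] (x0 : F) (hx : x0 ≠ 0) (h : F[X][X]) (hh : Prime h ∨ h = 0)
    (hk : ¬ h ∣ kap x0) :
    ∃ i : Fin 6, ∀ l l' : List Bool, l.length = l'.length → l ≠ l' →
      ∃ j : Fin 4, ¬ h ∣ (pol x0 (wd i l) j - pol x0 (wd i l') j) := by
  have hI : (Ideal.span {h} : Ideal F[X][X]).IsPrime := by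
    rcases hh with hh | hh
    · exact (Ideal.span_singleton_prime hh.ne_zero).2 hh
    · rw [hh, Ideal.span_singleton_zero]
      exact Ideal.isPrime_bot
  refine genPt_aux2 (Q := F[X][X] ⧸ (Ideal.span {h} : Ideal F[X][X])) x0 hx h hh hk
    (Ideal.Quotient.mk (Ideal.span {h} : Ideal F[X][X])) fun f => ?_
  rw [Ideal.Quotient.eq_zero_iff_mem, Ideal.mem_span_singleton]

end Pool.Agent.Helper72.PF
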