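import Pool.Agent.Helper72.PF.PingPong

/-! # PF-Hyp

Free semigroup from an element of large trace.

Plan. `L` algebraically closed, `t = tr A`, `|t| > 1`. Take a root `lam` of `X² - t X + 1`; `lam ≠ 0`, the other root is `lam⁻¹`,
`lam + lam⁻¹ = t`, so `max(|lam|, |lam⁻¹|) ≥ |t| > 1`; exchange such that `|lam| > 1`; `lam ≠ lam⁻¹`. Eigenvectors
(`Matrix.exists_mulVec_eq_zero_iff` for `A - lam`, `A - lam⁻¹`) give `P ∈ SL₂(L)` with `P⁻¹ A P = diag(lam, lam⁻¹)` (the determinant of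
the eigenvector matrix is nonzero; divide the first column by it). Replace `A, B` by `P⁻¹ A P`, `P⁻¹ B P =: B₀ = !![α, β; γ, δ]`
(the hypotheses and the conclusion are invariant under conjugation: `ev` of conjugates is the conjugate of `ev`).
`h1`: `tr (A B A⁻¹ B⁻¹) - 2 = -β γ (lam - lam⁻¹)²`, so `β γ ≠ 0`. `h2`: if `α = δ = 0` then `tr B = 0`, `tr (A B) = lam α + lam⁻¹ δ = 0`;
so not both `α, δ` are `0`.
If `v (α δ) ≥ 1`: `pingPong` for `B₀`. Otherwise `v (β γ) = v (α δ - 1) = 1`; let `J = !![0, 1; -1, 0]`, `B₁ = B₀ J = !![-β, α; -δ, γ]`,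
`v (B₁ 0 0 * B₁ 1 1) = v (β γ) ≥ 1`, `B₁ A B₁⁻¹ = B₀ A⁻¹ B₀⁻¹` (as `J A J⁻¹ = A⁻¹`): `pingPong` for `B₁`.
-/

namespace Pool.Agent.Helper72.PF

open Matrix Module Pool.Agent.Helper72.TV Pool.Agent.Helper72.PT

private theorem hyp_ev_conj {G : Type*} [Group G] (g u w : G) (l : List Bool) :
    ev (g * u * g⁻¹) (g * w * g⁻¹) l = g * ev u w l * g⁻¹ := by
  induction l with
  | nil => rw [ev_nil, ev_nil, mul_one, mul_inv_cancel]
  | cons s l ih =>
    rw [ev_cons, ev_cons, ih]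
    cases s
    · show g * w * g⁻¹ * (g * ev u w l * g⁻¹) = g * (w * ev u w l) * g⁻¹
      group
    · show g * u * g⁻¹ * (g * ev u w l * g⁻¹) = g * (u * ev u w l) * g⁻¹
      group

private theorem hyp_free_conj {G : Type*} [Group G] (g u w : G)
    (h : ∀ l l' : List Bool, l.length = l'.length →
      ev (g * u * g⁻¹) (g * w * g⁻¹) l = ev (g * u * g⁻¹) (g * w * g⁻¹) l' → l = l') :
    ∀ l l' : List Bool, l.length = l'.length → ev u w l = ev u w l' → l = l' := by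
  intro l l' hl he
  apply h l l' hl
  rw [hyp_ev_conj, hyp_ev_conj, he]

private theorem hyp_eig {L : Type*} [Field L] (A : SL2 L) (lam : L)
    (h : lam ^ 2 - tr A * lam + 1 = 0) : ∃ x : Fin 2 → L, x ≠ 0 ∧ act A x = lam • x := by
  have hdet : ((A : Matrix (Fin 2) (Fin 2) L) - lam • (1 : Matrix (Fin 2) (Fin 2) L)).det = 0 := by
    rw [Matrix.det_fin_two]
    have h1 := det_eq A
    rw [tr_eq] at h
    simp only [Matrix.sub_apply, Matrix.smul_apply, Matrix.one_apply_eq, smul_eq_mul, mul_one,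
      Matrix.one_apply_ne (show (0 : Fin 2) ≠ 1 by decide),
      Matrix.one_apply_ne (show (1 : Fin 2) ≠ 0 by decide), mul_zero, sub_zero]
    linear_combination h + h1
  obtain ⟨x, hx, hx2⟩ := Matrix.exists_mulVec_eq_zero_iff.2 hdet
  refine ⟨x, hx, ?_⟩
  rw [Matrix.sub_mulVec, Matrix.smul_mulVec, Matrix.one_mulVec] at hx2
  exact sub_eq_zero.1 hx2

/-- the diagonal element -/
private def hypD {L : Type*} [Field L] (lam : L) (h : lam ≠ 0) : SL2 L :=
  ⟨!![lam, 0; 0, lam⁻¹], by rw [Matrix.det_fin_two_of]; simp [h]⟩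

private theorem hyp_diag {L : Type*} [Field L] (A : SL2 L) (lam : L) (h0 : lam ≠ 0)
    (h : lam ^ 2 - tr A * lam + 1 = 0) (hne : lam ≠ lam⁻¹) :
    ∃ g : SL2 L, g * A * g⁻¹ = hypD lam h0 := by
  obtain ⟨x, hx, hx2⟩ := hyp_eig A lam h
  have h' : lam⁻¹ ^ 2 - tr A * lam⁻¹ + 1 = 0 := by
    have e : lam⁻¹ ^ 2 - tr A * lam⁻¹ + 1 = lam⁻¹ ^ 2 * (lam ^ 2 - tr A * lam + 1) := by
      field_simp
      ring
    rw [e, h, mul_zero]
  obtain ⟨y, hy, hy2⟩ := hyp_eig A lam⁻¹ h'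
  have hD : om x y ≠ 0 := by
    intro hom
    obtain ⟨c, hc⟩ := exists_smul_of_om hy hom
    have h1 : act A x = lam⁻¹ • x := by
      rw [hc, act_smul, hy2, smul_comm]
    rw [hx2] at h1
    have h2 : (lam - lam⁻¹) • x = 0 := by
      rw [sub_smul, h1, sub_self]
    rcases smul_eq_zero.1 h2 with h3 | h3
    · exact hne (sub_eq_zero.1 h3)
    · exact hx h3
  have hD' : x 0 * y 1 - x 1 * y 0 ≠ 0 := hD
  set D := om x y with hDd
  have hDe : D = x 0 * y 1 - x 1 * y 0 := rfl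
  have hdet : (!![x 0 / D, y 0; x 1 / D, y 1] : Matrix (Fin 2) (Fin 2) L).det = 1 := by
    rw [Matrix.det_fin_two_of]
    have e : x 0 / D * y 1 - y 0 * (x 1 / D) = (x 0 * y 1 - x 1 * y 0) / D := by ring
    rw [e, ← hDe, div_self hD]
  have hx0 := congrFun hx2 0
  have hx1 := congrFun hx2 1
  have hy0 := congrFun hy2 0
  have hy1 := congrFun hy2 1
  rw [act_apply_zero] at hx0 hy0
  rw [act_apply_one] at hx1 hy1
  simp only [Pi.smul_apply, smul_eq_mul] at hx0 hx1 hy0 hy1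
  set P : SL2 L := ⟨!![x 0 / D, y 0; x 1 / D, y 1], hdet⟩ with hP
  have hAP : A * P = P * hypD lam h0 := by
    apply Subtype.ext
    rw [Matrix.SpecialLinearGroup.coe_mul, Matrix.SpecialLinearGroup.coe_mul]
    have eP : (P : Matrix (Fin 2) (Fin 2) L) = !![x 0 / D, y 0; x 1 / D, y 1] := rfl
    have eD : ((hypD lam h0 : SL2 L) : Matrix (Fin 2) (Fin 2) L) = !![lam, 0; 0, lam⁻¹] := rfl
    rw [eP, eD]
    ext i j
    rw [Matrix.mul_apply, Matrix.mul_apply, Fin.sum_univ_two, Fin.sum_univ_two]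
    fin_cases i <;> fin_cases j
    · simp
      linear_combination (1 / D) * hx0
    · simp
      linear_combination hy0
    · simp
      linear_combination (1 / D) * hx1
    · simp
      linear_combination hy1
  refine ⟨P⁻¹, ?_⟩
  rw [inv_inv, mul_assoc, hAP, inv_mul_cancel_left]

private theorem hyp_main {L : Type*} [Field L] {Γ₀ : Type*} [LinearOrderedCommGroupWithZero Γ₀]
    (v : Valuation L Γ₀) (lam : L) (h0 : lam ≠ 0) (hlam : 1 < v lam) (B : SL2 L)
    (h1 : tr (hypD lam h0 * B * (hypD lam h0)⁻¹ * B⁻¹) ≠ 2)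
    (h2 : ¬(tr B = 0 ∧ tr (hypD lam h0 * B) = 0)) :
    (∀ l l' : List Bool, l.length = l'.length →
      ev (hypD lam h0) (B * hypD lam h0 * B⁻¹) l = ev (hypD lam h0) (B * hypD lam h0 * B⁻¹) l' →
        l = l') ∨
    (∀ l l' : List Bool, l.length = l'.length →
      ev (hypD lam h0) (B * (hypD lam h0)⁻¹ * B⁻¹) l =
        ev (hypD lam h0) (B * (hypD lam h0)⁻¹ * B⁻¹) l' → l = l') := by
  have eD : ((hypD lam h0 : SL2 L) : Matrix (Fin 2) (Fin 2) L) = !![lam, 0; 0, lam⁻¹] := rfl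
  have hdet := det_eq B
  obtain ⟨α, hα⟩ : ∃ α, α = (B : Matrix (Fin 2) (Fin 2) L) 0 0 := ⟨_, rfl⟩
  obtain ⟨β, hβ⟩ : ∃ β, β = (B : Matrix (Fin 2) (Fin 2) L) 0 1 := ⟨_, rfl⟩
  obtain ⟨γ, hγ⟩ : ∃ γ, γ = (B : Matrix (Fin 2) (Fin 2) L) 1 0 := ⟨_, rfl⟩
  obtain ⟨δ, hδ⟩ : ∃ δ, δ = (B : Matrix (Fin 2) (Fin 2) L) 1 1 := ⟨_, rfl⟩
  rw [← hα, ← hβ, ← hγ, ← hδ] at hdet
  have htr : tr (hypD lam h0 * B * (hypD lam h0)⁻¹ * B⁻¹) = 2 - β * γ * (lam - lam⁻¹) ^ 2 := by
    rw [tr_eq]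
    simp only [Matrix.SpecialLinearGroup.coe_mul, inv_coe, eD, Matrix.mul_apply,
      Fin.sum_univ_two, ← hα, ← hβ, ← hγ, ← hδ]
    simp
    have hl : lam * lam⁻¹ = 1 := mul_inv_cancel₀ h0
    linear_combination (2 * α * δ) * hl + 2 * hdet - 2 * (β * γ) * hl
  have hbc : β * γ ≠ 0 := by
    intro h
    apply h1
    rw [htr, h, zero_mul, sub_zero]
  have had : ¬(α = 0 ∧ δ = 0) := by
    rintro ⟨ha, hd⟩
    apply h2
    refine ⟨?_, ?_⟩
    · rw [tr_eq, ← hα, ← hδ, ha, hd, add_zero]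
    · rw [tr_eq]
      simp only [Matrix.SpecialLinearGroup.coe_mul, eD, Matrix.mul_apply,
        Fin.sum_univ_two, ← hα, ← hβ, ← hγ, ← hδ, ha, hd]
      simp
  rcases le_or_gt 1 (v (α * δ)) with hv | hv
  · left
    refine pingPong v lam hlam (hypD lam h0) B eD ?_ ?_
    · rw [← hα, ← hδ]; exact hv
    · rw [← hβ, ← hγ]
      rintro ⟨h3, -⟩
      exact hbc (by rw [h3, zero_mul])
  · right
    have hv1 : v (β * γ) = 1 := by
      have e : β * γ = α * δ - 1 := by linear_combination -hdet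
      rw [e, Valuation.map_sub_eq_of_lt_right v (by rw [map_one]; exact hv), map_one]
    set J : SL2 L := ⟨!![0, 1; -1, 0], by rw [Matrix.det_fin_two_of]; ring⟩ with hJ
    have eJ : (J : Matrix (Fin 2) (Fin 2) L) = !![0, 1; -1, 0] := rfl
    have hJD : J * hypD lam h0 = (hypD lam h0)⁻¹ * J := by
      apply Subtype.ext
      rw [Matrix.SpecialLinearGroup.coe_mul, Matrix.SpecialLinearGroup.coe_mul, inv_coe, eD, eJ]
      ext i j
      rw [Matrix.mul_apply, Matrix.mul_apply, Fin.sum_univ_two, Fin.sum_univ_two]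
      fin_cases i <;> fin_cases j <;> simp
    have hconj : B * J * hypD lam h0 * (B * J)⁻¹ = B * (hypD lam h0)⁻¹ * B⁻¹ := by
      rw [mul_assoc B J, hJD]
      group
    have hpp := pingPong v lam hlam (hypD lam h0) (B * J) eD ?_ ?_
    · rw [hconj] at hpp
      exact hpp
    · have e0 : ((B * J : SL2 L) : Matrix (Fin 2) (Fin 2) L) 0 0 = -β := by
        rw [Matrix.SpecialLinearGroup.coe_mul, Matrix.mul_apply, Fin.sum_univ_two, eJ, ← hα, ← hβ]
        simp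
      have e1 : ((B * J : SL2 L) : Matrix (Fin 2) (Fin 2) L) 1 1 = γ := by
        rw [Matrix.SpecialLinearGroup.coe_mul, Matrix.mul_apply, Fin.sum_univ_two, eJ, ← hγ, ← hδ]
        simp
      rw [e0, e1, neg_mul, Valuation.map_neg, hv1]
    · have e0 : ((B * J : SL2 L) : Matrix (Fin 2) (Fin 2) L) 0 1 = α := by
        rw [Matrix.SpecialLinearGroup.coe_mul, Matrix.mul_apply, Fin.sum_univ_two, eJ, ← hα, ← hβ]
        simp
      have e1 : ((B * J : SL2 L) : Matrix (Fin 2) (Fin 2) L) 1 0 = -δ := by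
        rw [Matrix.SpecialLinearGroup.coe_mul, Matrix.mul_apply, Fin.sum_univ_two, eJ, ← hγ, ← hδ]
        simp
      rw [e0, e1]
      rintro ⟨h3, h4⟩
      exact had ⟨h3, neg_eq_zero.1 h4⟩

theorem hyp {L : Type*} [Field L] [IsAlgClosed L] {Γ₀ : Type*} [LinearOrderedCommGroupWithZero Γ₀]
    (v : Valuation L Γ₀) (A B : SL2 L) (hA : 1 < v (tr A))
    (h1 : tr (A * B * A⁻¹ * B⁻¹) ≠ 2) (h2 : ¬(tr B = 0 ∧ tr (A * B) = 0)) :
    (∀ l l' : List Bool, l.length = l'.length →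
      ev A (B * A * B⁻¹) l = ev A (B * A * B⁻¹) l' → l = l') ∨
    (∀ l l' : List Bool, l.length = l'.length →
      ev A (B * A⁻¹ * B⁻¹) l = ev A (B * A⁻¹ * B⁻¹) l' → l = l') := by
  obtain ⟨lam, h0, hroot, hlam⟩ : ∃ lam : L, lam ≠ 0 ∧ lam ^ 2 - tr A * lam + 1 = 0 ∧
      1 < v lam := by
    have hdeg : (Polynomial.X ^ 2 + Polynomial.C (-tr A) * Polynomial.X +
        Polynomial.C (1 : L) : Polynomial L).degree ≠ 0 := by
      have e : (Polynomial.X ^ 2 + Polynomial.C (-tr A) * Polynomial.X +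
        Polynomial.C (1 : L) : Polynomial L) = Polynomial.C (1 : L) * Polynomial.X ^ 2 +
          Polynomial.C (-tr A) * Polynomial.X + Polynomial.C (1 : L) := by
        rw [Polynomial.C_1, one_mul]
      rw [e, Polynomial.degree_quadratic one_ne_zero]
      decide
    obtain ⟨mu, hmu⟩ := IsAlgClosed.exists_root _ hdeg
    have hmu' : mu ^ 2 - tr A * mu + 1 = 0 := by
      have e : mu ^ 2 + -tr A * mu + 1 = 0 := by
        simpa [Polynomial.IsRoot.def] using hmu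
      linear_combination e
    have hmu0 : mu ≠ 0 := by
      rintro rfl
      simp at hmu'
    have hmui : mu⁻¹ ^ 2 - tr A * mu⁻¹ + 1 = 0 := by
      have e : mu⁻¹ ^ 2 - tr A * mu⁻¹ + 1 = mu⁻¹ ^ 2 * (mu ^ 2 - tr A * mu + 1) := by
        field_simp
        ring
      rw [e, hmu', mul_zero]
    have hsum : tr A = mu + mu⁻¹ := by
      have e : tr A * mu = mu ^ 2 + 1 := by linear_combination -hmu'
      field_simp
      exact e
    rw [hsum] at hA
    rcases lt_max_iff.1 (lt_of_lt_of_le hA (v.map_add mu mu⁻¹)) with h | h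
    · exact ⟨mu, hmu0, hmu', h⟩
    · exact ⟨mu⁻¹, inv_ne_zero hmu0, hmui, h⟩
  have hne : lam ≠ lam⁻¹ := by
    intro h
    have e : lam * lam = 1 := by
      nth_rewrite 2 [h]
      exact mul_inv_cancel₀ h0
    have e2 := congrArg v e
    rw [map_mul, map_one] at e2
    exact absurd e2 (ne_of_gt (one_lt_mul'' hlam hlam))
  obtain ⟨g, hg⟩ := hyp_diag A lam h0 hroot hne
  have key := hyp_main v lam h0 hlam (g * B * g⁻¹) ?_ ?_
  · rw [← hg] at key
    have e1 : g * B * g⁻¹ * (g * A * g⁻¹) * (g * B * g⁻¹)⁻¹ = g * (B * A * B⁻¹) * g⁻¹ := by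
      group
    have e2 : g * B * g⁻¹ * (g * A * g⁻¹)⁻¹ * (g * B * g⁻¹)⁻¹ = g * (B * A⁻¹ * B⁻¹) * g⁻¹ := by
      group
    rw [e1, e2] at key
    rcases key with h | h
    · exact Or.inl (hyp_free_conj g _ _ h)
    · exact Or.inr (hyp_free_conj g _ _ h)
  · rw [← hg]
    have e : g * A * g⁻¹ * (g * B * g⁻¹) * (g * A * g⁻¹)⁻¹ * (g * B * g⁻¹)⁻¹ =
        g * (A * B * A⁻¹ * B⁻¹) * g⁻¹ := by
      group
    rw [e, tr_conj]
    exact h1
  · rw [← hg]
    have e : g * A * g⁻¹ * (g * B * g⁻¹) = g * (A * B) * g⁻¹ := by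
      group
    rw [e, tr_conj, tr_conj]
    exact h2

end Pool.Agent.Helper72.PF
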