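import Pool.Agent.Helper72.PF.Defs

/-! # PF-PingPong

Ping-pong over an arbitrary valued field (no rank condition): `A = diag(lam, lam⁻¹)`, `|lam| > 1`, and `A' = B A B⁻¹` generate a free
semigroup (for words of equal length) if `|α δ| ≥ 1`, where `B = !![α, β; γ, δ]`, and `β, γ` are not both `0`.

Plan. `|x| = v x`. `α, δ ≠ 0`. `μ = lam⁻²`, `|μ| < 1`.
CASE `γ ≠ 0`. `τ = γ / α ≠ 0`. For vectors `X = (X₀, X₁)` let `D(X)`: `X₀ ≠ 0`, `|X₁| ≤ |τ| |X₀|` and
`|β X₁ - δ X₀| ≥ |α|⁻¹ |X₀|`. With `t = X₁ / X₀`: `|t| ≤ |τ|`, `|β t - δ| ≥ |α|⁻¹`. Claims: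
(a) `D((1, 0))`: `|δ| ≥ |α|⁻¹` is `h1`.
(b) `D(X) → D(A X)` and `|(A X)₁| < |τ| |(A X)₀|`: `A` acts by `t ↦ μ t`, `|μ t| < |τ|`; `|β μ t| ≤ |μ| |β γ| / |α| < |α δ| / |α| = |δ|`
   (if `|β γ| ≤ 1` use `|μ| < 1 ≤ |α δ|`, if `|β γ| > 1` then `|α δ| = |1 + β γ| = |β γ|`), so `|β μ t - δ| = |δ| ≥ |α|⁻¹`.
(c) `D(X) → D(A' X)` and `|(A' X)₁| = |τ| |(A' X)₀|`: `s = (α t - γ) / (δ - β t)` is the coordinate of `B⁻¹ X`;
   `β (α t - γ) = α (β t - δ) + 1`, so `|β s| ≤ |α|`; `|α t - γ| ≤ |γ|`, so `|s| ≤ |α γ|`. The coordinate of `A' X` is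
   `t' = (γ + δ μ s) / (α + β μ s)`, `|α + β μ s| = |α|`, `t' - τ = μ s / (α (α + β μ s))`, so `|t' - τ| = |μ s| / |α|² ≤ |μ| |τ| < |τ|`,
   `|t'| = |τ|`; `β t' - δ = β (t' - τ) - 1/α` and `|β (t' - τ)| ≤ |μ| / |α| < |α|⁻¹`, so `|β t' - δ| = |α|⁻¹`.
   (It may be easier to write everything homogeneously: `Y = B⁻¹ X = (δ X₀ - β X₁, -γ X₀ + α X₁)`, `A' X = B (lam Y₀, lam⁻¹ Y₁)`.)
Then for all words `u` in `A, A'`: `D(u (1,0))`. If `l ≠ l'` have equal length and equal value, cancel the common prefix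
(induction on the lists; equal first letters: cancel in the group); different first letters: `A u = A' u'` contradicts (b), (c)
applied to `u (1,0)`, `u' (1,0)` (ratio `<` against `=`).
CASE `γ = 0`, so `β ≠ 0`: apply the first case to the transposed matrices: `Aᵀ = A`, `(B A B⁻¹)ᵀ = B₂ A B₂⁻¹` with
`B₂ = (B⁻¹)ᵀ = !![δ, -γ; -β, α]`, and transposition reverses words (`ev` of the reversed lists; the transpose of a product), so
`l.reverse = l'.reverse`. `Matrix.SpecialLinearGroup.transpose` exists.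
-/

namespace Pool.Agent.Helper72.PF

open Matrix Module Pool.Agent.Helper72.TV Pool.Agent.Helper72.PT

section

variable {L : Type*} [Field L] {Γ₀ : Type*} [LinearOrderedCommGroupWithZero Γ₀]

private theorem pp_lt (l c : Γ₀) (hl : 1 < l) (hc : c ≠ 0) : l⁻¹ * c < l * c := by
  have h1 : l⁻¹ < 1 := inv_lt_one_of_one_lt₀ hl
  exact mul_lt_mul_of_pos_right (h1.trans hl) (zero_lt_iff.2 hc)

/-- the domain of the ping-pong argument -/
private def Dm (v : Valuation L Γ₀) (α β γ δ x y : L) : Prop :=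
  x ≠ 0 ∧ v (α * y) ≤ v (γ * x) ∧ v x ≤ v (α * (δ * x - β * y))

private theorem dm_b (v : Valuation L Γ₀) {lam α β γ δ x y : L} (hlam : 1 < v lam)
    (hdet : α * δ - β * γ = 1) (h1 : 1 ≤ v (α * δ)) (hγ : γ ≠ 0) (h : Dm v α β γ δ x y) :
    Dm v α β γ δ (lam * x) (lam⁻¹ * y) ∧ v (α * (lam⁻¹ * y)) < v (γ * (lam * x)) := by
  obtain ⟨hx, hy, hz⟩ := h
  have hl0 : lam ≠ 0 := by
    rintro rfl
    rw [map_zero] at hlam
    exact absurd hlam (not_lt.2 zero_le)
  have hvl : v lam⁻¹ = (v lam)⁻¹ := map_inv₀ v lam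
  have hxγ : v (γ * x) ≠ 0 := (Valuation.ne_zero_iff v).2 (mul_ne_zero hγ hx)
  have hs : v (α * (lam⁻¹ * y)) < v (γ * (lam * x)) := by
    calc v (α * (lam⁻¹ * y)) = (v lam)⁻¹ * v (α * y) := by
          rw [← hvl, ← map_mul]
          congr 1
          ring
      _ ≤ (v lam)⁻¹ * v (γ * x) := by gcongr
      _ < v lam * v (γ * x) := pp_lt _ _ hlam hxγ
      _ = v (γ * (lam * x)) := by
          rw [← map_mul]
          congr 1
          ring
  have hβγ : v (β * γ) ≤ v (α * δ) := by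
    have h2 : β * γ = α * δ - 1 := by linear_combination -hdet
    rw [h2]
    exact v.map_sub_le le_rfl (by rw [map_one]; exact h1)
  have hαδ : α * δ ≠ 0 := by
    intro h2
    rw [h2, map_zero] at h1
    exact absurd h1 (not_le.2 zero_lt_one)
  have hk : v (α * (β * (lam⁻¹ * y))) < v (α * (δ * (lam * x))) := by
    have hxδ : v (α * δ * x) ≠ 0 := (Valuation.ne_zero_iff v).2 (mul_ne_zero hαδ hx)
    calc v (α * (β * (lam⁻¹ * y))) = (v lam)⁻¹ * (v β * v (α * y)) := by
          rw [← hvl, ← map_mul, ← map_mul]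
          congr 1
          ring
      _ ≤ (v lam)⁻¹ * (v β * v (γ * x)) := by gcongr
      _ = (v lam)⁻¹ * (v (β * γ) * v x) := by
          rw [map_mul, map_mul, mul_assoc]
      _ ≤ (v lam)⁻¹ * (v (α * δ) * v x) := by gcongr
      _ = (v lam)⁻¹ * v (α * δ * x) := by rw [map_mul v (α * δ) x]
      _ < v lam * v (α * δ * x) := pp_lt _ _ hlam hxδ
      _ = v (α * (δ * (lam * x))) := by
          rw [← map_mul]
          congr 1
          ring
  refine ⟨⟨mul_ne_zero hl0 hx, hs.le, ?_⟩, hs⟩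
  have e1 : α * (δ * (lam * x) - β * (lam⁻¹ * y)) =
      α * (δ * (lam * x)) - α * (β * (lam⁻¹ * y)) := by ring
  rw [e1, v.map_sub_eq_of_lt_left hk]
  calc v (lam * x) = 1 * v (lam * x) := (one_mul _).symm
    _ ≤ v (α * δ) * v (lam * x) := by gcongr
    _ = v (α * (δ * (lam * x))) := by
        rw [← map_mul]
        congr 1
        ring

private theorem dm_c (v : Valuation L Γ₀) {lam α β γ δ x y : L} (hlam : 1 < v lam)
    (hdet : α * δ - β * γ = 1) (hγ : γ ≠ 0) (h : Dm v α β γ δ x y) :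
    Dm v α β γ δ (α * (lam * (δ * x - β * y)) + β * (lam⁻¹ * (α * y - γ * x)))
        (γ * (lam * (δ * x - β * y)) + δ * (lam⁻¹ * (α * y - γ * x))) ∧
      v (α * (γ * (lam * (δ * x - β * y)) + δ * (lam⁻¹ * (α * y - γ * x)))) =
        v (γ * (α * (lam * (δ * x - β * y)) + β * (lam⁻¹ * (α * y - γ * x)))) := by
  obtain ⟨hx, hy, hz⟩ := h
  have hl0 : lam ≠ 0 := by
    rintro rfl
    rw [map_zero] at hlam
    exact absurd hlam (not_lt.2 zero_le)
  have hvl : v lam⁻¹ = (v lam)⁻¹ := map_inv₀ v lam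
  have hvx : v x ≠ 0 := (Valuation.ne_zero_iff v).2 hx
  set Y : L := δ * x - β * y with hY
  set W : L := α * y - γ * x with hW
  have hαY : v (α * Y) ≠ 0 := by
    intro h2
    rw [h2] at hz
    exact hvx (le_antisymm hz zero_le)
  have hαY0 : α * Y ≠ 0 := (Valuation.ne_zero_iff v).1 hαY
  -- bounds for `W`
  have hW1 : v W ≤ v (γ * (α * Y)) := by
    have h2 : v W ≤ v (γ * x) := v.map_sub_le hy le_rfl
    refine h2.trans ?_
    rw [map_mul, map_mul v γ (α * Y)]
    gcongr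
  have hW2 : v (β * W) ≤ v (α * Y) := by
    have h2 : β * W = x - α * Y := by
      rw [hW, hY]
      linear_combination x * hdet
    rw [h2]
    exact v.map_sub_le hz le_rfl
  have k1 : v (β * (lam⁻¹ * W)) < v (α * (lam * Y)) := by
    calc v (β * (lam⁻¹ * W)) = (v lam)⁻¹ * v (β * W) := by
          rw [← hvl, ← map_mul]
          congr 1
          ring
      _ ≤ (v lam)⁻¹ * v (α * Y) := by gcongr
      _ < v lam * v (α * Y) := pp_lt _ _ hlam hαY
      _ = v (α * (lam * Y)) := by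
          rw [← map_mul]
          congr 1
          ring
  have hZ : v (α * (lam * Y) + β * (lam⁻¹ * W)) = v (α * (lam * Y)) :=
    v.map_add_eq_of_lt_left k1
  have k0 : v (α * (lam * Y)) ≠ 0 := by
    have h2 : α * (lam * Y) = lam * (α * Y) := by ring
    rw [h2]
    exact (Valuation.ne_zero_iff v).2 (mul_ne_zero hl0 hαY0)
  have hZ0 : α * (lam * Y) + β * (lam⁻¹ * W) ≠ 0 := by
    rw [← Valuation.ne_zero_iff v, hZ]
    exact k0
  have k2 : v (lam⁻¹ * W) < v (γ * (α * (lam * Y) + β * (lam⁻¹ * W))) := by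
    rw [map_mul v γ, hZ, ← map_mul]
    have h3 : v (γ * (α * Y)) ≠ 0 := (Valuation.ne_zero_iff v).2 (mul_ne_zero hγ hαY0)
    calc v (lam⁻¹ * W) = (v lam)⁻¹ * v W := by rw [← hvl, ← map_mul]
      _ ≤ (v lam)⁻¹ * v (γ * (α * Y)) := by gcongr
      _ < v lam * v (γ * (α * Y)) := pp_lt _ _ hlam h3
      _ = v (γ * (α * (lam * Y))) := by
          rw [← map_mul]
          congr 1
          ring
  have e1 : α * (γ * (lam * Y) + δ * (lam⁻¹ * W)) =
      γ * (α * (lam * Y) + β * (lam⁻¹ * W)) + lam⁻¹ * W := by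
    linear_combination (lam⁻¹ * W) * hdet
  have e2 : v (α * (γ * (lam * Y) + δ * (lam⁻¹ * W))) =
      v (γ * (α * (lam * Y) + β * (lam⁻¹ * W))) := by
    rw [e1]
    exact v.map_add_eq_of_lt_left k2
  refine ⟨⟨hZ0, e2.le, ?_⟩, e2⟩
  have e3 : δ * (α * (lam * Y) + β * (lam⁻¹ * W)) - β * (γ * (lam * Y) + δ * (lam⁻¹ * W)) =
      lam * Y := by
    linear_combination (lam * Y) * hdet
  rw [e3, hZ]

private theorem pp_det (B : SL2 L) : (B : Matrix (Fin 2) (Fin 2) L) 0 0 *
    (B : Matrix (Fin 2) (Fin 2) L) 1 1 - (B : Matrix (Fin 2) (Fin 2) L) 0 1 *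
      (B : Matrix (Fin 2) (Fin 2) L) 1 0 = 1 := by
  have h := B.det_coe
  rw [Matrix.det_fin_two] at h
  exact h

private theorem pp_mulA {lam : L} {A : SL2 L}
    (hA : (A : Matrix (Fin 2) (Fin 2) L) = !![lam, 0; 0, lam⁻¹]) (u : SL2 L) :
    ((A * u : SL2 L) : Matrix (Fin 2) (Fin 2) L) 0 0 =
        lam * (u : Matrix (Fin 2) (Fin 2) L) 0 0 ∧
      ((A * u : SL2 L) : Matrix (Fin 2) (Fin 2) L) 1 0 =
        lam⁻¹ * (u : Matrix (Fin 2) (Fin 2) L) 1 0 := by
  rw [Matrix.SpecialLinearGroup.coe_mul, hA]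
  constructor
  · simp [Matrix.mul_apply, Fin.sum_univ_two]
  · simp [Matrix.mul_apply, Fin.sum_univ_two]

private theorem pp_mulB {lam : L} {A B : SL2 L}
    (hA : (A : Matrix (Fin 2) (Fin 2) L) = !![lam, 0; 0, lam⁻¹]) (u : SL2 L)
    (α β γ δ : L) (hB : (B : Matrix (Fin 2) (Fin 2) L) = !![α, β; γ, δ]) :
    ((B * A * B⁻¹ * u : SL2 L) : Matrix (Fin 2) (Fin 2) L) 0 0 =
        α * (lam * (δ * (u : Matrix (Fin 2) (Fin 2) L) 0 0 -
          β * (u : Matrix (Fin 2) (Fin 2) L) 1 0)) +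
        β * (lam⁻¹ * (α * (u : Matrix (Fin 2) (Fin 2) L) 1 0 -
          γ * (u : Matrix (Fin 2) (Fin 2) L) 0 0)) ∧
      ((B * A * B⁻¹ * u : SL2 L) : Matrix (Fin 2) (Fin 2) L) 1 0 =
        γ * (lam * (δ * (u : Matrix (Fin 2) (Fin 2) L) 0 0 -
          β * (u : Matrix (Fin 2) (Fin 2) L) 1 0)) +
        δ * (lam⁻¹ * (α * (u : Matrix (Fin 2) (Fin 2) L) 1 0 -
          γ * (u : Matrix (Fin 2) (Fin 2) L) 0 0)) := by
  rw [Matrix.SpecialLinearGroup.coe_mul, Matrix.SpecialLinearGroup.coe_mul,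
    Matrix.SpecialLinearGroup.coe_mul, Matrix.SpecialLinearGroup.coe_inv, hA, hB,
    Matrix.adjugate_fin_two_of]
  constructor
  · simp [Matrix.mul_apply, Fin.sum_univ_two]
    ring
  · simp [Matrix.mul_apply, Fin.sum_univ_two]
    ring

private theorem pp1 (v : Valuation L Γ₀) (lam : L) (hlam : 1 < v lam) (A B : SL2 L)
    (hA : (A : Matrix (Fin 2) (Fin 2) L) = !![lam, 0; 0, lam⁻¹])
    (h1 : 1 ≤ v ((B : Matrix (Fin 2) (Fin 2) L) 0 0 * (B : Matrix (Fin 2) (Fin 2) L) 1 1))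
    (h2 : (B : Matrix (Fin 2) (Fin 2) L) 1 0 ≠ 0) :
    ∀ l l' : List Bool, l.length = l'.length →
      ev A (B * A * B⁻¹) l = ev A (B * A * B⁻¹) l' → l = l' := by
  set α := (B : Matrix (Fin 2) (Fin 2) L) 0 0 with hα
  set β := (B : Matrix (Fin 2) (Fin 2) L) 0 1 with hβ
  set γ := (B : Matrix (Fin 2) (Fin 2) L) 1 0 with hγ
  set δ := (B : Matrix (Fin 2) (Fin 2) L) 1 1 with hδ
  have hdet : α * δ - β * γ = 1 := pp_det B
  have hB : (B : Matrix (Fin 2) (Fin 2) L) = !![α, β; γ, δ] := by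
    ext i j
    fin_cases i <;> fin_cases j <;> rfl
  -- all words
  have hD : ∀ l : List Bool, Dm v α β γ δ
      (((ev A (B * A * B⁻¹) l : SL2 L) : Matrix (Fin 2) (Fin 2) L) 0 0)
      (((ev A (B * A * B⁻¹) l : SL2 L) : Matrix (Fin 2) (Fin 2) L) 1 0) := by
    intro l
    induction l with
    | nil =>
      rw [ev_nil, Matrix.SpecialLinearGroup.coe_one]
      refine ⟨?_, ?_, ?_⟩
      · simp
      · simp
      · simpa using h1
    | cons s l ih =>
      rw [ev_cons]
      cases s with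
      | true =>
        have h3 := pp_mulA hA (ev A (B * A * B⁻¹) l)
        rw [cond_true, h3.1, h3.2]
        exact (dm_b v hlam hdet h1 h2 ih).1
      | false =>
        have h3 := pp_mulB hA (ev A (B * A * B⁻¹) l) α β γ δ hB
        rw [cond_false, h3.1, h3.2]
        exact (dm_c v hlam hdet h2 ih).1
  have hne : ∀ l l' : List Bool, A * ev A (B * A * B⁻¹) l ≠
      (B * A * B⁻¹) * ev A (B * A * B⁻¹) l' := by
    intro l l' heq
    have h3 := pp_mulA hA (ev A (B * A * B⁻¹) l)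
    have h4 := pp_mulB hA (ev A (B * A * B⁻¹) l') α β γ δ hB
    rw [← heq, h3.1, h3.2] at h4
    have h5 := (dm_b v hlam hdet h1 h2 (hD l)).2
    have h6 := (dm_c v hlam hdet h2 (hD l')).2
    rw [h4.1, h4.2, h6] at h5
    exact lt_irrefl _ h5
  intro l
  induction l with
  | nil =>
    intro l' hl _
    symm at hl
    rw [List.length_nil, List.length_eq_zero_iff] at hl
    exact hl.symm
  | cons s l ih =>
    intro l' hl he
    cases l' with
    | nil => simp at hl
    | cons s' l' =>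
      rw [ev_cons, ev_cons] at he
      have hl2 : l.length = l'.length := by simpa using hl
      cases s with
      | true =>
        cases s' with
        | true =>
          rw [ih l' hl2 (mul_left_cancel he)]
        | false => exact absurd he (hne l l')
      | false =>
        cases s' with
        | true => exact absurd he.symm (hne l' l)
        | false =>
          rw [ih l' hl2 (mul_left_cancel he)]

private theorem ev_append (u w : SL2 L) (l l' : List Bool) :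
    ev u w (l ++ l') = ev u w l * ev u w l' := by
  unfold ev
  rw [List.map_append, List.prod_append]

private theorem tr_mul (a b : SL2 L) : (a * b).transpose = b.transpose * a.transpose := by
  apply Subtype.ext
  show ((a * b : SL2 L) : Matrix (Fin 2) (Fin 2) L).transpose =
    (b : Matrix (Fin 2) (Fin 2) L).transpose * (a : Matrix (Fin 2) (Fin 2) L).transpose
  rw [Matrix.SpecialLinearGroup.coe_mul, Matrix.transpose_mul]

private theorem tr_one : (1 : SL2 L).transpose = 1 := by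
  apply Subtype.ext
  show (1 : Matrix (Fin 2) (Fin 2) L).transpose = 1
  exact Matrix.transpose_one

private theorem ev_tr (u w : SL2 L) (l : List Bool) :
    (ev u w l).transpose = ev u.transpose w.transpose l.reverse := by
  induction l with
  | nil => exact tr_one
  | cons s l ih =>
    rw [ev_cons, tr_mul, ih, List.reverse_cons, ev_append]
    congr 1
    cases s
    · show w.transpose = ev u.transpose w.transpose [false]
      rw [ev_cons, ev_nil, mul_one]
      rfl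
    · show u.transpose = ev u.transpose w.transpose [true]
      rw [ev_cons, ev_nil, mul_one]
      rfl

end

theorem pingPong {L : Type*} [Field L] {Γ₀ : Type*} [LinearOrderedCommGroupWithZero Γ₀]
    (v : Valuation L Γ₀) (lam : L) (hlam : 1 < v lam) (A B : SL2 L)
    (hA : (A : Matrix (Fin 2) (Fin 2) L) = !![lam, 0; 0, lam⁻¹])
    (h1 : 1 ≤ v ((B : Matrix (Fin 2) (Fin 2) L) 0 0 * (B : Matrix (Fin 2) (Fin 2) L) 1 1))
    (h2 : ¬((B : Matrix (Fin 2) (Fin 2) L) 0 1 = 0 ∧ (B : Matrix (Fin 2) (Fin 2) L) 1 0 = 0)) :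
    ∀ l l' : List Bool, l.length = l'.length →
      ev A (B * A * B⁻¹) l = ev A (B * A * B⁻¹) l' → l = l' := by
  by_cases hγ : (B : Matrix (Fin 2) (Fin 2) L) 1 0 = 0
  · have hβ : (B : Matrix (Fin 2) (Fin 2) L) 0 1 ≠ 0 := fun h => h2 ⟨h, hγ⟩
    set B₂ : SL2 L := (B⁻¹).transpose with hB₂
    have hcoe : (B₂ : Matrix (Fin 2) (Fin 2) L) =
        ((B : Matrix (Fin 2) (Fin 2) L).adjugate).transpose := by
      rw [hB₂, ← Matrix.SpecialLinearGroup.coe_inv]
      rfl
    have e00 : (B₂ : Matrix (Fin 2) (Fin 2) L) 0 0 = (B : Matrix (Fin 2) (Fin 2) L) 1 1 := by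
      rw [hcoe, Matrix.transpose_apply, Matrix.adjugate_fin_two]
      rfl
    have e11 : (B₂ : Matrix (Fin 2) (Fin 2) L) 1 1 = (B : Matrix (Fin 2) (Fin 2) L) 0 0 := by
      rw [hcoe, Matrix.transpose_apply, Matrix.adjugate_fin_two]
      rfl
    have e10 : (B₂ : Matrix (Fin 2) (Fin 2) L) 1 0 = -(B : Matrix (Fin 2) (Fin 2) L) 0 1 := by
      rw [hcoe, Matrix.transpose_apply, Matrix.adjugate_fin_two]
      rfl
    have hAt : A.transpose = A := by
      apply Subtype.ext
      show (A : Matrix (Fin 2) (Fin 2) L).transpose = (A : Matrix (Fin 2) (Fin 2) L)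
      rw [hA]
      ext i j
      fin_cases i <;> fin_cases j <;> rfl
    have hBB : B.transpose = B₂⁻¹ := by
      rw [eq_inv_iff_mul_eq_one, hB₂, ← tr_mul, inv_mul_cancel, tr_one]
    have hconj : (B * A * B⁻¹).transpose = B₂ * A * B₂⁻¹ := by
      rw [tr_mul, tr_mul, hAt, hBB, mul_assoc]
    have key := pp1 v lam hlam A B₂ hA (by rw [e00, e11, mul_comm]; exact h1)
      (by rw [e10]; exact neg_ne_zero.2 hβ)
    intro l l' hl he
    have h3 := congrArg Matrix.SpecialLinearGroup.transpose he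
    rw [ev_tr, ev_tr, hAt, hconj] at h3
    have h4 := key l.reverse l'.reverse (by rw [List.length_reverse, List.length_reverse, hl]) h3
    exact List.reverse_injective h4
  · exact pp1 v lam hlam A B hA h1 hγ

end Pool.Agent.Helper72.PF
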